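import Pool.Agent.H520R2.NM

/-!
# Approximations by closed families of clauses

`Γ` indexes inputs which have to be accepted, `Ω` inputs most of which have to be rejected.
-/

set_option linter.unusedSectionVars false

namespace Pool.Agent.H611R4

open Finset Pool.Agent.H520R2 Pool.Agent.H520R2.NM

section Approx

variable {V Γ Ω : Type} [Fintype V] [DecidableEq V] [Fintype Γ] [Fintype Ω]

/-- Some clause of `A` is falsified by `u`. -/
def Hit (A : Finset (Finset V)) (u : V → Bool) : Prop := ∃ Q ∈ A, ∀ v ∈ Q, u v = false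

theorem Hit.mono {A A' : Finset (Finset V)} (h : A ⊆ A') {u : V → Bool} (hu : Hit A u) :
    Hit A' u := by
  obtain ⟨Q, hQ, hv⟩ := hu
  exact ⟨Q, h hQ, hv⟩

open Classical in
/-- All admissible clauses. -/
noncomputable def allC (Cn : Finset V → Prop) (w : ℕ) : Finset (Finset V) :=
  univ.filter (fun Q => Cn Q ∧ Q.card ≤ w)

theorem mem_allC {Cn : Finset V → Prop} {w : ℕ} {Q : Finset V} :
    Q ∈ allC Cn w ↔ Cn Q ∧ Q.card ≤ w := by
  simp [allC]

open Classical in
/-- A family of clauses is closed if it contains every admissible clause `Z` such that few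
`γ` falsify `Z` but no member of the family. -/
def ClosedF (Cn : Finset V → Prop) (w E : ℕ) (φ : Γ → V → Bool) (A : Finset (Finset V)) : Prop :=
  ∀ Z ∈ allC Cn w, (univ.filter (fun γ => (∀ v ∈ Z, φ γ v = false) ∧ ¬ Hit A (φ γ))).card * E ≤
    Fintype.card Γ → Z ∈ A

open Classical in
theorem exists_closure (Cn : Finset V → Prop) (w E : ℕ) (φ : Γ → V → Bool)
    (A : Finset (Finset V)) (hA : A ⊆ allC Cn w) :
    ∃ A', A ⊆ A' ∧ A' ⊆ allC Cn w ∧ ClosedF Cn w E φ A' ∧
      (univ.filter (fun γ => Hit A' (φ γ) ∧ ¬ Hit A (φ γ))).card * E ≤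
        (allC Cn w).card * Fintype.card Γ := by
  let S := (allC Cn w).powerset.filter (fun A' => A ⊆ A' ∧
    (univ.filter (fun γ => Hit A' (φ γ) ∧ ¬ Hit A (φ γ))).card * E ≤
        (A'.card - A.card) * Fintype.card Γ)
  have hne : S.Nonempty := by
    refine ⟨A, ?_⟩
    simp only [S, mem_filter, mem_powerset]
    refine ⟨hA, Subset.refl _, ?_⟩
    have : (univ.filter (fun γ => Hit A (φ γ) ∧ ¬ Hit A (φ γ))) = ∅ := by
      ext γ; simp
    rw [this]; simp
  obtain ⟨A', hA', hmax⟩ := exists_max_image S Finset.card hne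
  simp only [S, mem_filter, mem_powerset] at hA'
  obtain ⟨h1, h2, h3⟩ := hA'
  refine ⟨A', h2, h1, ?_, ?_⟩
  · intro Z hZ hc
    by_contra hZA
    have hcard : (insert Z A').card = A'.card + 1 := card_insert_of_notMem hZA
    have hmem : insert Z A' ∈ S := by
      simp only [S, mem_filter, mem_powerset]
      refine ⟨insert_subset hZ h1, h2.trans (subset_insert _ _), ?_⟩
      have hsub : (univ.filter (fun γ => Hit (insert Z A') (φ γ) ∧ ¬ Hit A (φ γ))) ⊆
          (univ.filter (fun γ => Hit A' (φ γ) ∧ ¬ Hit A (φ γ))) ∪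
          (univ.filter (fun γ => (∀ v ∈ Z, φ γ v = false) ∧ ¬ Hit A' (φ γ))) := by
        intro γ hγ
        simp only [mem_filter, mem_univ, true_and, mem_union] at hγ ⊢
        obtain ⟨⟨Q, hQ, hv⟩, hn⟩ := hγ
        by_cases h : Hit A' (φ γ)
        · exact Or.inl ⟨h, hn⟩
        · right
          rcases mem_insert.1 hQ with rfl | hQ
          · exact ⟨hv, h⟩
          · exact absurd ⟨Q, hQ, hv⟩ h
      have hle : A.card ≤ A'.card := card_le_card h2
      calc _ ≤ ((univ.filter (fun γ => Hit A' (φ γ) ∧ ¬ Hit A (φ γ))).card +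
          (univ.filter (fun γ => (∀ v ∈ Z, φ γ v = false) ∧ ¬ Hit A' (φ γ))).card) * E :=
            Nat.mul_le_mul_right _ ((card_le_card hsub).trans (card_union_le _ _))
        _ ≤ (A'.card - A.card) * Fintype.card Γ + Fintype.card Γ := by
            rw [Nat.add_mul]; exact Nat.add_le_add h3 hc
        _ = ((insert Z A').card - A.card) * Fintype.card Γ := by
            rw [hcard, show A'.card + 1 - A.card = A'.card - A.card + 1 by omega]; ring
    have := hmax _ hmem
    omega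
  · refine h3.trans (Nat.mul_le_mul_right _ ?_)
    exact (Nat.sub_le _ _).trans (card_le_card h1)

/-- The minimal members of a family. -/
def mins (A : Finset (Finset V)) : Finset (Finset V) :=
  A.filter (fun Q => ∀ Q' ∈ A, Q' ⊆ Q → Q' = Q)

theorem exists_min {A : Finset (Finset V)} {Q : Finset V} (hQ : Q ∈ A) :
    ∃ Q' ∈ mins A, Q' ⊆ Q := by
  classical
  obtain ⟨Q', h1, h2⟩ := exists_min_image (A.filter (fun Q' => Q' ⊆ Q)) Finset.card
    ⟨Q, by simp [hQ]⟩
  simp only [mem_filter] at h1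
  refine ⟨Q', ?_, h1.2⟩
  simp only [mins, mem_filter]
  refine ⟨h1.1, fun Q'' hQ'' hs => ?_⟩
  refine eq_of_subset_of_card_le hs (h2 Q'' ?_)
  simp only [mem_filter]
  exact ⟨hQ'', hs.trans h1.2⟩

/-- The sunflower hypothesis. -/
def Sun (Cn : Finset V → Prop) (w R E : ℕ) (φ : Γ → V → Bool) : Prop :=
  ∀ (A : Finset (Finset V)) (l : ℕ), 1 ≤ l → l ≤ w → (∀ Q ∈ A, Cn Q ∧ Q.card = l) →
    R ^ l < A.card → ∃ Z, ∃ Q ∈ A, Z ⊂ Q ∧
      (univ.filter (fun γ => (∀ v ∈ Z, φ γ v = false) ∧ ∀ Q ∈ A, ∃ v ∈ Q, φ γ v = true)).card * E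
        ≤ Fintype.card Γ

theorem level_card {Cn : Finset V → Prop} {w R E : ℕ} {φ : Γ → V → Bool}
    (hsub : ∀ Q Q' : Finset V, Cn Q → Q' ⊆ Q → Cn Q') (hsun : Sun Cn w R E φ)
    {A : Finset (Finset V)} (hA : A ⊆ allC Cn w) (hcl : ClosedF Cn w E φ A) (h0 : ∅ ∉ A)
    (l : ℕ) : ((mins A).filter (fun Q => Q.card = l)).card ≤ R ^ l := by
  classical
  by_contra hlt
  push Not at hlt
  have hne : ((mins A).filter (fun Q => Q.card = l)).Nonempty := by
    rw [← card_pos]; omega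
  obtain ⟨Q0, hQ0⟩ := hne
  simp only [mem_filter, mins] at hQ0
  have hw : l ≤ w := by
    rw [← hQ0.2]; exact (mem_allC.1 (hA hQ0.1.1)).2
  have hl : 1 ≤ l := by
    rcases Nat.eq_zero_or_pos l with h | h
    · exfalso
      have : Q0 = ∅ := by rw [← card_eq_zero]; omega
      rw [this] at hQ0
      exact h0 hQ0.1.1
    · exact h
  obtain ⟨Z, Q, hQ, hZQ, hc⟩ := hsun _ l hl hw (by
    intro Q hQ
    simp only [mem_filter, mins] at hQ
    exact ⟨(mem_allC.1 (hA hQ.1.1)).1, hQ.2⟩) hlt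
  simp only [mem_filter, mins] at hQ
  have hQa := mem_allC.1 (hA hQ.1.1)
  have hZ : Z ∈ A := by
    refine hcl Z (mem_allC.2 ⟨hsub _ _ hQa.1 hZQ.1, (card_le_card hZQ.1).trans hQa.2⟩) ?_
    refine le_trans (Nat.mul_le_mul_right _ (card_le_card ?_)) hc
    intro γ hγ
    simp only [mem_filter, mem_univ, true_and, mins] at hγ ⊢
    refine ⟨hγ.1, fun Q hQ => ?_⟩
    by_contra hno
    push Not at hno
    refine hγ.2 ⟨Q, hQ.1.1, fun v hv => ?_⟩
    simpa using hno v hv
  have := hQ.1.2 Z hZ hZQ.1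
  exact hZQ.ne this

theorem geom_le (R w : ℕ) (hR : 2 ≤ R) : ∑ l ∈ range (w + 1), R ^ l ≤ 2 * R ^ w := by
  induction w with
  | zero => simp
  | succ w ih =>
    rw [sum_range_succ]
    have : 2 * R ^ w ≤ R ^ (w + 1) := by
      rw [pow_succ, mul_comm]; exact Nat.mul_le_mul_left _ hR
    omega

theorem mins_card {Cn : Finset V → Prop} {w R E : ℕ} {φ : Γ → V → Bool} (hR : 2 ≤ R)
    (hsub : ∀ Q Q' : Finset V, Cn Q → Q' ⊆ Q → Cn Q') (hsun : Sun Cn w R E φ)
    {A : Finset (Finset V)} (hA : A ⊆ allC Cn w) (hcl : ClosedF Cn w E φ A) :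
    (mins A).card ≤ 2 * R ^ w := by
  classical
  by_cases h0 : ∅ ∈ A
  · have : mins A ⊆ {∅} := by
      intro Q hQ
      simp only [mins, mem_filter] at hQ
      rw [mem_singleton]
      exact (hQ.2 ∅ h0 (empty_subset _)).symm
    have h1 := card_le_card this
    rw [card_singleton] at h1
    have : 1 ≤ R ^ w := Nat.one_le_pow _ _ (by omega)
    omega
  · calc (mins A).card ≤ ((range (w + 1)).biUnion
          (fun l => (mins A).filter (fun Q => Q.card = l))).card := by
          refine card_le_card (fun Q hQ => ?_)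
          simp only [mem_biUnion, mem_range, mem_filter]
          refine ⟨Q.card, ?_, hQ, rfl⟩
          have := (mem_allC.1 (hA (mem_filter.1 hQ).1)).2
          omega
      _ ≤ ∑ l ∈ range (w + 1), ((mins A).filter (fun Q => Q.card = l)).card :=
          card_biUnion_le
      _ ≤ ∑ l ∈ range (w + 1), R ^ l := sum_le_sum (fun l _ => level_card hsub hsun hA hcl h0 l)
      _ ≤ _ := geom_le R w hR

/-- `A` approximates `f` outside the exceptional sets. -/
def Appr (φ : Γ → V → Bool) (ψ : Ω → V → Bool) (A : Finset (Finset V)) (BP : Finset Γ)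
    (BN : Finset Ω) (f : (V → Bool) → Bool) : Prop :=
  (∀ γ, γ ∉ BP → f (φ γ) = true → ¬ Hit A (φ γ)) ∧
  (∀ ω, ω ∉ BN → ¬ Hit A (ψ ω) → f (ψ ω) = true)

theorem Appr.mono {φ : Γ → V → Bool} {ψ : Ω → V → Bool} {A : Finset (Finset V)}
    {BP BP' : Finset Γ} {BN BN' : Finset Ω} {f : (V → Bool) → Bool}
    (h : Appr φ ψ A BP BN f) (h1 : BP ⊆ BP') (h2 : BN ⊆ BN') : Appr φ ψ A BP' BN' f :=
  ⟨fun γ hγ => h.1 γ (fun h' => hγ (h1 h')), fun ω hω => h.2 ω (fun h' => hω (h2 h'))⟩

/-- `f` is approximated by a closed family. -/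
def GoodF (Cn : Finset V → Prop) (w E : ℕ) (φ : Γ → V → Bool) (ψ : Ω → V → Bool)
    (BP : Finset Γ) (BN : Finset Ω) (f : (V → Bool) → Bool) : Prop :=
  ∃ A, A ⊆ allC Cn w ∧ ClosedF Cn w E φ A ∧ Appr φ ψ A BP BN f

theorem GoodF.mono {Cn : Finset V → Prop} {w E : ℕ} {φ : Γ → V → Bool} {ψ : Ω → V → Bool}
    {BP BP' : Finset Γ} {BN BN' : Finset Ω} {f : (V → Bool) → Bool}
    (h : GoodF Cn w E φ ψ BP BN f) (h1 : BP ⊆ BP') (h2 : BN ⊆ BN') :
    GoodF Cn w E φ ψ BP' BN' f := by
  obtain ⟨A, a, b, c⟩ := h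
  exact ⟨A, a, b, c.mono h1 h2⟩

open Classical in
/-- AND gates. -/
theorem good_and {Cn : Finset V → Prop} {w E : ℕ} {φ : Γ → V → Bool} {ψ : Ω → V → Bool}
    {BP : Finset Γ} {BN : Finset Ω} {f g : (V → Bool) → Bool}
    (hf : GoodF Cn w E φ ψ BP BN f) (hg : GoodF Cn w E φ ψ BP BN g) :
    ∃ D : Finset Γ, D.card * E ≤ (allC Cn w).card * Fintype.card Γ ∧
      GoodF Cn w E φ ψ (BP ∪ D) BN (fun x => f x && g x) := by
  obtain ⟨A1, a1, b1, c1⟩ := hf
  obtain ⟨A2, a2, b2, c2⟩ := hg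
  obtain ⟨A, h1, h2, h3, h4⟩ := exists_closure Cn w E φ (A1 ∪ A2) (union_subset a1 a2)
  refine ⟨_, h4, A, h2, h3, ?_, ?_⟩
  · intro γ hγ hx
    simp only [mem_union, not_or, mem_filter, mem_univ, true_and, not_and, not_not] at hγ
    simp only [Bool.and_eq_true] at hx
    intro hhit
    obtain ⟨Q, hQ, hv⟩ := hγ.2 hhit
    rcases mem_union.1 hQ with hQ | hQ
    · exact c1.1 γ hγ.1 hx.1 ⟨Q, hQ, hv⟩
    · exact c2.1 γ hγ.1 hx.2 ⟨Q, hQ, hv⟩
  · intro ω hω hx
    simp only [Bool.and_eq_true]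
    exact ⟨c1.2 ω hω (fun h => hx (h.mono (subset_union_left.trans h1))),
      c2.2 ω hω (fun h => hx (h.mono (subset_union_right.trans h1)))⟩

open Classical in
/-- OR gates. -/
theorem good_or {Cn : Finset V → Prop} {w R B E : ℕ} {φ : Γ → V → Bool} {ψ : Ω → V → Bool}
    (hR : 2 ≤ R) (hB : 1 ≤ B)
    (hsub : ∀ Q Q' : Finset V, Cn Q → Q' ⊆ Q → Cn Q') (hsun : Sun Cn w R E φ)
    (hinc : ∀ Q : Finset V, ¬ Cn Q → ∀ ω, ∃ v ∈ Q, ψ ω v = true)
    (hneg : ∀ Q : Finset V, (univ.filter (fun ω => ∀ v ∈ Q, ψ ω v = false)).card * B ^ Q.card ≤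
      Fintype.card Ω)
    {BP : Finset Γ} {BN : Finset Ω} {f g : (V → Bool) → Bool}
    (hf : GoodF Cn w E φ ψ BP BN f) (hg : GoodF Cn w E φ ψ BP BN g) :
    ∃ (D : Finset Γ) (D' : Finset Ω), D.card * E ≤ (allC Cn w).card * Fintype.card Γ ∧
      D'.card * B ^ (w + 1) ≤ (2 * R ^ w) ^ 2 * Fintype.card Ω ∧
      GoodF Cn w E φ ψ (BP ∪ D) (BN ∪ D') (fun x => f x || g x) := by
  obtain ⟨A1, a1, b1, c1⟩ := hf
  obtain ⟨A2, a2, b2, c2⟩ := hg
  let P := ((A1 ×ˢ A2).image (fun z => z.1 ∪ z.2)).filter (fun Q => Cn Q ∧ Q.card ≤ w)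
  have hP : P ⊆ allC Cn w := by
    intro Q hQ
    exact mem_allC.2 (mem_filter.1 hQ).2
  obtain ⟨A, h1, h2, h3, h4⟩ := exists_closure Cn w E φ P hP
  let T := (mins A1 ×ˢ mins A2).filter (fun z => w < (z.1 ∪ z.2).card)
  let D' : Finset Ω := T.biUnion (fun z => univ.filter (fun ω => ∀ v ∈ z.1 ∪ z.2, ψ ω v = false))
  have hD' : D'.card * B ^ (w + 1) ≤ (2 * R ^ w) ^ 2 * Fintype.card Ω := by
    calc D'.card * B ^ (w + 1) ≤
        (∑ z ∈ T, (univ.filter (fun ω => ∀ v ∈ z.1 ∪ z.2, ψ ω v = false)).card) * B ^ (w + 1) :=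
          Nat.mul_le_mul_right _ card_biUnion_le
      _ = ∑ z ∈ T, (univ.filter (fun ω => ∀ v ∈ z.1 ∪ z.2, ψ ω v = false)).card *
            B ^ (w + 1) := by rw [sum_mul]
      _ ≤ ∑ z ∈ T, Fintype.card Ω := by
          refine sum_le_sum (fun z hz => ?_)
          refine le_trans (Nat.mul_le_mul_left _ ?_) (hneg (z.1 ∪ z.2))
          exact Nat.pow_le_pow_right hB (by
            have := (mem_filter.1 hz).2
            omega)
      _ = T.card * Fintype.card Ω := by simp
      _ ≤ _ := by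
          refine Nat.mul_le_mul_right _ ?_
          calc T.card ≤ (mins A1 ×ˢ mins A2).card := card_filter_le _ _
            _ = (mins A1).card * (mins A2).card := card_product _ _
            _ ≤ (2 * R ^ w) * (2 * R ^ w) :=
              Nat.mul_le_mul (mins_card hR hsub hsun a1 b1) (mins_card hR hsub hsun a2 b2)
            _ = _ := by ring
  refine ⟨_, D', h4, hD', A, h2, h3, ?_, ?_⟩
  · intro γ hγ hx
    simp only [mem_union, not_or, mem_filter, mem_univ, true_and, not_and, not_not] at hγ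
    simp only [Bool.or_eq_true] at hx
    intro hhit
    obtain ⟨Q, hQ, hv⟩ := hγ.2 hhit
    simp only [P, mem_filter, mem_image, mem_product] at hQ
    obtain ⟨⟨z, ⟨hz1, hz2⟩, rfl⟩, -⟩ := hQ
    rcases hx with hx | hx
    · exact c1.1 γ hγ.1 hx ⟨z.1, hz1, fun v hv' => hv v (mem_union_left _ hv')⟩
    · exact c2.1 γ hγ.1 hx ⟨z.2, hz2, fun v hv' => hv v (mem_union_right _ hv')⟩
  · intro ω hω hx
    simp only [mem_union, not_or] at hω
    by_contra hno
    simp only [Bool.or_eq_true, not_or, Bool.not_eq_true] at hno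
    have e1 : Hit A1 (ψ ω) := by
      by_contra h
      have := c1.2 ω hω.1 h
      rw [hno.1] at this
      exact Bool.noConfusion this
    have e2 : Hit A2 (ψ ω) := by
      by_contra h
      have := c2.2 ω hω.1 h
      rw [hno.2] at this
      exact Bool.noConfusion this
    obtain ⟨Q1, hQ1, hv1⟩ := e1
    obtain ⟨Q2, hQ2, hv2⟩ := e2
    obtain ⟨Q1', hQ1', hs1⟩ := exists_min hQ1
    obtain ⟨Q2', hQ2', hs2⟩ := exists_min hQ2
    have hfal : ∀ v ∈ Q1' ∪ Q2', ψ ω v = false := by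
      intro v hv
      rcases mem_union.1 hv with hv | hv
      · exact hv1 v (hs1 hv)
      · exact hv2 v (hs2 hv)
    have hcn : Cn (Q1' ∪ Q2') := by
      by_contra h
      obtain ⟨v, hv, hv'⟩ := hinc _ h ω
      rw [hfal v hv] at hv'
      exact Bool.noConfusion hv'
    by_cases hcard : (Q1' ∪ Q2').card ≤ w
    · refine hx ⟨Q1' ∪ Q2', h1 ?_, hfal⟩
      simp only [P, mem_filter, mem_image, mem_product]
      exact ⟨⟨(Q1', Q2'), ⟨(mem_filter.1 hQ1').1, (mem_filter.1 hQ2').1⟩, rfl⟩, hcn, hcard⟩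
    · refine hω.2 ?_
      simp only [D', mem_biUnion, T, mem_filter, mem_product, mem_univ, true_and]
      exact ⟨(Q1', Q2'), ⟨⟨hQ1', hQ2'⟩, not_le.1 hcard⟩, hfal⟩

open Classical in
/-- The base functions. -/
theorem good_base (Cn : Finset V → Prop) (w E : ℕ) (φ : Γ → V → Bool) (ψ : Ω → V → Bool)
    (hsing : ∀ v, Cn {v}) (hemp : Cn ∅) (hw : 1 ≤ w) :
    ∃ BP : Finset Γ, BP.card * E ≤ (Fintype.card V + 2) * ((allC Cn w).card * Fintype.card Γ) ∧
      ∀ f ∈ VB V, GoodF Cn w E φ ψ BP ∅ f := by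
  obtain ⟨A1, p1, q1, r1, s1⟩ := exists_closure Cn w E φ ∅ (empty_subset _)
  obtain ⟨A0, p0, q0, r0, s0⟩ := exists_closure Cn w E φ {∅} (by
    rw [singleton_subset_iff, mem_allC]; exact ⟨hemp, by simp⟩)
  have hv : ∀ v : V, ∃ A', {{v}} ⊆ A' ∧ A' ⊆ allC Cn w ∧ ClosedF Cn w E φ A' ∧
      (univ.filter (fun γ => Hit A' (φ γ) ∧ ¬ Hit {{v}} (φ γ))).card * E ≤
        (allC Cn w).card * Fintype.card Γ := by
    intro v
    refine exists_closure Cn w E φ {{v}} ?_
    rw [singleton_subset_iff, mem_allC]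
    exact ⟨hsing v, by simpa using hw⟩
  choose A p q r s using hv
  let D1 := univ.filter (fun γ => Hit A1 (φ γ) ∧ ¬ Hit (∅ : Finset (Finset V)) (φ γ))
  let D0 := univ.filter (fun γ => Hit A0 (φ γ) ∧ ¬ Hit ({∅} : Finset (Finset V)) (φ γ))
  let D : V → Finset Γ := fun v => univ.filter (fun γ => Hit (A v) (φ γ) ∧ ¬ Hit {{v}} (φ γ))
  refine ⟨(D1 ∪ D0) ∪ univ.biUnion D, ?_, ?_⟩
  · have h1 : ((D1 ∪ D0) ∪ univ.biUnion D).card ≤ (D1.card + D0.card) + ∑ v, (D v).card :=
      (card_union_le _ _).trans (Nat.add_le_add (card_union_le _ _) card_biUnion_le)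
    calc _ ≤ ((D1.card + D0.card) + ∑ v, (D v).card) * E := Nat.mul_le_mul_right _ h1
      _ = D1.card * E + D0.card * E + ∑ v, (D v).card * E := by
          rw [Nat.add_mul, Nat.add_mul, sum_mul]
      _ ≤ (allC Cn w).card * Fintype.card Γ + (allC Cn w).card * Fintype.card Γ +
          ∑ _v : V, (allC Cn w).card * Fintype.card Γ :=
            Nat.add_le_add (Nat.add_le_add s1 s0) (sum_le_sum (fun v _ => s v))
      _ = _ := by
          simp only [sum_const, card_univ, smul_eq_mul]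
          ring
  · rintro f (⟨b, rfl⟩ | ⟨i, rfl⟩)
    · cases b with
      | true =>
        refine ⟨A1, q1, r1, ?_, fun _ _ _ => rfl⟩
        intro γ hγ _ hhit
        simp only [mem_union, not_or, D1, mem_filter, mem_univ, true_and, not_and,
          not_not] at hγ
        obtain ⟨Q, hQ, -⟩ := hγ.1.1 hhit
        simp at hQ
      | false =>
        refine ⟨A0, q0, r0, ?_, ?_⟩
        · intro γ _ h
          exact absurd h (by simp)
        · intro ω _ hx
          exact absurd ⟨∅, p0 (by simp), by simp⟩ hx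
    · refine ⟨A i, q i, r i, ?_, ?_⟩
      · intro γ hγ hx hhit
        simp only [mem_union, not_or, mem_biUnion, mem_univ, true_and, not_exists, D,
          mem_filter, not_and, not_not] at hγ
        obtain ⟨Q, hQ, hv⟩ := hγ.2 i hhit
        rw [mem_singleton] at hQ
        subst hQ
        have := hv i (by simp)
        change φ γ i = true at hx
        rw [this] at hx
        exact Bool.noConfusion hx
      · intro ω _ hx
        by_contra h
        rw [Bool.not_eq_true] at h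
        exact hx ⟨{i}, p i (by simp), by simpa using h⟩

open Classical in
/-- **The method of approximations.** -/
theorem approx {Cn : Finset V → Prop} {w R B E : ℕ} {φ : Γ → V → Bool} {ψ : Ω → V → Bool}
    (hR : 2 ≤ R) (hB : 1 ≤ B) (hw : 1 ≤ w)
    (hsub : ∀ Q Q' : Finset V, Cn Q → Q' ⊆ Q → Cn Q') (hsing : ∀ v, Cn {v})
    (hsun : Sun Cn w R E φ)
    (hinc : ∀ Q : Finset V, ¬ Cn Q → ∀ ω, ∃ v ∈ Q, ψ ω v = true)
    (hneg : ∀ Q : Finset V, (univ.filter (fun ω => ∀ v ∈ Q, ψ ω v = false)).card * B ^ Q.card ≤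
      Fintype.card Ω) {L : List ((V → Bool) → Bool)} (hL : MProg (VB V) L) (hemp : Cn ∅) :
    ∃ (BP : Finset Γ) (BN : Finset Ω),
      BP.card * E ≤ (L.length + Fintype.card V + 2) * ((allC Cn w).card * Fintype.card Γ) ∧
      BN.card * B ^ (w + 1) ≤ L.length * ((2 * R ^ w) ^ 2 * Fintype.card Ω) ∧
      ∀ f, Av (VB V) L f → GoodF Cn w E φ ψ BP BN f := by
  induction hL with
  | nil =>
    obtain ⟨BP, h1, h2⟩ := good_base Cn w E φ ψ hsing hemp hw
    refine ⟨BP, ∅, by simpa using h1, by simp, ?_⟩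
    rintro f (hf | hf)
    · exact h2 f hf
    · simp at hf
  | @and L f g _ hf hg ih =>
    obtain ⟨BP, BN, h1, h2, h3⟩ := ih
    obtain ⟨D, d1, d2⟩ := good_and (h3 f hf) (h3 g hg)
    refine ⟨BP ∪ D, BN, ?_, ?_, ?_⟩
    · calc (BP ∪ D).card * E ≤ (BP.card + D.card) * E :=
            Nat.mul_le_mul_right _ (card_union_le _ _)
        _ = BP.card * E + D.card * E := by ring
        _ ≤ (L.length + Fintype.card V + 2) * ((allC Cn w).card * Fintype.card Γ) +
            (allC Cn w).card * Fintype.card Γ := Nat.add_le_add h1 d1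
        _ = _ := by simp only [List.length_cons]; ring
    · refine h2.trans (Nat.mul_le_mul_right _ ?_)
      simp
    · rintro k (hk | hk)
      · exact (h3 k (Or.inl hk)).mono subset_union_left (Subset.refl _)
      · rcases List.mem_cons.mp hk with rfl | hk
        · exact d2
        · exact (h3 k (Or.inr hk)).mono subset_union_left (Subset.refl _)
  | @or L f g _ hf hg ih =>
    obtain ⟨BP, BN, h1, h2, h3⟩ := ih
    obtain ⟨D, D', d1, d1', d2⟩ := good_or hR hB hsub hsun hinc hneg (h3 f hf) (h3 g hg)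
    refine ⟨BP ∪ D, BN ∪ D', ?_, ?_, ?_⟩
    · calc (BP ∪ D).card * E ≤ (BP.card + D.card) * E :=
            Nat.mul_le_mul_right _ (card_union_le _ _)
        _ = BP.card * E + D.card * E := by ring
        _ ≤ (L.length + Fintype.card V + 2) * ((allC Cn w).card * Fintype.card Γ) +
            (allC Cn w).card * Fintype.card Γ := Nat.add_le_add h1 d1
        _ = _ := by simp only [List.length_cons]; ring
    · calc (BN ∪ D').card * B ^ (w + 1) ≤ (BN.card + D'.card) * B ^ (w + 1) :=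
            Nat.mul_le_mul_right _ (card_union_le _ _)
        _ = BN.card * B ^ (w + 1) + D'.card * B ^ (w + 1) := by ring
        _ ≤ L.length * ((2 * R ^ w) ^ 2 * Fintype.card Ω) + (2 * R ^ w) ^ 2 * Fintype.card Ω :=
            Nat.add_le_add h2 d1'
        _ = _ := by simp only [List.length_cons]; ring
    · rintro k (hk | hk)
      · exact (h3 k (Or.inl hk)).mono subset_union_left subset_union_left
      · rcases List.mem_cons.mp hk with rfl | hk
        · exact d2
        · exact (h3 k (Or.inr hk)).mono subset_union_left subset_union_left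

end Approx

end Pool.Agent.H611R4
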