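import Pool.Agent.H611R4.Props2

/-!
# Project GAP, task NUM: the choice of the parameters
-/

namespace Pool.Agent.H611R4

open Filter Topology

theorem NUM_pow (e : ℕ) (he : 2 ≤ e) : e + 2 ≤ 2 ^ e := by
  induction e, he using Nat.le_induction with
  | base => norm_num
  | succ k hk ih =>
    rw [pow_succ]
    omega

theorem NUM_ev (b : ℝ) (hb : 1 < b) : ∀ᶠ n : ℕ in atTop, 5 * (n : ℝ) ≤ b ^ n := by
  have h1 := tendsto_pow_const_div_const_pow_of_one_lt 1 hb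
  have h2 : ∀ᶠ n : ℕ in atTop, (n : ℝ) ^ 1 / b ^ n < 1 / 5 :=
    h1.eventually (gt_mem_nhds (by norm_num))
  filter_upwards [h2] with n hn
  have hbn : 0 < b ^ n := by positivity
  rw [pow_one, div_lt_iff₀ hbn] at hn
  linarith

theorem NUM_lin (x y : ℝ) (hx : 0 < x) : ∀ᶠ n : ℕ in atTop, y ≤ x * (n : ℝ) := by
  obtain ⟨m, hm⟩ := exists_nat_ge (y / x)
  filter_upwards [eventually_ge_atTop m] with n hn
  have h1 : (m : ℝ) ≤ n := by exact_mod_cast hn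
  rw [div_le_iff₀ hx] at hm
  nlinarith

theorem t_NUM : S_NUM := by
  intro α δ hα hδ
  obtain ⟨p, hp⟩ : ∃ p : ℕ, (2 : ℝ) / 2 ^ p ≤ δ / 4 := by
    obtain ⟨p, hp⟩ := exists_nat_ge (8 / δ)
    refine ⟨p, ?_⟩
    have h1 : (p : ℝ) ≤ 2 ^ p := by exact_mod_cast (Nat.lt_two_pow_self (n := p)).le
    rw [div_le_iff₀ hδ] at hp
    rw [div_le_iff₀ (by positivity)]
    nlinarith
  set q : ℝ := (δ / 4) / (p + 3) with hq
  have hp3 : (0 : ℝ) < p + 3 := by positivity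
  have hq0 : 0 < q := by positivity
  have hqp : (p + 3) * q = δ / 4 := by
    rw [hq]
    field_simp
  have hb : (1 : ℝ) < (2 : ℝ) ^ (q / 8) := Real.one_lt_rpow (by norm_num) (by positivity)
  have hev : ∀ᶠ n : ℕ in atTop, 5 * (n : ℝ) ≤ ((2 : ℝ) ^ (q / 8)) ^ n ∧ 16 ≤ q * (n : ℝ) ∧
      6 ≤ (δ / 2) * (n : ℝ) ∧ 9 ≤ (3 * δ / 4) * (n : ℝ) ∧ 15 ≤ 1 * (n : ℝ) := by
    filter_upwards [NUM_ev _ hb, NUM_lin q 16 hq0, NUM_lin (δ / 2) 6 (by positivity),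
      NUM_lin (3 * δ / 4) 9 (by positivity), NUM_lin 1 15 one_pos] with n h1 h2 h3 h4 h5
    exact ⟨h1, h2, h3, h4, h5⟩
  obtain ⟨n₀, hn₀⟩ := eventually_atTop.1 hev
  refine ⟨q / 16, by positivity, n₀, fun n hn => ?_⟩
  obtain ⟨h1, h2, h3, h4, h5⟩ := hn₀ n hn
  have hn0 : (0 : ℝ) ≤ n := Nat.cast_nonneg n
  set d := ⌊q * (n : ℝ)⌋₊ with hd
  set e := d / 4 with he
  set a := ⌈α * (n : ℝ)⌉₊ with ha
  have hqn : 0 ≤ q * (n : ℝ) := by positivity
  have hd1 : (d : ℝ) ≤ q * n := Nat.floor_le hqn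
  have hd2 : q * n < (d : ℝ) + 1 := Nat.lt_floor_add_one _
  have he1 : 4 * e ≤ d := by omega
  have he2 : d ≤ 4 * e + 3 := by omega
  have he1' : 4 * (e : ℝ) ≤ d := by exact_mod_cast he1
  have he2' : (d : ℝ) ≤ 4 * e + 3 := by exact_mod_cast he2
  have he3 : (q * n - 4) / 4 ≤ (e : ℝ) := by linarith
  have he4 : (2 : ℝ) ≤ e := by linarith
  have he5 : 2 ≤ e := by exact_mod_cast he4
  have ha1 : α * (n : ℝ) ≤ a := Nat.le_ceil _
  have ha2 : (a : ℝ) < α * n + 1 := Nat.ceil_lt_add_one (by positivity)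
  refine ⟨a, p, d, e, e, by omega, ?_, by omega, NUM_pow e he5, ha1, ?_, ?_, ?_, ?_⟩
  · have e1 : (4 * n + 15) ≤ 2 ^ (2 * e) := by
      have e2 : ((2 : ℝ) ^ (q / 8)) ^ n ≤ (2 : ℝ) ^ (2 * e) := by
        rw [← Real.rpow_natCast, ← Real.rpow_mul (by norm_num), ← Real.rpow_natCast]
        apply Real.rpow_le_rpow_of_exponent_le (by norm_num)
        push_cast
        linarith
      have e3 : (4 * (n : ℝ) + 15) ≤ 2 ^ (2 * e) := by linarith
      exact_mod_cast e3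
    have e4 : (4 : ℕ) ^ e = 2 ^ (2 * e) := by
      rw [pow_mul]
      norm_num
    rw [e4]
    calc (4 * n + 15) * 2 ^ (2 * e) ≤ 2 ^ (2 * e) * 2 ^ (2 * e) := Nat.mul_le_mul_right _ e1
      _ = 2 ^ (4 * e) := by rw [← pow_add]; ring_nf
      _ ≤ 2 ^ d := Nat.pow_le_pow_right (by norm_num) he1
  · have e1 : ((n / 2 ^ p : ℕ) : ℝ) ≤ (n : ℝ) / 2 ^ p := by
      have := Nat.cast_div_le (m := n) (n := 2 ^ p) (α := ℝ)
      push_cast at this
      exact this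
    have e2 : 2 * ((n : ℝ) / 2 ^ p) = (2 / 2 ^ p) * n := by ring
    have e3 : (2 / 2 ^ p) * (n : ℝ) ≤ δ / 4 * n := mul_le_mul_of_nonneg_right hp hn0
    have e4 : ((p : ℝ) + 1) * d ≤ (p + 1) * (q * n) :=
      mul_le_mul_of_nonneg_left hd1 (by positivity)
    have e5 : ((p : ℝ) + 1) * (q * n) ≤ (p + 3) * q * n := by nlinarith
    rw [hqp] at e5
    nlinarith
  · have e1 : 3 * (q * n) ≤ (p + 3) * q * n := by
      have : (0 : ℝ) ≤ p := Nat.cast_nonneg p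
      nlinarith [mul_nonneg this hqn]
    rw [hqp] at e1
    nlinarith
  · nlinarith
  · have e1 : (1 : ℝ) ≤ (2 : ℝ) ^ (q / 16 * n) :=
      Real.one_le_rpow (by norm_num) (by positivity)
    have e2 : (2 : ℝ) ^ (q / 16 * n + 1) = 2 ^ (q / 16 * n) * 2 := by
      rw [Real.rpow_add (by norm_num), Real.rpow_one]
    have e3 : (2 : ℝ) ^ (q / 16 * n + 1) ≤ (2 : ℝ) ^ e := by
      rw [← Real.rpow_natCast 2 e]
      apply Real.rpow_le_rpow_of_exponent_le (by norm_num)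
      nlinarith
    linarith

end Pool.Agent.H611R4
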