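import Pool.Agent.H611R4.Inst
import Pool.Agent.H611R4.TNUM

/-!
# Partial MCSP and Partial MBPSP, asymptotic form
-/

set_option linter.unusedSectionVars false

namespace Pool.Agent.H611R4

open Finset Pool.Agent.H520R2 Pool.Agent.H520R2.NM Pool.Agent.H611R3

theorem asym (α δ : ℝ) (hα : 0 ≤ α) (hδ : 0 < δ) (hαδ : α + δ ≤ 1) :
    ∃ c : ℝ, 0 < c ∧ ∃ n₀ : ℕ, ∀ n : ℕ, n₀ ≤ n → ∃ a p d e u : ℕ,
      1 ≤ e ∧ (4 * n + 15) * 4 ^ e ≤ 2 ^ d ∧ u ≤ d ∧ u + 2 ≤ 2 ^ e ∧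
      (∀ s₀ : ℕ, (2 : ℝ) ^ ((α + δ) * n) ≤ s₀ →
        2 ^ (a + (p + 1) * d + 2 * (n / 2 ^ p) + 5) ≤ s₀) ∧
      (∀ s₁ : ℕ, (s₁ : ℝ) ≤ (2 : ℝ) ^ ((1 - α - δ) * n) →
        (s₁ + 1) * 2 ^ (a + 3 * d + 7) ≤ 2 ^ n) ∧
      (∀ K : ℕ, (K : ℝ) ≤ (2 : ℝ) ^ (α * n) → K ≤ 2 ^ a) ∧
      ((1 : ℝ) / 2 ^ u ≤ 1 / (2 : ℝ) ^ (c * n)) ∧
      (∀ s : ℕ, 2 ^ 2 ^ e < 2 * s → (2 : ℝ) ^ ((2 : ℝ) ^ (c * n)) < s) := by
  obtain ⟨c, hc, n₀, H⟩ := t_NUM α δ hα hδ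
  refine ⟨c, hc, n₀, fun n hn => ?_⟩
  obtain ⟨a, p, d, e, u, h1, h2, h3, h4, h5, h6, h7, h8, h9⟩ := H n hn
  refine ⟨a, p, d, e, u, h1, h2, h3, h4, ?_, ?_, ?_, ?_, ?_⟩
  · intro s₀ hs₀
    have : ((2 ^ (a + (p + 1) * d + 2 * (n / 2 ^ p) + 5) : ℕ) : ℝ) ≤ s₀ := by
      refine le_trans ?_ hs₀
      rw [Nat.cast_pow, Nat.cast_ofNat, ← Real.rpow_natCast]
      refine Real.rpow_le_rpow_of_exponent_le (by norm_num) ?_
      have e1 : ((a + (p + 1) * d + 2 * (n / 2 ^ p) + 5 : ℕ) : ℝ) =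
          (a : ℝ) + (p + 1) * d + 2 * ((n / 2 ^ p : ℕ) : ℝ) + 5 := by
        rw [Nat.cast_add, Nat.cast_add, Nat.cast_add, Nat.cast_mul, Nat.cast_mul, Nat.cast_add,
          Nat.cast_one, Nat.cast_ofNat, Nat.cast_ofNat]
      rw [e1]
      exact h6
    exact_mod_cast this
  · intro s₁ hs₁
    have hx : (1 : ℝ) ≤ (2 : ℝ) ^ ((1 - α - δ) * n) := by
      refine Real.one_le_rpow (by norm_num) ?_
      exact mul_nonneg (by linarith) (by positivity)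
    have : (((s₁ + 1) * 2 ^ (a + 3 * d + 7) : ℕ) : ℝ) ≤ ((2 ^ n : ℕ) : ℝ) := by
      push_cast
      calc ((s₁ : ℝ) + 1) * 2 ^ (a + 3 * d + 7)
          ≤ (2 * (2 : ℝ) ^ ((1 - α - δ) * n)) * 2 ^ (a + 3 * d + 7) := by
            refine mul_le_mul_of_nonneg_right ?_ (by positivity)
            linarith
        _ = (2 : ℝ) ^ ((1 - α - δ) * n + 1 + a + 3 * d + 7) := by
            rw [show (1 - α - δ) * (n : ℝ) + 1 + a + 3 * d + 7 =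
              1 + (1 - α - δ) * n + ((a + 3 * d + 7 : ℕ) : ℝ) by push_cast; ring,
              Real.rpow_add (by norm_num), Real.rpow_add (by norm_num), Real.rpow_natCast,
              Real.rpow_one]
        _ ≤ (2 : ℝ) ^ (n : ℝ) := Real.rpow_le_rpow_of_exponent_le (by norm_num) h7
        _ = 2 ^ n := Real.rpow_natCast _ _
    exact_mod_cast this
  · intro K hK
    have : (K : ℝ) ≤ ((2 ^ a : ℕ) : ℝ) := by
      refine hK.trans ?_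
      rw [Nat.cast_pow, Nat.cast_ofNat, ← Real.rpow_natCast]
      exact Real.rpow_le_rpow_of_exponent_le (by norm_num) h5
    exact_mod_cast this
  · refine one_div_le_one_div_of_le (by positivity) ?_
    rw [← Real.rpow_natCast]
    exact Real.rpow_le_rpow_of_exponent_le (by norm_num) h8
  · intro s hs
    have h10 : (2 : ℝ) * (2 : ℝ) ^ ((2 : ℝ) ^ (c * n)) ≤ ((2 ^ 2 ^ e : ℕ) : ℝ) := by
      calc (2 : ℝ) * (2 : ℝ) ^ ((2 : ℝ) ^ (c * n)) = (2 : ℝ) ^ ((2 : ℝ) ^ (c * n) + 1) := by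
            rw [Real.rpow_add (by norm_num), Real.rpow_one]; ring
        _ ≤ (2 : ℝ) ^ (((2 ^ e : ℕ) : ℝ)) := by
            refine Real.rpow_le_rpow_of_exponent_le (by norm_num) ?_
            push_cast
            exact h9
        _ = ((2 ^ 2 ^ e : ℕ) : ℝ) := by
            rw [Real.rpow_natCast]; push_cast; rfl
    have h11 : ((2 ^ 2 ^ e : ℕ) : ℝ) < ((2 * s : ℕ) : ℝ) := by exact_mod_cast hs
    push_cast at h11
    have h12 := h10.trans (by push_cast; exact le_refl _)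
    push_cast at h12
    linarith

open Classical in
theorem mcsp_asym (α δ : ℝ) (hα : 0 ≤ α) (hδ : 0 < δ) (hαδ : α + δ ≤ 1) :
    ∃ c : ℝ, 0 < c ∧ ∃ n₀ : ℕ, ∀ n : ℕ, n₀ ≤ n → ∀ s₀ s₁ : ℕ,
      (2 : ℝ) ^ ((α + δ) * n) ≤ s₀ → (s₁ : ℝ) ≤ 2 ^ ((1 - α - δ) * n) →
      ∀ (Z : Type) [Fintype Z] [Nonempty Z] (s K : ℕ)
        (f : Z → ((Fin n → Bool) × Bool → Bool) → Bool) (p₀ p₁ : ℝ),
        Helped s K f → (K : ℝ) ≤ 2 ^ (α * n) → p₀ + 1 / (2 : ℝ) ^ (c * n) ≤ p₁ →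
        (∀ T, H589R2.PartialMCSP n s₀ T → p₁ * Fintype.card Z ≤
          ((univ.filter (fun z => f z (H589R2.allowed T) = true)).card : ℝ)) →
        (∀ T, ¬ H589R2.PartialMCSP n s₁ T →
          ((univ.filter (fun z => f z (H589R2.allowed T) = true)).card : ℝ) ≤
            p₀ * Fintype.card Z) →
        (2 : ℝ) ^ ((2 : ℝ) ^ (c * n)) < s := by
  obtain ⟨c, hc, n₀, H⟩ := asym α δ hα hδ hαδ
  refine ⟨c, hc, n₀, fun n hn s₀ s₁ hs₀ hs₁ Z _ _ s K f p₀ p₁ hf hK hp hT hF => ?_⟩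
  obtain ⟨a, p, d, e, u, h1, h2, h3, h4, h5, h6, h7, h8, h9⟩ := H n hn
  have hpd : p * d ≤ (p + 1) * d := Nat.mul_le_mul_right _ (by omega)
  have hle : a + p * d + 2 * (n / 2 ^ p) + 4 ≤ a + (p + 1) * d + 2 * (n / 2 ^ p) + 5 := by
    omega
  exact h9 s (mcsp_param (p := p) h1 h2 h3 h4 (le_trans (Nat.pow_le_pow_right (by norm_num) hle)
    (h5 s₀ hs₀)) (h6 s₁ hs₁) f hf (h7 K hK) p₀ p₁ (by linarith) hT hF)

open Classical in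
theorem mbpsp_asym (α δ : ℝ) (hα : 0 ≤ α) (hδ : 0 < δ) (hαδ : α + δ ≤ 1) :
    ∃ c : ℝ, 0 < c ∧ ∃ n₀ : ℕ, ∀ n : ℕ, n₀ ≤ n → ∀ s₀ s₁ : ℕ,
      (2 : ℝ) ^ ((α + δ) * n) ≤ s₀ → (s₁ : ℝ) ≤ 2 ^ ((1 - α - δ) * n) →
      ∀ (Z : Type) [Fintype Z] [Nonempty Z] (s K : ℕ)
        (f : Z → ((Fin n → Bool) × Bool → Bool) → Bool) (p₀ p₁ : ℝ),
        Helped s K f → (K : ℝ) ≤ 2 ^ (α * n) → p₀ + 1 / (2 : ℝ) ^ (c * n) ≤ p₁ →
        (∀ T, H589R2.PartialMBPSP n s₀ T → p₁ * Fintype.card Z ≤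
          ((univ.filter (fun z => f z (H589R2.allowed T) = true)).card : ℝ)) →
        (∀ T, ¬ H589R2.PartialMBPSP n s₁ T →
          ((univ.filter (fun z => f z (H589R2.allowed T) = true)).card : ℝ) ≤
            p₀ * Fintype.card Z) →
        (2 : ℝ) ^ ((2 : ℝ) ^ (c * n)) < s := by
  obtain ⟨c, hc, n₀, H⟩ := asym α δ hα hδ hαδ
  refine ⟨c, hc, n₀, fun n hn s₀ s₁ hs₀ hs₁ Z _ _ s K f p₀ p₁ hf hK hp hT hF => ?_⟩
  obtain ⟨a, p, d, e, u, h1, h2, h3, h4, h5, h6, h7, h8, h9⟩ := H n hn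
  exact h9 s (mbpsp_param h1 h2 h3 h4 (h5 s₀ hs₀) (h6 s₁ hs₁) f hf (h7 K hK) p₀ p₁
    (by linarith) hT hF)

end Pool.Agent.H611R4
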