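import Pool.Agent.H611R4.Props

/-!
# NEG2: random sparse tables are hard
-/

namespace Pool.Agent.H611R4

open Finset

theorem NEG2_bern (B : ℕ) (hB : 2 ≤ B) : 2 * (B - 1) ^ B ≤ B ^ B := by
  obtain ⟨c, rfl⟩ : ∃ c, B = c + 1 := ⟨B - 1, by omega⟩
  have hc : 1 ≤ c := by omega
  simp only [Nat.add_sub_cancel]
  -- `(c+1)^(c+1) ≥ c^(c+1) + (c+1) c^c ≥ 2 c^(c+1)`
  have h1 : c ^ (c + 1) + (c + 1) * c ^ c ≤ (c + 1) ^ (c + 1) := by
    have h2 : ∀ n : ℕ, c ^ n * c + n * c ^ n ≤ (c + 1) ^ n * c := by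
      intro n
      induction n with
      | zero => simp
      | succ n ih =>
        have h3 : c ^ n ≤ (c + 1) ^ n := Nat.pow_le_pow_left (by omega) n
        rw [pow_succ, pow_succ]
        nlinarith [Nat.mul_le_mul_right (c + 1) ih]
    have h4 := h2 (c + 1)
    have h5 : c ^ (c + 1) + (c + 1) * c ^ c ≤ (c + 1) ^ (c + 1) := by
      have h6 : (c ^ (c + 1) + (c + 1) * c ^ c) * c ≤ (c + 1) ^ (c + 1) * c := by
        calc (c ^ (c + 1) + (c + 1) * c ^ c) * c = c ^ (c + 1) * c + (c + 1) * c ^ (c + 1) := by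
              rw [pow_succ]; ring
          _ ≤ _ := h4
      exact Nat.le_of_mul_le_mul_right h6 (by omega)
    exact h5
  have h2 : c ^ (c + 1) ≤ (c + 1) * c ^ c := by
    rw [pow_succ]
    nlinarith [Nat.pow_pos (n := c) (show 0 < c by omega)]
  omega

theorem NEG2_num (B L N : ℕ) (hB : 2 ≤ B) (hN : (L + 2) * B ≤ N) :
    4 * (2 ^ L * (B - 1) ^ N) ≤ B ^ N := by
  obtain ⟨r, rfl⟩ := Nat.exists_eq_add_of_le hN
  have h1 : (2 * (B - 1) ^ B) ^ (L + 2) ≤ (B ^ B) ^ (L + 2) :=
    Nat.pow_le_pow_left (NEG2_bern B hB) _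
  have h2 : (B - 1) ^ r ≤ B ^ r := Nat.pow_le_pow_left (by omega) r
  calc 4 * (2 ^ L * (B - 1) ^ ((L + 2) * B + r))
      = (2 * (B - 1) ^ B) ^ (L + 2) * (B - 1) ^ r := by
        rw [mul_pow, ← pow_mul, pow_add, pow_add, mul_comm B (L + 2)]
        ring
    _ ≤ (B ^ B) ^ (L + 2) * B ^ r := Nat.mul_le_mul h1 h2
    _ = B ^ ((L + 2) * B + r) := by rw [← pow_mul, pow_add, mul_comm B (L + 2)]

theorem NEG2_count {X : Type} [Fintype X] [DecidableEq X] (B : ℕ) (hB : 2 ≤ B) (F : X → Bool) :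
    (univ.filter (fun ζ : X → Fin B => ∀ x b, negT B ζ x = some b → F x = b)).card ≤
      (B - 1) ^ Fintype.card X := by
  classical
  have hsub : univ.filter (fun ζ : X → Fin B => ∀ x b, negT B ζ x = some b → F x = b) ⊆
      Fintype.piFinset (fun x => univ.erase (if F x = true then (⟨1, by omega⟩ : Fin B)
        else ⟨0, by omega⟩)) := by
    intro ζ hζ
    rw [mem_filter] at hζ
    rw [Fintype.mem_piFinset]
    intro x
    rw [mem_erase]
    refine ⟨?_, mem_univ _⟩
    intro h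
    by_cases hF : F x = true
    · rw [if_pos hF] at h
      have h1 : negT B ζ x = some false := by
        unfold negT
        rw [h]
        simp
      have := hζ.2 x false h1
      rw [hF] at this
      exact absurd this (by decide)
    · rw [if_neg hF] at h
      have h1 : negT B ζ x = some true := by
        unfold negT
        rw [h]
        simp
      exact hF (hζ.2 x true h1)
  refine (card_le_card hsub).trans (le_of_eq ?_)
  rw [Fintype.card_piFinset]
  simp [card_erase_of_mem, card_univ]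

theorem t_NEG2 : S_NEG2 := by
  classical
  intro X _ _ B L 𝒞 hB h𝒞 hN
  have h1 : (univ.filter (fun ζ : X → Fin B => ∃ F ∈ 𝒞, ∀ x b, negT B ζ x = some b →
      F x = b)).card ≤ 2 ^ L * (B - 1) ^ Fintype.card X := by
    calc (univ.filter (fun ζ : X → Fin B => ∃ F ∈ 𝒞, ∀ x b, negT B ζ x = some b →
          F x = b)).card
        ≤ (𝒞.biUnion fun F => univ.filter
          (fun ζ : X → Fin B => ∀ x b, negT B ζ x = some b → F x = b)).card := by
          apply card_le_card
          intro ζ hζ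
          rw [mem_filter] at hζ
          obtain ⟨F, hF, h⟩ := hζ.2
          rw [mem_biUnion]
          exact ⟨F, hF, mem_filter.2 ⟨mem_univ _, h⟩⟩
      _ ≤ ∑ F ∈ 𝒞, (univ.filter
          (fun ζ : X → Fin B => ∀ x b, negT B ζ x = some b → F x = b)).card := card_biUnion_le
      _ ≤ ∑ F ∈ 𝒞, (B - 1) ^ Fintype.card X := sum_le_sum fun F _ => NEG2_count B hB F
      _ = 𝒞.card * (B - 1) ^ Fintype.card X := by rw [sum_const, smul_eq_mul]
      _ ≤ 2 ^ L * (B - 1) ^ Fintype.card X := Nat.mul_le_mul_right _ h𝒞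
  exact (Nat.mul_le_mul_left 4 h1).trans (NEG2_num B L _ hB hN)

end Pool.Agent.H611R4
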