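import Pool.Agent.H611R4.Props

/-! # RMI: Reed-Muller functions of degree `d` are `2 ^ d`-wise independent (helper781) -/

namespace Pool.Agent.H611R4

open Finset

theorem t_RMI : S_RMI := by
  classical
  intro n d Y _ e _ he Q hQ hcard
  -- the points
  obtain ⟨S, hS⟩ : ∃ S : Finset Y, S = Q.image Prod.fst := ⟨_, rfl⟩
  have hSc : S.card = Q.card := by
    rw [hS]
    refine Finset.card_image_of_injOn ?_
    rintro ⟨y, b⟩ h1 ⟨y', b'⟩ h2 h
    simp only at h
    subst h
    have h1' : (y, b) ∈ Q := h1
    have h2' : (y, b') ∈ Q := h2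
    cases b <;> cases b'
    · rfl
    · exact absurd ⟨h2', h1'⟩ (hQ y)
    · exact absurd ⟨h1', h2'⟩ (hQ y)
    · rfl
  obtain ⟨T₀, hT₀⟩ : ∃ T₀ : Finset Y, T₀ = S.filter (fun y => (y, false) ∈ Q) := ⟨_, rfl⟩
  obtain ⟨ρ, hρ⟩ : ∃ ρ : ↥(H589R2.RM n n d) → Finset Y,
    ρ = fun g => S.filter (fun y => g.1 (e y) = true) := ⟨_, rfl⟩
  have hρmem : ∀ g y, y ∈ ρ g ↔ y ∈ S ∧ g.1 (e y) = true := by
    intro g y
    rw [hρ]
    simp
  have hfib : (univ.filter (fun γ : ↥(H589R2.RM n n d) =>
      ∀ v ∈ Q, tot (fun y : Y => γ.1 (e y)) v = false)) = univ.filter (fun γ => ρ γ = T₀) := by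
    ext γ
    simp only [Finset.mem_filter, Finset.mem_univ, true_and]
    constructor
    · intro h
      ext y
      rw [hρmem, hT₀, Finset.mem_filter]
      refine and_congr_right fun hy => ?_
      rw [hS, Finset.mem_image] at hy
      obtain ⟨⟨y', b⟩, h1, h2⟩ := hy
      simp only at h2
      subst h2
      have h3 := h _ h1
      unfold tot at h3
      simp only [decide_eq_false_iff_not] at h3
      cases b
      · simp only [Bool.not_eq_false] at h3
        exact ⟨fun _ => h1, fun _ => h3⟩
      · constructor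
        · intro h4; exact absurd h4 h3
        · intro h4; exact absurd ⟨h1, h4⟩ (hQ y')
    · intro h
      rintro ⟨y, b⟩ hv
      have hy : y ∈ S := by
        rw [hS]
        exact Finset.mem_image_of_mem Prod.fst hv
      have h1 : y ∈ ρ γ ↔ y ∈ T₀ := by rw [h]
      rw [hρmem, hT₀, Finset.mem_filter] at h1
      unfold tot
      simp only [decide_eq_false_iff_not]
      intro h2
      cases b
      · have h3 := (h1.2 ⟨hy, hv⟩).2
        rw [h2] at h3
        exact absurd h3 (by decide)
      · exact hQ y ⟨hv, (h1.1 ⟨hy, h2⟩).2⟩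
  have hsame : ∀ T ∈ S.powerset, (univ.filter (fun γ => ρ γ = T)).card =
      (univ.filter (fun γ => ρ γ = T₀)).card := by
    intro T hT
    rw [Finset.mem_powerset] at hT
    have hcardA : (S.image e).card ≤ 2 ^ d := by
      refine Finset.card_image_le.trans ?_
      rw [hSc]
      exact hcard
    obtain ⟨q, hq, hq'⟩ := H589R2.RM_interp_all n d (S.image e) hcardA
      (fun x => xor (decide (∃ y, e y = x ∧ y ∈ T)) (decide (∃ y, e y = x ∧ y ∈ T₀)))
    have hqy : ∀ y ∈ S, q (e y) = xor (decide (y ∈ T)) (decide (y ∈ T₀)) := by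
      intro y hy
      rw [hq' _ (Finset.mem_image_of_mem e hy)]
      have e1 : ∀ U : Finset Y, (∃ y', e y' = e y ∧ y' ∈ U) ↔ y ∈ U := by
        intro U
        constructor
        · rintro ⟨y', h1, h2⟩
          rwa [← he h1]
        · intro h; exact ⟨y, rfl, h⟩
      simp only [e1]
    let tr : ↥(H589R2.RM n n d) → ↥(H589R2.RM n n d) := fun g =>
      ⟨fun x => xor (g.1 x) (q x), H589R2.RM_xor n n d g.1 q g.2 hq⟩
    have htr : ∀ g, tr (tr g) = g := by
      intro g
      apply Subtype.ext
      funext x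
      show xor (xor (g.1 x) (q x)) (q x) = g.1 x
      cases g.1 x <;> cases q x <;> rfl
    have hT₀S : T₀ ⊆ S := by rw [hT₀]; exact Finset.filter_subset _ _
    have hmove : ∀ (U U' : Finset Y), U ⊆ S → U' ⊆ S →
        (∀ y ∈ S, q (e y) = xor (decide (y ∈ U)) (decide (y ∈ U'))) →
        ∀ g, ρ g = U → ρ (tr g) = U' := by
      intro U U' hU hU' hqq g hg
      ext y
      rw [hρmem]
      have h1 : y ∈ ρ g ↔ y ∈ U := by rw [hg]
      rw [hρmem] at h1
      constructor
      · rintro ⟨hy, h2⟩
        have h2' : xor (g.1 (e y)) (q (e y)) = true := h2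
        rw [hqq y hy] at h2'
        by_contra h3
        by_cases h4 : y ∈ U
        · rw [(h1.2 h4).2] at h2'
          simp [h3, h4] at h2'
        · have h5 : g.1 (e y) ≠ true := fun h => h4 (h1.1 ⟨hy, h⟩)
          simp only [Bool.not_eq_true] at h5
          rw [h5] at h2'
          simp [h3, h4] at h2'
      · intro h3
        have hy := hU' h3
        refine ⟨hy, ?_⟩
        show xor (g.1 (e y)) (q (e y)) = true
        rw [hqq y hy]
        by_cases h4 : y ∈ U
        · rw [(h1.2 h4).2]
          simp [h3, h4]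
        · have h5 : g.1 (e y) ≠ true := fun h => h4 (h1.1 ⟨hy, h⟩)
          simp only [Bool.not_eq_true] at h5
          rw [h5]
          simp [h3, h4]
    refine Finset.card_bij' (fun g _ => tr g) (fun g _ => tr g) ?_ ?_ ?_ ?_
    · intro g hg
      simp only [Finset.mem_filter, Finset.mem_univ, true_and] at hg ⊢
      exact hmove T T₀ hT hT₀S hqy g hg
    · intro g hg
      simp only [Finset.mem_filter, Finset.mem_univ, true_and] at hg ⊢
      exact hmove T₀ T hT₀S hT (fun y hy => by rw [hqy y hy, Bool.xor_comm]) g hg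
    · intro g _; exact htr g
    · intro g _; exact htr g
  have hsum : (univ : Finset ↥(H589R2.RM n n d)).card =
      ∑ T ∈ S.powerset, (univ.filter (fun γ => ρ γ = T)).card := by
    refine Finset.card_eq_sum_card_fiberwise ?_
    intro g _
    simp only [Finset.coe_powerset, Set.mem_preimage, Set.mem_powerset_iff, Finset.coe_subset]
    rw [hρ]
    exact Finset.filter_subset _ _
  have hfin : (univ.filter (fun γ : ↥(H589R2.RM n n d) =>
      ∀ v ∈ Q, tot (fun y : Y => γ.1 (e y)) v = false)).card * 2 ^ Q.card =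
      Fintype.card ↥(H589R2.RM n n d) := by
    rw [hfib, ← Finset.card_univ, hsum, Finset.sum_congr rfl hsame, Finset.sum_const,
      Finset.card_powerset, hSc, smul_eq_mul, mul_comm]
  convert hfin using 1

end Pool.Agent.H611R4
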