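import Pool.Agent.H611R4.OneBlock
import Pool.Agent.H611R4.TransferP
import Pool.Agent.H611R4.TNEG2
import Pool.Agent.H611R4.TRMI
import Pool.Agent.H589R2.Assemble

/-!
# Many blocks
-/

set_option linter.unusedSectionVars false

namespace Pool.Agent.H611R4

open Finset Pool.Agent.H520R2 Pool.Agent.H520R2.NM Pool.Agent.H611R3

/-- A total assignment of the bits in which every point has an allowed value encodes a partial
table. -/
theorem exists_table {X : Type} (x : X × Bool → Bool)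
    (h : ∀ z, x (z, true) = true ∨ x (z, false) = true) :
    ∃ T : X → Option Bool, H589R2.allowed T = x := by
  refine ⟨fun z => if x (z, true) = true ∧ x (z, false) = true then none
    else some (x (z, true)), ?_⟩
  funext v
  obtain ⟨z, b⟩ := v
  simp only [H589R2.allowed]
  rcases Bool.eq_false_or_eq_true (x (z, true)) with h1 | h1 <;>
    rcases Bool.eq_false_or_eq_true (x (z, false)) with h2 | h2
  · cases b <;> simp [h1, h2]
  · cases b <;> simp [h1, h2]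
  · cases b <;> simp [h1, h2]
  · rcases h z with h | h
    · rw [h1] at h; exact Bool.noConfusion h
    · rw [h2] at h; exact Bool.noConfusion h

theorem num_aux (n w β : ℕ) (hβ : β ≤ n) (hw : 2 ≤ w) :
    2 ^ w * ((2 ^ w + 2 ^ (β + 1) + 2) * (2 ^ (β + 1) + 1) ^ w) < 2 ^ ((2 * n + 7) * w) := by
  have h1 : 2 ^ (β + 1) ≤ 2 ^ (n + 1) := Nat.pow_le_pow_right (by norm_num) (by omega)
  have h2 : 2 ^ (β + 1) + 1 ≤ 2 ^ (n + 2) := by
    have e1 : 2 ^ (n + 2) = 2 * 2 ^ (n + 1) := by ring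
    have e2 : 1 ≤ 2 ^ (n + 1) := Nat.one_le_two_pow
    rw [e1]
    linarith
  have h3 : 2 ^ w + 2 ^ (β + 1) + 2 ≤ 2 ^ (w + n + 3) := by
    have e1 : 2 ^ w ≤ 2 ^ (w + n + 1) := Nat.pow_le_pow_right (by norm_num) (by omega)
    have e2 : 2 ^ (n + 1) ≤ 2 ^ (w + n + 1) := Nat.pow_le_pow_right (by norm_num) (by omega)
    have e3 : 2 ≤ 2 ^ (w + n + 1) := by
      calc 2 = 2 ^ 1 := by norm_num
        _ ≤ _ := Nat.pow_le_pow_right (by norm_num) (by omega)
    have e4 : 2 ^ (w + n + 3) = 4 * 2 ^ (w + n + 1) := by ring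
    rw [e4]
    linarith
  calc 2 ^ w * ((2 ^ w + 2 ^ (β + 1) + 2) * (2 ^ (β + 1) + 1) ^ w)
      ≤ 2 ^ w * (2 ^ (w + n + 3) * (2 ^ (n + 2)) ^ w) := by gcongr
    _ = 2 ^ (w + (w + n + 3) + (n + 2) * w) := by
        rw [← pow_mul, ← pow_add, ← pow_add]; ring_nf
    _ < 2 ^ ((2 * n + 7) * w) := by
        refine Nat.pow_lt_pow_right (by norm_num) ?_
        nlinarith

theorem num_params {n d e : ℕ} (he : 1 ≤ e) (hde : (4 * n + 15) * 4 ^ e ≤ 2 ^ d)
    {β : ℕ} (hβ : β ≤ n) :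
    Params (Fin β → Bool) (2 ^ d) (2 ^ e) ((2 * n + 7) * 2 ^ e) (2 ^ (d + 2)) (2 ^ (2 * d + 7))
      (2 ^ 2 ^ e) := by
  have h4 : (4 : ℕ) ^ e = 2 ^ e * 2 ^ e := by
    rw [← mul_pow]; norm_num
  refine ⟨?_, ?_, ?_, ?_, ?_, ?_⟩
  · calc 2 = 2 ^ 1 := by norm_num
      _ ≤ 2 ^ e := Nat.pow_le_pow_right (by norm_num) he
  · have : 1 ≤ 2 ^ e := Nat.one_le_two_pow
    nlinarith
  · calc 8 * ((2 * n + 7) * 2 ^ e) * 2 ^ e = 4 * ((4 * n + 14) * 4 ^ e) := by rw [h4]; ring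
      _ ≤ 4 * ((4 * n + 15) * 4 ^ e) := by gcongr; omega
      _ ≤ 4 * 2 ^ d := Nat.mul_le_mul_left _ hde
      _ = 2 ^ (d + 2) := by rw [pow_add]; ring
  · calc 2 ^ e + 2 * 2 ^ e * ((2 * n + 7) * 2 ^ e) = 2 ^ e + (4 * n + 14) * 4 ^ e := by
          rw [h4]; ring
      _ ≤ 4 ^ e + (4 * n + 14) * 4 ^ e := by
          gcongr; norm_num
      _ = (4 * n + 15) * 4 ^ e := by ring
      _ ≤ 2 ^ d := hde
  · rw [← pow_mul, show (8 : ℕ) = 2 ^ 3 by norm_num, ← pow_add]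
    exact Nat.pow_le_pow_right (by norm_num) (by omega)
  · have hcard : Fintype.card ((Fin β → Bool) × Bool) = 2 ^ (β + 1) := by
      simp [pow_succ]
    rw [hcard]
    refine num_aux n (2 ^ e) β hβ ?_
    calc 2 = 2 ^ 1 := by norm_num
      _ ≤ 2 ^ e := Nat.pow_le_pow_right (by norm_num) he

end Pool.Agent.H611R4
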