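import Pool.Agent.H611R4.Props

/-!
# Project GAP, task COSTB: branching programs for piecewise Reed-Muller functions
-/

namespace Pool.Agent.H611R4

open H589R2

theorem COSTB_mux {n i : ℕ} (hi : i < n) {f g : Fn n} {t1 t2 : ℕ} (hf : BCost f t1)
    (hg : BCost g t2) :
    BCost (fun x => if co n i x then f x else g x) (t1 + t2 + 1) := by
  intro k B h1 h0 m1 m0
  obtain ⟨k1, hk1, B1, a1, b1⟩ := hf k B h1 h0 m1 m0
  obtain ⟨k2, hk2, B2, a2, b2⟩ := hg k1 B1 h1 h0 (a1 m1) (a1 m0)
  obtain ⟨B3, a3, b3⟩ := B2.av_node hi (a2 b1) b2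
  refine ⟨k2 + 1, by omega, B3, (a1.trans a2).trans a3, ?_⟩
  have : (fun x => if (if co n i x = true then f x else g x) = true then h1 x else h0 x) =
      fun x => if co n i x = true then (if f x = true then h1 x else h0 x)
        else (if g x = true then h1 x else h0 x) := by
    funext x
    cases co n i x <;> rfl
  rw [this]
  exact b3

theorem COSTB_aux (n d : ℕ) : ∀ a, a ≤ n → ∀ g : (Fin n → Bool) → Fn n,
    (∀ x, g x ∈ RM n n d) → (∀ x y, (∀ j < a, co n j x = co n j y) → g x = g y) →
    BCost (fun x => g x x) (2 ^ a * rb n d + (2 ^ a - 1)) := by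
  intro a
  induction a with
  | zero =>
    intro _ g hg hc
    have h : (fun x => g x x) = g (fun _ => false) := by
      funext x
      rw [hc x (fun _ => false) (fun j hj => absurd hj (Nat.not_lt_zero _))]
    rw [h]
    refine (BCost.RM n d le_rfl _ (hg _)).mono ?_
    simp
  | succ a ih =>
    intro ha g hg hc
    have ha' : a < n := ha
    have key : ∀ b : Bool, BCost (fun x => g (Function.update x ⟨a, ha'⟩ b) x)
        (2 ^ a * rb n d + (2 ^ a - 1)) := by
      intro b
      refine ih (by omega) (fun x => g (Function.update x ⟨a, ha'⟩ b)) (fun x => hg _) ?_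
      intro x y hxy
      refine hc _ _ ?_
      intro j hj
      by_cases hja : j = a
      · subst hja
        simp [co, ha']
      · have hja' : j < a := by omega
        have hjn : j < n := by omega
        have h1 := hxy j hja'
        have hne : (⟨j, hjn⟩ : Fin n) ≠ ⟨a, ha'⟩ := fun h => hja (Fin.mk.inj_iff.1 h)
        simpa [co, hjn, Function.update_of_ne hne] using h1
    have h := COSTB_mux ha' (key true) (key false)
    have heq : (fun x => g x x) = fun x => if co n a x = true then
        g (Function.update x ⟨a, ha'⟩ true) x else g (Function.update x ⟨a, ha'⟩ false) x := by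
      funext x
      by_cases hx : x ⟨a, ha'⟩ = true
      · have hu : Function.update x ⟨a, ha'⟩ true = x := by
          rw [← hx, Function.update_eq_self]
        have hco : co n a x = true := by simp [co, ha', hx]
        rw [if_pos hco, hu]
      · simp only [Bool.not_eq_true] at hx
        have hu : Function.update x ⟨a, ha'⟩ false = x := by
          rw [← hx, Function.update_eq_self]
        have hco : ¬ co n a x = true := by simp [co, ha', hx]
        rw [if_neg hco, hu]
    rw [heq]
    refine h.mono ?_
    have h2 : 1 ≤ 2 ^ a := Nat.one_le_two_pow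
    have h3 : 2 ^ (a + 1) * rb n d = 2 ^ a * rb n d + 2 ^ a * rb n d := by ring
    have h4 : 2 ^ (a + 1) = 2 ^ a + 2 ^ a := by ring
    omega

theorem t_COSTB : S_COSTB := by
  intro n d a g ha hg hc
  refine (COSTB_aux n d a ha g hg hc).mono ?_
  have h : 2 ^ a * (rb n d + 1) = 2 ^ a * rb n d + 2 ^ a := by ring
  have h2 : 1 ≤ 2 ^ a := Nat.one_le_two_pow
  omega

end Pool.Agent.H611R4
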