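import Pool.Agent.H611R4.Props

/-!
# COSTC: circuits for piecewise Reed-Muller functions
-/

namespace Pool.Agent.H611R4

open Pool.Agent.H589R2

theorem COSTC_co_update (n a : ℕ) (h : a < n) (c : Bool) (x : Fin n → Bool) (j : ℕ) :
    co n j (Function.update x ⟨a, h⟩ c) = if j = a then c else co n j x := by
  unfold co
  by_cases hj : j = a
  · subst hj
    simp [h]
  · by_cases hjn : j < n
    · have : (⟨j, hjn⟩ : Fin n) ≠ ⟨a, h⟩ := by
        intro e
        exact hj (congrArg Fin.val e)
      simp [hj, hjn, Function.update_of_ne this]
    · simp [hj, hjn]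

theorem COSTC_aux (n d : ℕ) : ∀ a ≤ n, ∀ g : (Fin n → Bool) → Fn n,
    (∀ x, g x ∈ RM n n d) →
    (∀ x y, (∀ j < a, co n j x = co n j y) → g x = g y) →
    Cost ({fun _ => false} : Set (Fn n)) {fun x => g x x}
      (2 ^ a * rc n d + 3 * (2 ^ a - 1)) := by
  intro a
  induction a with
  | zero =>
    intro _ g hg hd
    have e : (fun x => g x x) = g (fun _ => false) := by
      funext x
      rw [hd x (fun _ => false) (fun j hj => absurd hj (Nat.not_lt_zero j))]
    rw [e]
    have := cost_RM n d le_rfl (g (fun _ => false)) (hg _)
    exact this.mono (le_refl _) (le_refl _) (by simp)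
  | succ a ih =>
    intro ha g hg hd
    have h : a < n := ha
    have key : ∀ c : Bool, Cost ({fun _ => false} : Set (Fn n))
        {fun x => g (Function.update x ⟨a, h⟩ c) x} (2 ^ a * rc n d + 3 * (2 ^ a - 1)) := by
      intro c
      refine ih h.le (fun x => g (Function.update x ⟨a, h⟩ c)) (fun x => hg _) ?_
      intro x y hxy
      refine hd _ _ ?_
      intro j hj
      rw [COSTC_co_update, COSTC_co_update]
      by_cases hja : j = a
      · simp [hja]
      · rw [if_neg hja, if_neg hja]
        exact hxy j (by omega)
    have hm := Cost.mux h (key true) (key false)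
    have e : (fun x => g x x) = (fun x => if co n a x then g (Function.update x ⟨a, h⟩ true) x
        else g (Function.update x ⟨a, h⟩ false) x) := by
      funext x
      have hx : co n a x = x ⟨a, h⟩ := by
        unfold co
        simp [h]
      by_cases hc : x ⟨a, h⟩ = true
      · rw [hx, hc, if_pos rfl]
        have : Function.update x ⟨a, h⟩ true = x := by
          rw [← hc]
          exact Function.update_eq_self _ _
        rw [this]
      · have hc' : x ⟨a, h⟩ = false := by simpa using hc
        rw [hx, hc', if_neg (by decide)]
        have : Function.update x ⟨a, h⟩ false = x := by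
          rw [← hc']
          exact Function.update_eq_self _ _
        rw [this]
    rw [e]
    refine hm.mono (le_refl _) (le_refl _) ?_
    have h1 : 1 ≤ 2 ^ a := Nat.one_le_two_pow
    rw [pow_succ]
    generalize 2 ^ a = t at h1 ⊢
    have e2 : t * 2 * rc n d = t * rc n d + t * rc n d := by ring
    rw [e2]
    omega

theorem t_COSTC : S_COSTC := by
  intro n d a g ha hg hd
  refine (COSTC_aux n d a ha g hg hd).mono (le_refl _) (le_refl _) ?_
  rw [Nat.mul_add]
  omega

end Pool.Agent.H611R4
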