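import Pool.Agent.H611R4.Props

/-! # M1: product formula for `k`-wise independent functions -/

namespace Pool.Agent.H611R4

open Finset

section M1

variable {X Γ : Type} [Fintype X] [DecidableEq X] [Fintype Γ] [Nonempty Γ]

/-- indicator: all bits of `Q` are false at `F γ` -/
noncomputable def M1_P (F : Γ → X → Bool) (Q : Finset (X × Bool)) (γ : Γ) : ℝ :=
  if ∀ v ∈ Q, tot (F γ) v = false then 1 else 0

open Classical in
/-- expected value of the indicator -/
noncomputable def M1_E (Q : Finset (X × Bool)) : ℝ := if Cons Q then (1 / 2 : ℝ) ^ Q.card else 0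

theorem M1_P_mul (F : Γ → X → Bool) (Q Q' : Finset (X × Bool)) (γ : Γ) :
    M1_P F Q γ * M1_P F Q' γ = M1_P F (Q ∪ Q') γ := by
  unfold M1_P
  by_cases h : ∀ v ∈ Q, tot (F γ) v = false
  · by_cases h' : ∀ v ∈ Q', tot (F γ) v = false
    · rw [if_pos h, if_pos h', if_pos, mul_one]
      intro v hv
      rcases Finset.mem_union.mp hv with hv | hv
      · exact h v hv
      · exact h' v hv
    · rw [if_pos h, if_neg h', mul_zero, if_neg]
      intro hh
      exact h' fun v hv => hh v (Finset.mem_union_right _ hv)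
  · rw [if_neg h, zero_mul, if_neg]
    intro hh
    exact h fun v hv => hh v (Finset.mem_union_left _ hv)

theorem M1_P_sq (F : Γ → X → Bool) (Q : Finset (X × Bool)) (γ : Γ) :
    M1_P F ∅ γ * M1_P F Q γ = M1_P F Q γ := by
  rw [M1_P_mul, Finset.empty_union]

theorem M1_P_zero (F : Γ → X → Bool) {Q : Finset (X × Bool)} (h : ¬ Cons Q) (γ : Γ) :
    M1_P F Q γ = 0 := by
  unfold M1_P
  rw [if_neg]
  intro hh
  apply h
  rintro x ⟨h1, h2⟩
  have e1 := hh _ h1
  have e2 := hh _ h2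
  unfold tot at e1 e2
  simp only [decide_eq_false_iff_not] at e1 e2
  cases hF : F γ x
  · exact e2 hF
  · exact e1 hF

/-- the members of `G` of colour `i` -/
def M1_G {h : ℕ} (G : Finset (Finset (X × Bool))) (χ : X → Fin h) (i : Fin h) :
    Finset (Finset (X × Bool)) := G.filter (fun Q => ∀ v ∈ Q, χ v.1 = i)

theorem M1_Xc {h : ℕ} (G : Finset (Finset (X × Bool))) (F : Γ → X → Bool) (χ : X → Fin h)
    (i : Fin h) (γ : Γ) : Xc G F χ i γ = ∑ Q ∈ M1_G G χ i, M1_P F Q γ := by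
  unfold Xc M1_G M1_P
  rw [← Finset.sum_filter, Finset.filter_filter, Finset.sum_const, nsmul_eq_mul, mul_one]
  congr

/-- the value of one factor -/
noncomputable def M1_z {h : ℕ} (G : Finset (Finset (X × Bool))) (μ : ℝ) (χ : X → Fin h)
    (i : Fin h) : ℝ :=
  1 - 2 / μ * (∑ Q ∈ M1_G G χ i, M1_E Q)
    + 1 / μ ^ 2 * (∑ Q ∈ M1_G G χ i, ∑ Q' ∈ M1_G G χ i, M1_E (Q ∪ Q'))

theorem M1_factor {h : ℕ} (G : Finset (Finset (X × Bool))) (F : Γ → X → Bool) (μ : ℝ)
    (χ : X → Fin h) (i : Fin h) (γ : Γ) :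
    (1 - Xc G F χ i γ / μ) ^ 2 = 1 - 2 / μ * (∑ Q ∈ M1_G G χ i, M1_P F Q γ)
      + 1 / μ ^ 2 * (∑ Q ∈ M1_G G χ i, ∑ Q' ∈ M1_G G χ i, M1_P F (Q ∪ Q') γ) := by
  have h1 : (∑ Q ∈ M1_G G χ i, ∑ Q' ∈ M1_G G χ i, M1_P F (Q ∪ Q') γ) = Xc G F χ i γ ^ 2 := by
    rw [M1_Xc, sq, Finset.sum_mul_sum]
    refine Finset.sum_congr rfl fun Q _ => Finset.sum_congr rfl fun Q' _ => ?_
    rw [M1_P_mul]
  rw [h1, ← M1_Xc]
  rcases eq_or_ne μ 0 with rfl | hμ
  · simp
  · field_simp
    ring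

/-- no common points -/
def M1_dj (Z Q : Finset (X × Bool)) : Prop := ∀ v ∈ Z, ∀ u ∈ Q, v.1 ≠ u.1

theorem M1_claim (F : Γ → X → Bool) (k m : ℕ) {h : ℕ} (G : Finset (Finset (X × Bool))) (μ : ℝ)
    (χ : X → Fin h) (hK : KWise k F) (hG : ∀ Q ∈ G, Q.card = m) (S : Finset (Fin h)) :
    ∀ Z : Finset (X × Bool), Cons Z → Z.card + 2 * m * S.card ≤ k →
      (∀ i ∈ S, ∀ Q ∈ M1_G G χ i, M1_dj Z Q) →
      (∑ γ : Γ, M1_P F Z γ * ∏ i ∈ S, (1 - Xc G F χ i γ / μ) ^ 2)
        = (Fintype.card Γ : ℝ) * (1 / 2) ^ Z.card * ∏ i ∈ S, M1_z G μ χ i := by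
  classical
  induction S using Finset.induction_on with
  | empty =>
    intro Z hZ hk _
    simp only [Finset.prod_empty, mul_one]
    have h1 := hK Z hZ (by simpa using hk)
    have h2 : (∑ γ : Γ, M1_P F Z γ)
        = ((univ.filter (fun γ => ∀ v ∈ Z, tot (F γ) v = false)).card : ℝ) := by
      unfold M1_P
      rw [← Finset.sum_filter, Finset.sum_const, nsmul_eq_mul, mul_one]
    rw [h2, ← h1]
    push_cast
    rw [mul_assoc, ← mul_pow]
    norm_num
  | insert i S hi ih =>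
    intro Z hZ hk hdj
    rw [Finset.card_insert_of_notMem hi] at hk
    have hk' : Z.card + 2 * m + 2 * m * S.card ≤ k := by
      have : 2 * m * (S.card + 1) = 2 * m + 2 * m * S.card := by ring
      omega
    -- one term
    have hterm : ∀ W : Finset (X × Bool), (∀ v ∈ W, χ v.1 = i) → W.card ≤ 2 * m → M1_dj Z W →
        (∑ γ : Γ, M1_P F Z γ * M1_P F W γ * ∏ j ∈ S, (1 - Xc G F χ j γ / μ) ^ 2)
          = M1_E W * ((Fintype.card Γ : ℝ) * (1 / 2) ^ Z.card * ∏ j ∈ S, M1_z G μ χ j) := by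
      intro W hWc hWm hWdj
      unfold M1_E
      by_cases hW : Cons W
      · rw [if_pos hW]
        have hdis : Disjoint Z W := by
          rw [Finset.disjoint_left]
          intro v hv hv'
          exact hWdj v hv v hv' rfl
        have hcons : Cons (Z ∪ W) := by
          rintro x ⟨h1, h2⟩
          rcases Finset.mem_union.mp h1 with h1 | h1 <;> rcases Finset.mem_union.mp h2 with h2 | h2
          · exact hZ x ⟨h1, h2⟩
          · exact hWdj _ h1 _ h2 rfl
          · exact hWdj _ h2 _ h1 rfl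
          · exact hW x ⟨h1, h2⟩
        have hcard : (Z ∪ W).card = Z.card + W.card := Finset.card_union_of_disjoint hdis
        have h1 := ih (Z ∪ W) hcons (by rw [hcard]; omega) (by
          intro j hj Q hQ v hv u hu
          rcases Finset.mem_union.mp hv with hv | hv
          · exact hdj j (Finset.mem_insert_of_mem hj) Q hQ v hv u hu
          · intro he
            have e1 := hWc v hv
            have e2 := (Finset.mem_filter.mp hQ).2 u hu
            rw [he, e2] at e1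
            rw [e1] at hj
            exact hi hj)
        rw [hcard, pow_add] at h1
        have h2 : (∑ γ : Γ, M1_P F Z γ * M1_P F W γ * ∏ j ∈ S, (1 - Xc G F χ j γ / μ) ^ 2)
            = ∑ γ : Γ, M1_P F (Z ∪ W) γ * ∏ j ∈ S, (1 - Xc G F χ j γ / μ) ^ 2 :=
          Finset.sum_congr rfl fun γ _ => by rw [M1_P_mul]
        rw [h2, h1]
        ring
      · rw [if_neg hW, zero_mul]
        exact Finset.sum_eq_zero fun γ _ => by rw [M1_P_zero F hW, mul_zero, zero_mul]
    have hGi : ∀ Q ∈ M1_G G χ i, (∀ v ∈ Q, χ v.1 = i) ∧ Q.card = m ∧ M1_dj Z Q := by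
      intro Q hQ
      exact ⟨(Finset.mem_filter.mp hQ).2, hG Q (Finset.mem_filter.mp hQ).1,
        hdj i (Finset.mem_insert_self _ _) Q hQ⟩
    set A : ℝ := (Fintype.card Γ : ℝ) * (1 / 2) ^ Z.card * ∏ j ∈ S, M1_z G μ χ j with hA
    have h0 := ih Z hZ (by omega) (fun j hj Q hQ => hdj j (Finset.mem_insert_of_mem hj) Q hQ)
    rw [← hA] at h0
    rw [Finset.prod_insert hi]
    have h1 : ∀ γ : Γ, M1_P F Z γ * ∏ j ∈ insert i S, (1 - Xc G F χ j γ / μ) ^ 2
        = M1_P F Z γ * ∏ j ∈ S, (1 - Xc G F χ j γ / μ) ^ 2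
          - 2 / μ * (∑ Q ∈ M1_G G χ i, M1_P F Z γ * M1_P F Q γ *
              ∏ j ∈ S, (1 - Xc G F χ j γ / μ) ^ 2)
          + 1 / μ ^ 2 * (∑ Q ∈ M1_G G χ i, ∑ Q' ∈ M1_G G χ i,
              M1_P F Z γ * M1_P F (Q ∪ Q') γ * ∏ j ∈ S, (1 - Xc G F χ j γ / μ) ^ 2) := by
      intro γ
      rw [Finset.prod_insert hi, M1_factor]
      have e1 : (∑ Q ∈ M1_G G χ i, M1_P F Z γ * M1_P F Q γ *
              ∏ j ∈ S, (1 - Xc G F χ j γ / μ) ^ 2)
          = M1_P F Z γ * (∏ j ∈ S, (1 - Xc G F χ j γ / μ) ^ 2) *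
            ∑ Q ∈ M1_G G χ i, M1_P F Q γ := by
        rw [Finset.mul_sum]
        exact Finset.sum_congr rfl fun Q _ => by ring
      have e2 : (∑ Q ∈ M1_G G χ i, ∑ Q' ∈ M1_G G χ i,
              M1_P F Z γ * M1_P F (Q ∪ Q') γ * ∏ j ∈ S, (1 - Xc G F χ j γ / μ) ^ 2)
          = M1_P F Z γ * (∏ j ∈ S, (1 - Xc G F χ j γ / μ) ^ 2) *
            ∑ Q ∈ M1_G G χ i, ∑ Q' ∈ M1_G G χ i, M1_P F (Q ∪ Q') γ := by
        rw [Finset.mul_sum]
        refine Finset.sum_congr rfl fun Q _ => ?_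
        rw [Finset.mul_sum]
        exact Finset.sum_congr rfl fun Q' _ => by ring
      rw [e1, e2]
      ring
    rw [Finset.sum_congr rfl fun γ _ => h1 γ, Finset.sum_add_distrib, Finset.sum_sub_distrib,
      ← Finset.mul_sum, ← Finset.mul_sum, h0]
    have h2 : (∑ γ : Γ, ∑ Q ∈ M1_G G χ i, M1_P F Z γ * M1_P F Q γ *
              ∏ j ∈ S, (1 - Xc G F χ j γ / μ) ^ 2) = (∑ Q ∈ M1_G G χ i, M1_E Q) * A := by
      rw [Finset.sum_comm, Finset.sum_mul]
      refine Finset.sum_congr rfl fun Q hQ => ?_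
      obtain ⟨q1, q2, q3⟩ := hGi Q hQ
      exact hterm Q q1 (by omega) q3
    have h3 : (∑ γ : Γ, ∑ Q ∈ M1_G G χ i, ∑ Q' ∈ M1_G G χ i,
              M1_P F Z γ * M1_P F (Q ∪ Q') γ * ∏ j ∈ S, (1 - Xc G F χ j γ / μ) ^ 2)
        = (∑ Q ∈ M1_G G χ i, ∑ Q' ∈ M1_G G χ i, M1_E (Q ∪ Q')) * A := by
      rw [Finset.sum_comm, Finset.sum_mul]
      refine Finset.sum_congr rfl fun Q hQ => ?_
      rw [Finset.sum_comm, Finset.sum_mul]
      refine Finset.sum_congr rfl fun Q' hQ' => ?_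
      obtain ⟨q1, q2, q3⟩ := hGi Q hQ
      obtain ⟨p1, p2, p3⟩ := hGi Q' hQ'
      refine hterm (Q ∪ Q') ?_ ?_ ?_
      · intro v hv
        rcases Finset.mem_union.mp hv with hv | hv
        · exact q1 v hv
        · exact p1 v hv
      · have := Finset.card_union_le Q Q'
        omega
      · intro v hv u hu
        rcases Finset.mem_union.mp hu with hu | hu
        · exact q3 v hv u hu
        · exact p3 v hv u hu
    rw [h2, h3, hA]
    unfold M1_z
    ring

end M1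

theorem t_M1 : S_M1 := by
  intro X Γ _ _ _ _ F k h m Z G μ χ hK hZ hk hG
  have hGm : ∀ Q ∈ G, Q.card = m := fun Q hQ => (hG Q hQ).1
  have hdj : ∀ Q ∈ G, M1_dj Z Q := by
    intro Q hQ v hv u hu he
    obtain ⟨_, h2, h3⟩ := hG Q hQ
    rcases v with ⟨x, b⟩
    rcases u with ⟨y, c⟩
    simp only at he
    subst he
    by_cases hbc : b = c
    · subst hbc
      exact Finset.disjoint_left.mp h2 hv hu
    · apply h3 x
      cases b <;> cases c
      · exact absurd rfl hbc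
      · exact ⟨Finset.mem_union_right _ hu, Finset.mem_union_left _ hv⟩
      · exact ⟨Finset.mem_union_left _ hv, Finset.mem_union_right _ hu⟩
      · exact absurd rfl hbc
  have hzz : ∀ i : Fin h, zz G F μ χ i = M1_z G μ χ i := by
    intro i
    have hh : 1 ≤ h := by have := i.isLt; omega
    have h1 := M1_claim F k m G μ χ hK hGm {i} ∅ (by rintro x ⟨h1, _⟩; simp at h1) (by
      rw [Finset.card_empty, Finset.card_singleton]
      have : 2 * m * 1 ≤ 2 * m * h := Nat.mul_le_mul_left _ hh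
      omega) (by intro j _ Q _ v hv; simp at hv)
    have h2 : ∀ γ : Γ, M1_P F ∅ γ = 1 := fun γ => by
      unfold M1_P
      rw [if_pos]
      intro v hv
      simp at hv
    simp only [Finset.prod_singleton, Finset.card_empty, pow_zero, mul_one, h2, one_mul] at h1
    unfold zz
    rw [h1, mul_comm, mul_div_assoc, div_self, mul_one]
    have : 0 < Fintype.card Γ := Fintype.card_pos
    exact_mod_cast this.ne'
  have h1 := M1_claim F k m G μ χ hK hGm Finset.univ Z hZ (by simpa using hk)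
    (fun i _ Q hQ => hdj Q (Finset.mem_filter.mp hQ).1)
  rw [Finset.prod_congr rfl fun i _ => hzz i]
  exact h1

end Pool.Agent.H611R4
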