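import Pool.Agent.H611R4.Props

/-!
# Task M2: average over the colourings
-/

namespace Pool.Agent.H611R4

open Finset

theorem M2_pow (m : ℕ) (x : ℝ) (hx0 : 0 ≤ x) (hx : 4 * (m * x) ≤ 1) (hm : 1 ≤ m) :
    (1 + x) ^ m ≤ 3 / 2 := by
  have hm' : (1 : ℝ) ≤ m := by exact_mod_cast hm
  have hx1 : x ≤ 1 := by nlinarith
  have h1 := one_add_mul_le_pow (a := -x) (by linarith) m
  have h2 : (1 + x) ^ m * (1 + -x) ^ m ≤ 1 := by
    rw [← mul_pow]
    apply pow_le_one₀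
    · nlinarith
    · nlinarith
  have h3 : (3 / 4 : ℝ) ≤ (1 + -x) ^ m := by linarith
  have h4 : 0 ≤ (1 + x) ^ m := by positivity
  nlinarith

theorem t_M2 (ha : S_M2a) (hb : S_M2b) : S_M2 := by
  intro X Γ _ _ _ _ F k h m R G hF hh hm hR hk hG hRG hsp i
  have hGm : ∀ Q ∈ G, Q.card = m := fun Q hQ => (hG Q hQ).1
  have hh' : (1 : ℝ) ≤ h := by exact_mod_cast hh
  have hm' : (1 : ℝ) ≤ m := by exact_mod_cast hm
  have hR1 : 1 ≤ R := by
    have : 1 ≤ 8 * h * m := by nlinarith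
    omega
  have hR' : (8 * h * m : ℝ) ≤ R := by exact_mod_cast hR
  have hRp : (0 : ℝ) < R := by exact_mod_cast hR1
  have hcard : (0 : ℝ) < G.card := by
    have : 0 < G.card := by omega
    exact_mod_cast this
  have hpw : (0 : ℝ) < (2 * (h : ℝ)) ^ m := by positivity
  set μ : ℝ := (G.card : ℝ) / (2 * h) ^ m with hμ
  have hμp : 0 < μ := div_pos hcard hpw
  have e1 : (G.card : ℝ) * (1 / (2 * h)) ^ m = μ := by
    rw [hμ, one_div, inv_pow, div_eq_mul_inv]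
  have h1 := hb X Γ F k h m G μ hF hh hk hG i
  rw [h1, e1]
  have h2 := ha X h m R G hh hR1 hGm hRG (by
    intro Y hY hYm
    refine le_trans (le_of_eq ?_) (hsp Y hY hYm)
    congr 1)
  have h3 : (1 + 2 * (h : ℝ) / R) ^ m ≤ 3 / 2 := by
    apply M2_pow m _ (by positivity) _ hm
    rw [mul_div_assoc', mul_div_assoc', div_le_one hRp]
    nlinarith
  have h4 : (1 / (2 * h) : ℝ) ^ (2 * m) * (G.card : ℝ) ^ 2 = μ ^ 2 := by
    rw [← e1, mul_comm 2 m, pow_mul]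
    ring
  rw [h4] at h2
  have h5 := (div_le_iff₀ (show (0 : ℝ) < μ ^ 2 by positivity)).2 (h2.trans
    (show μ ^ 2 * (1 + 2 * (h : ℝ) / R) ^ m ≤ 3 / 2 * μ ^ 2 by nlinarith [sq_nonneg μ]))
  have h6 : 2 * μ / μ = 2 := by field_simp
  rw [h6, mul_comm (1 / 2 : ℝ)]
  apply mul_le_mul_of_nonneg_left _ (by positivity)
  linarith

end Pool.Agent.H611R4
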