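import Pool.Agent.H611R4.Props

/-! Task M2a: the double sum (helper287). -/

namespace Pool.Agent.H611R4

open Finset

theorem M2a_pair {V : Type} [DecidableEq V] (a b : ℝ) (ha : 0 < a) (hab : a * b = 1) (m : ℕ)
    (Q Q' : Finset V) (hQ : Q.card = m) (hQ' : Q'.card = m) :
    a ^ (Q ∪ Q').card ≤ a ^ (2 * m) * ∑ Y ∈ Q.powerset, if Y ⊆ Q' then b ^ Y.card else 0 := by
  have hb : 0 < b := by
    by_contra h
    have := mul_nonpos_of_nonneg_of_nonpos ha.le (not_lt.1 h)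
    linarith
  have h1 := Finset.card_union_add_card_inter Q Q'
  rw [hQ, hQ'] at h1
  have h2 : a ^ (Q ∪ Q').card = a ^ (2 * m) * b ^ (Q ∩ Q').card := by
    have h3 : a ^ (2 * m) = a ^ (Q ∪ Q').card * a ^ (Q ∩ Q').card := by
      rw [← pow_add]; congr 1; omega
    rw [h3, mul_assoc, ← mul_pow, hab, one_pow, mul_one]
  rw [h2]
  refine mul_le_mul_of_nonneg_left ?_ (by positivity)
  have h4 : (if Q ∩ Q' ⊆ Q' then b ^ (Q ∩ Q').card else 0) ≤
      ∑ Y ∈ Q.powerset, if Y ⊆ Q' then b ^ Y.card else 0 :=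
    Finset.single_le_sum (f := fun Y => if Y ⊆ Q' then b ^ Y.card else 0) (fun Y _ => by
      show 0 ≤ (if Y ⊆ Q' then b ^ Y.card else 0)
      split_ifs
      · positivity
      · exact le_rfl) (Finset.mem_powerset.2 Finset.inter_subset_left)
  rwa [if_pos Finset.inter_subset_right] at h4

theorem M2a_count {V : Type} [DecidableEq V] (m R : ℕ) (G : Finset (Finset V)) (hR : 1 ≤ R)
    (hG : R ^ m < G.card)
    (hY : ∀ Y : Finset V, Y.Nonempty → Y.card ≤ m →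
      (G.filter (fun Q => Y ⊆ Q)).card ≤ R ^ (m - Y.card)) (Y : Finset V) (hYm : Y.card ≤ m) :
    ((G.filter (fun Q => Y ⊆ Q)).card : ℝ) ≤ (G.card : ℝ) / (R : ℝ) ^ Y.card := by
  have hR0 : (0 : ℝ) < R := by exact_mod_cast hR
  rw [le_div_iff₀ (by positivity)]
  rcases Finset.eq_empty_or_nonempty Y with rfl | hne
  · simp
  · have h1 := hY Y hne hYm
    have h2 : (G.filter (fun Q => Y ⊆ Q)).card * R ^ Y.card ≤ G.card := by
      calc (G.filter (fun Q => Y ⊆ Q)).card * R ^ Y.card ≤ R ^ (m - Y.card) * R ^ Y.card :=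
            Nat.mul_le_mul_right _ h1
        _ = R ^ m := by rw [← pow_add]; congr 1; omega
        _ ≤ G.card := hG.le
    exact_mod_cast h2

theorem M2a_main {V : Type} [DecidableEq V] (a b : ℝ) (ha : 0 < a) (hab : a * b = 1) (m R : ℕ)
    (G : Finset (Finset V)) (hR : 1 ≤ R) (hGm : ∀ Q ∈ G, Q.card = m) (hG : R ^ m < G.card)
    (hY : ∀ Y : Finset V, Y.Nonempty → Y.card ≤ m →
      (G.filter (fun Q => Y ⊆ Q)).card ≤ R ^ (m - Y.card)) :
    (∑ Q ∈ G, ∑ Q' ∈ G, a ^ (Q ∪ Q').card) ≤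
      a ^ (2 * m) * (G.card : ℝ) ^ 2 * (1 + b / R) ^ m := by
  have hb : 0 < b := by
    by_contra h
    have := mul_nonpos_of_nonneg_of_nonpos ha.le (not_lt.1 h)
    linarith
  have hR0 : (0 : ℝ) < R := by exact_mod_cast hR
  have h1 : ∀ Q ∈ G, (∑ Q' ∈ G, a ^ (Q ∪ Q').card) ≤
      a ^ (2 * m) * (G.card : ℝ) * (1 + b / R) ^ m := by
    intro Q hQ
    have h2 : (∑ Q' ∈ G, a ^ (Q ∪ Q').card) ≤
        ∑ Q' ∈ G, a ^ (2 * m) * ∑ Y ∈ Q.powerset, if Y ⊆ Q' then b ^ Y.card else 0 :=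
      Finset.sum_le_sum fun Q' hQ' => M2a_pair a b ha hab m Q Q' (hGm Q hQ) (hGm Q' hQ')
    have h3 : (∑ Q' ∈ G, a ^ (2 * m) * ∑ Y ∈ Q.powerset, if Y ⊆ Q' then b ^ Y.card else 0) =
        a ^ (2 * m) * ∑ Y ∈ Q.powerset, b ^ Y.card * ((G.filter (fun Q' => Y ⊆ Q')).card : ℝ) := by
      rw [← Finset.mul_sum, Finset.sum_comm]
      congr 1
      refine Finset.sum_congr rfl fun Y _ => ?_
      rw [← Finset.sum_filter, Finset.sum_const, nsmul_eq_mul, mul_comm]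
    have h4 : (∑ Y ∈ Q.powerset, b ^ Y.card * ((G.filter (fun Q' => Y ⊆ Q')).card : ℝ)) ≤
        ∑ Y ∈ Q.powerset, (G.card : ℝ) * ((b / R) ^ Y.card * 1 ^ (Q.card - Y.card)) := by
      refine Finset.sum_le_sum fun Y hYQ => ?_
      have hYm : Y.card ≤ m := by
        rw [← hGm Q hQ]
        exact Finset.card_le_card (Finset.mem_powerset.1 hYQ)
      have h5 := M2a_count m R G hR hG hY Y hYm
      calc b ^ Y.card * ((G.filter (fun Q' => Y ⊆ Q')).card : ℝ) ≤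
            b ^ Y.card * ((G.card : ℝ) / (R : ℝ) ^ Y.card) :=
            mul_le_mul_of_nonneg_left h5 (by positivity)
        _ = (G.card : ℝ) * ((b / R) ^ Y.card * 1 ^ (Q.card - Y.card)) := by
            rw [one_pow, mul_one, div_pow]; ring
    rw [← Finset.mul_sum, Finset.sum_pow_mul_eq_add_pow, hGm Q hQ] at h4
    calc (∑ Q' ∈ G, a ^ (Q ∪ Q').card) ≤ a ^ (2 * m) *
          ∑ Y ∈ Q.powerset, b ^ Y.card * ((G.filter (fun Q' => Y ⊆ Q')).card : ℝ) := by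
          rw [← h3]; exact h2
      _ ≤ a ^ (2 * m) * ((G.card : ℝ) * (b / R + 1) ^ m) :=
          mul_le_mul_of_nonneg_left h4 (by positivity)
      _ = a ^ (2 * m) * (G.card : ℝ) * (1 + b / R) ^ m := by rw [add_comm (b / R) 1]; ring
  calc (∑ Q ∈ G, ∑ Q' ∈ G, a ^ (Q ∪ Q').card) ≤
        ∑ _Q ∈ G, a ^ (2 * m) * (G.card : ℝ) * (1 + b / R) ^ m := Finset.sum_le_sum h1
    _ = a ^ (2 * m) * (G.card : ℝ) ^ 2 * (1 + b / R) ^ m := by
        rw [Finset.sum_const, nsmul_eq_mul]; ring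

theorem t_M2a : S_M2a := by
  intro X _ h m R G hh hR hGm hG hY
  have hh0 : (0 : ℝ) < h := by exact_mod_cast hh
  have hab : (1 / (2 * h) : ℝ) * (2 * h) = 1 := by field_simp
  refine le_trans ?_ (M2a_main (1 / (2 * h) : ℝ) (2 * h) (by positivity) hab m R G hR hGm hG ?_)
  · refine Finset.sum_le_sum fun Q _ => Finset.sum_le_sum fun Q' _ => ?_
    split_ifs
    · exact le_rfl
    · positivity
  · intro Y h1 h2
    exact hY Y h1 h2

end Pool.Agent.H611R4
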