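import Pool.Agent.H611R4.Props

/-!
# M2b: exact average over random colourings (helper497)
-/

namespace Pool.Agent.H611R4

open Finset

open Classical in
/-- indicator of the event that all bits of `Q` are false -/
noncomputable def M2b_p {X : Type} (f : X → Bool) (Q : Finset (X × Bool)) : ℝ :=
  if ∀ v ∈ Q, tot f v = false then 1 else 0

open Classical in
/-- indicator of the event that all points of `Q` have colour `i` -/
noncomputable def M2b_c {X : Type} {h : ℕ} (χ : X → Fin h) (i : Fin h) (Q : Finset (X × Bool)) : ℝ :=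
  if ∀ v ∈ Q, χ v.1 = i then 1 else 0

lemma M2b_P {X Γ : Type} [Fintype Γ] (F : Γ → X → Bool) (k : ℕ) (hK : KWise k F)
    (Q : Finset (X × Bool)) (hc : Cons Q) (hQ : Q.card ≤ k) :
    ∑ γ, M2b_p (F γ) Q = (Fintype.card Γ : ℝ) * (1 / 2) ^ Q.card := by
  have h := hK Q hc hQ
  unfold M2b_p
  rw [Finset.sum_boole]
  have h2 : (((univ.filter (fun γ => ∀ v ∈ Q, tot (F γ) v = false)).card : ℕ) : ℝ) * 2 ^ Q.card =
      (Fintype.card Γ : ℝ) := by exact_mod_cast h
  rw [← h2, mul_assoc, ← mul_pow]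
  norm_num

lemma M2b_P0 {X Γ : Type} [Fintype Γ] (F : Γ → X → Bool) (Q : Finset (X × Bool)) (hc : ¬ Cons Q) :
    ∑ γ, M2b_p (F γ) Q = 0 := by
  refine Finset.sum_eq_zero fun γ _ => ?_
  unfold M2b_p
  unfold Cons at hc
  push Not at hc
  obtain ⟨x, h1, h2⟩ := hc
  rw [if_neg]
  intro h
  have a1 := h _ h1
  have a2 := h _ h2
  unfold tot at a1 a2
  simp only [decide_eq_false_iff_not] at a1 a2
  cases hF : F γ x
  · exact a2 hF
  · exact a1 hF

lemma M2b_C {X : Type} [Fintype X] [DecidableEq X] (h : ℕ) (hh : 1 ≤ h) (i : Fin h)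
    (Q : Finset (X × Bool)) (hc : Cons Q) :
    ∑ χ : X → Fin h, M2b_c χ i Q =
      (Fintype.card (X → Fin h) : ℝ) * (1 / h) ^ Q.card := by
  classical
  have hS : (Q.image Prod.fst).card = Q.card := by
    refine Finset.card_image_of_injOn ?_
    rintro ⟨x, b⟩ h1 ⟨y, c⟩ h2 hxy
    simp only at hxy
    subst hxy
    rw [Finset.mem_coe] at h1 h2
    cases b <;> cases c
    · rfl
    · exact absurd ⟨h2, h1⟩ (hc x)
    · exact absurd ⟨h1, h2⟩ (hc x)
    · rfl
  have e : univ.filter (fun χ : X → Fin h => ∀ v ∈ Q, χ v.1 = i) =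
      Fintype.piFinset (fun x => if x ∈ Q.image Prod.fst then {i} else univ) := by
    ext χ
    simp only [Finset.mem_filter, Finset.mem_univ, true_and, Fintype.mem_piFinset]
    constructor
    · intro H x
      split_ifs with hx
      · obtain ⟨v, hv, rfl⟩ := Finset.mem_image.mp hx
        rw [Finset.mem_singleton]
        exact H v hv
      · exact Finset.mem_univ _
    · intro H v hv
      have := H v.1
      rw [if_pos (Finset.mem_image_of_mem _ hv), Finset.mem_singleton] at this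
      exact this
  have h1 : (univ.filter (fun χ : X → Fin h => ∀ v ∈ Q, χ v.1 = i)).card * h ^ Q.card =
      Fintype.card (X → Fin h) := by
    rw [e, Fintype.card_piFinset, ← hS]
    have e2 : h ^ (Q.image Prod.fst).card = ∏ x : X, (if x ∈ Q.image Prod.fst then h else 1) := by
      rw [Finset.prod_ite_mem, Finset.univ_inter, Finset.prod_const]
    rw [e2, ← Finset.prod_mul_distrib, Fintype.card_pi]
    refine Finset.prod_congr rfl fun x _ => ?_
    split_ifs <;> simp
  have hh' : (h : ℝ) ≠ 0 := by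
    have : 0 < h := hh
    positivity
  have e3 : ∑ χ : X → Fin h, M2b_c χ i Q =
      (((univ.filter (fun χ : X → Fin h => ∀ v ∈ Q, χ v.1 = i)).card : ℕ) : ℝ) := by
    rw [← Finset.sum_boole]
    refine Finset.sum_congr rfl fun χ _ => ?_
    unfold M2b_c
    split_ifs <;> rfl
  rw [e3]
  have h2 : (((univ.filter (fun χ : X → Fin h => ∀ v ∈ Q, χ v.1 = i)).card : ℕ) : ℝ) * (h : ℝ) ^ Q.card =
      (Fintype.card (X → Fin h) : ℝ) := by exact_mod_cast h1
  rw [← h2, mul_assoc, ← mul_pow]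
  rw [mul_one_div_cancel hh', one_pow, mul_one]

theorem t_M2b : S_M2b := by
  classical
  intro X Γ _ _ _ _ F k h m G μ hK hh hmk hG i
  -- Xc as a sum
  have hX : ∀ (χ : X → Fin h) (γ : Γ), Xc G F χ i γ =
      ∑ Q ∈ G, M2b_c χ i Q * M2b_p (F γ) Q := by
    intro χ γ
    unfold Xc
    rw [← Finset.sum_boole]
    refine Finset.sum_congr rfl fun Q _ => ?_
    unfold M2b_c M2b_p
    by_cases h1 : ∀ v ∈ Q, χ v.1 = i
    · by_cases h2 : ∀ v ∈ Q, tot (F γ) v = false
      · rw [if_pos ⟨h1, h2⟩, if_pos h1, if_pos h2, one_mul]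
      · rw [if_neg (fun h => h2 h.2), if_neg h2, mul_zero]
    · rw [if_neg (fun h => h1 h.1), if_neg h1, zero_mul]
  have hX2 : ∀ (χ : X → Fin h) (γ : Γ), Xc G F χ i γ ^ 2 =
      ∑ Q ∈ G, ∑ Q' ∈ G, M2b_c χ i (Q ∪ Q') * M2b_p (F γ) (Q ∪ Q') := by
    intro χ γ
    rw [hX, sq, Finset.sum_mul_sum]
    refine Finset.sum_congr rfl fun Q _ => Finset.sum_congr rfl fun Q' _ => ?_
    have e1 : M2b_c χ i (Q ∪ Q') = M2b_c χ i Q * M2b_c χ i Q' := by
      unfold M2b_c
      by_cases h1 : ∀ v ∈ Q, χ v.1 = i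
      · by_cases h2 : ∀ v ∈ Q', χ v.1 = i
        · rw [if_pos (Finset.forall_mem_union.mpr ⟨h1, h2⟩), if_pos h1, if_pos h2, one_mul]
        · rw [if_neg (fun h => h2 (Finset.forall_mem_union.mp h).2), if_neg h2, mul_zero]
      · rw [if_neg (fun h => h1 (Finset.forall_mem_union.mp h).1), if_neg h1, zero_mul]
    have e2 : M2b_p (F γ) (Q ∪ Q') = M2b_p (F γ) Q * M2b_p (F γ) Q' := by
      unfold M2b_p
      by_cases h1 : ∀ v ∈ Q, tot (F γ) v = false
      · by_cases h2 : ∀ v ∈ Q', tot (F γ) v = false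
        · rw [if_pos (Finset.forall_mem_union.mpr ⟨h1, h2⟩), if_pos h1, if_pos h2, one_mul]
        · rw [if_neg (fun h => h2 (Finset.forall_mem_union.mp h).2), if_neg h2, mul_zero]
      · rw [if_neg (fun h => h1 (Finset.forall_mem_union.mp h).1), if_neg h1, zero_mul]
    rw [e1, e2]
    ring
  set N : ℝ := (Fintype.card (X → Fin h) : ℝ) with hN
  set g : ℝ := (Fintype.card Γ : ℝ) with hg
  have g0 : g ≠ 0 := by
    have : 0 < Fintype.card Γ := Fintype.card_pos
    positivity
  have hh' : (h : ℝ) ≠ 0 := by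
    have : 0 < h := hh
    positivity
  have two : (1 / (2 * (h : ℝ))) = (1 / h) * (1 / 2) := by
    field_simp
  have S1 : ∑ χ : X → Fin h, ∑ γ, Xc G F χ i γ = N * g * ((G.card : ℝ) * (1 / (2 * h)) ^ m) := by
    calc ∑ χ : X → Fin h, ∑ γ, Xc G F χ i γ
        = ∑ Q ∈ G, (∑ χ : X → Fin h, M2b_c χ i Q) * (∑ γ, M2b_p (F γ) Q) := by
          simp only [hX]
          rw [Finset.sum_congr rfl fun χ _ => Finset.sum_comm, Finset.sum_comm]
          refine Finset.sum_congr rfl fun Q _ => ?_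
          rw [Finset.sum_mul_sum]
      _ = ∑ Q ∈ G, N * g * (1 / (2 * h)) ^ m := by
          refine Finset.sum_congr rfl fun Q hQ => ?_
          obtain ⟨hc, hco⟩ := hG Q hQ
          rw [M2b_C h hh i Q hco, M2b_P F k hK Q hco (by omega), hc, two, mul_pow]
          ring
      _ = N * g * ((G.card : ℝ) * (1 / (2 * h)) ^ m) := by
          rw [Finset.sum_const, nsmul_eq_mul]
          ring
  have S2 : ∑ χ : X → Fin h, ∑ γ, Xc G F χ i γ ^ 2 = N * g *
      (∑ Q ∈ G, ∑ Q' ∈ G, if Cons (Q ∪ Q') then (1 / (2 * h) : ℝ) ^ (Q ∪ Q').card else 0) := by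
    calc ∑ χ : X → Fin h, ∑ γ, Xc G F χ i γ ^ 2
        = ∑ Q ∈ G, ∑ Q' ∈ G, (∑ χ : X → Fin h, M2b_c χ i (Q ∪ Q')) *
            (∑ γ, M2b_p (F γ) (Q ∪ Q')) := by
          simp only [hX2]
          rw [Finset.sum_congr rfl fun χ _ => Finset.sum_comm, Finset.sum_comm]
          refine Finset.sum_congr rfl fun Q _ => ?_
          rw [Finset.sum_congr rfl fun χ _ => Finset.sum_comm, Finset.sum_comm]
          refine Finset.sum_congr rfl fun Q' _ => ?_
          rw [Finset.sum_mul_sum]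
      _ = ∑ Q ∈ G, ∑ Q' ∈ G, N * g *
            (if Cons (Q ∪ Q') then (1 / (2 * h) : ℝ) ^ (Q ∪ Q').card else 0) := by
          refine Finset.sum_congr rfl fun Q hQ => Finset.sum_congr rfl fun Q' hQ' => ?_
          split_ifs with hco
          · have hc : (Q ∪ Q').card ≤ k := by
              have := Finset.card_union_le Q Q'
              have := (hG Q hQ).1
              have := (hG Q' hQ').1
              omega
            rw [M2b_C h hh i _ hco, M2b_P F k hK _ hco hc, two, mul_pow]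
            ring
          · rw [M2b_P0 F _ hco]
            ring
      _ = _ := by
          simp only [← Finset.mul_sum]
  unfold zz
  rw [← Finset.sum_div]
  have e : ∑ χ : X → Fin h, ∑ γ, (1 - Xc G F χ i γ / μ) ^ 2 =
      N * g - 2 / μ * (∑ χ : X → Fin h, ∑ γ, Xc G F χ i γ) +
        1 / μ ^ 2 * (∑ χ : X → Fin h, ∑ γ, Xc G F χ i γ ^ 2) := by
    have e1 : ∀ (χ : X → Fin h) (γ : Γ), (1 - Xc G F χ i γ / μ) ^ 2 =
        1 - 2 / μ * Xc G F χ i γ + 1 / μ ^ 2 * Xc G F χ i γ ^ 2 := by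
      intro χ γ
      ring
    simp only [e1, Finset.sum_add_distrib, Finset.sum_sub_distrib, ← Finset.mul_sum]
    simp only [Finset.sum_const, Finset.card_univ, nsmul_eq_mul, mul_one]
    rw [← hg, ← hN]
  rw [e, S1, S2, div_eq_iff g0]
  ring

end Pool.Agent.H611R4
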