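import Pool.Agent.H611R4.Props

namespace Pool.Agent.H611R4

open Finset

lemma MOM_zz_nonneg {X Γ : Type} {h : ℕ} [DecidableEq X] [Fintype Γ]
    (G : Finset (Finset (X × Bool))) (F : Γ → X → Bool) (μ : ℝ) (χ : X → Fin h) (i : Fin h) :
    0 ≤ zz G F μ χ i := by
  unfold zz
  apply div_nonneg
  · exact Finset.sum_nonneg fun γ _ => sq_nonneg _
  · exact Nat.cast_nonneg _

lemma MOM_le_exp (z : ℝ) : z ≤ (1 / 2) * Real.exp (2 * z - 1) := by
  have := Real.add_one_le_exp (2 * z - 1)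
  linarith

lemma MOM_cons_mono {X : Type} {Q Q' : Finset (X × Bool)} (h : Q ⊆ Q') (hc : Cons Q') :
    Cons Q := fun x hx => hc x ⟨h hx.1, h hx.2⟩

lemma MOM_Xc_zero {X Γ : Type} {h : ℕ} [DecidableEq X] (G : Finset (Finset (X × Bool)))
    (F : Γ → X → Bool) (χ : X → Fin h) (i : Fin h) (γ : Γ)
    (hγ : ∀ Q ∈ G, ∃ v ∈ Q, tot (F γ) v = true) : Xc G F χ i γ = 0 := by
  unfold Xc
  rw [Nat.cast_eq_zero, Finset.card_eq_zero]
  refine Finset.eq_empty_of_forall_notMem fun Q hQ' => ?_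
  obtain ⟨hQ, -, hf⟩ := Finset.mem_filter.1 hQ'
  obtain ⟨v, hv, hv'⟩ := hγ Q hQ
  rw [hf v hv] at hv'
  exact absurd hv' (by decide)

theorem t_MOM (h1 : S_M1) (h2 : S_M2) : S_MOM := by
  classical
  intro X Γ _ _ _ _ F k h m R Z G hK hh hm hR hk hG hRG hspread
  have hGpos : 0 < G.card := lt_of_le_of_lt (Nat.zero_le _) hRG
  obtain ⟨Q0, hQ0⟩ := Finset.card_pos.1 hGpos
  have hZc : Cons Z := MOM_cons_mono Finset.subset_union_left (hG Q0 hQ0).2.2
  have h2mk : 2 * m ≤ k := by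
    have : 2 * m * 1 ≤ 2 * m * h := Nat.mul_le_mul_left _ hh
    omega
  set μ : ℝ := (G.card : ℝ) / (2 * h) ^ m with hμ
  have hne : Nonempty (Fin h) := ⟨⟨0, hh⟩⟩
  have hneχ : Nonempty (X → Fin h) := ⟨fun _ => ⟨0, hh⟩⟩
  have hS := h2 X Γ F k h m R G hK hh hm hR h2mk
    (fun Q hQ => ⟨(hG Q hQ).1, MOM_cons_mono Finset.subset_union_right (hG Q hQ).2.2⟩) hRG
    hspread
  -- choose a colouring
  have hsum : ∑ χ : X → Fin h, ∑ i, zz G F μ χ i ≤ ∑ _χ : X → Fin h, ((h : ℝ) / 2) := by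
    rw [Finset.sum_comm]
    calc ∑ i : Fin h, ∑ χ : X → Fin h, zz G F μ χ i
        ≤ ∑ _i : Fin h, (1 / 2) * (Fintype.card (X → Fin h) : ℝ) :=
          Finset.sum_le_sum fun i _ => hS i
      _ = ∑ _χ : X → Fin h, ((h : ℝ) / 2) := by
          rw [Finset.sum_const, Finset.sum_const, Finset.card_univ, Finset.card_univ,
            Fintype.card_fin, nsmul_eq_mul, nsmul_eq_mul]
          ring
  obtain ⟨χ, -, hχ⟩ := Finset.exists_le_of_sum_le (Finset.univ_nonempty) hsum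
  -- the product
  have hprod : ∏ i : Fin h, zz G F μ χ i ≤ (1 / 2) ^ h := by
    calc ∏ i : Fin h, zz G F μ χ i
        ≤ ∏ i : Fin h, ((1 / 2) * Real.exp (2 * zz G F μ χ i - 1)) :=
          Finset.prod_le_prod (fun i _ => MOM_zz_nonneg G F μ χ i) (fun i _ => MOM_le_exp _)
      _ = (1 / 2) ^ h * Real.exp (∑ i : Fin h, (2 * zz G F μ χ i - 1)) := by
          rw [Finset.prod_mul_distrib, Finset.prod_const, Finset.card_univ, Fintype.card_fin,
            Real.exp_sum]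
      _ ≤ (1 / 2) ^ h * 1 := by
          apply mul_le_mul_of_nonneg_left _ (by positivity)
          rw [Real.exp_le_one_iff, Finset.sum_sub_distrib, ← Finset.mul_sum, Finset.sum_const,
            Finset.card_univ, Fintype.card_fin, nsmul_eq_mul]
          linarith
      _ = (1 / 2) ^ h := mul_one _
  have hM1 := h1 X Γ F k h m Z G μ χ hK hZc hk hG
  have hle : (∑ γ : Γ, (if ∀ v ∈ Z, tot (F γ) v = false then (1 : ℝ) else 0) *
      ∏ i : Fin h, (1 - Xc G F χ i γ / μ) ^ 2) ≤ (Fintype.card Γ : ℝ) * (1 / 2) ^ h := by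
    rw [hM1]
    have hp0 : 0 ≤ ∏ i : Fin h, zz G F μ χ i :=
      Finset.prod_nonneg fun i _ => MOM_zz_nonneg G F μ χ i
    have hz1 : ((1 / 2 : ℝ)) ^ Z.card ≤ 1 := pow_le_one₀ (by norm_num) (by norm_num)
    calc (Fintype.card Γ : ℝ) * (1 / 2) ^ Z.card * ∏ i : Fin h, zz G F μ χ i
        ≤ (Fintype.card Γ : ℝ) * 1 * ∏ i : Fin h, zz G F μ χ i := by gcongr
      _ ≤ (Fintype.card Γ : ℝ) * 1 * (1 / 2) ^ h := by gcongr
      _ = _ := by ring
  have hcard : ((univ.filter (fun γ => (∀ v ∈ Z, tot (F γ) v = false) ∧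
      ∀ Q ∈ G, ∃ v ∈ Q, tot (F γ) v = true)).card : ℝ) ≤
      ∑ γ : Γ, (if ∀ v ∈ Z, tot (F γ) v = false then (1 : ℝ) else 0) *
        ∏ i : Fin h, (1 - Xc G F χ i γ / μ) ^ 2 := by
    rw [Finset.card_filter, Nat.cast_sum]
    apply Finset.sum_le_sum
    intro γ _
    by_cases hγ : (∀ v ∈ Z, tot (F γ) v = false) ∧ ∀ Q ∈ G, ∃ v ∈ Q, tot (F γ) v = true
    · rw [if_pos hγ, if_pos hγ.1]
      have hX : ∀ i, Xc G F χ i γ = 0 := fun i => MOM_Xc_zero G F χ i γ hγ.2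
      simp [hX]
    · rw [if_neg hγ]
      push_cast
      apply mul_nonneg
      · split_ifs <;> norm_num
      · exact Finset.prod_nonneg fun i _ => sq_nonneg _
  have hfin := hcard.trans hle
  have h2h : (0 : ℝ) < 2 ^ h := by positivity
  have : ((univ.filter (fun γ => (∀ v ∈ Z, tot (F γ) v = false) ∧
      ∀ Q ∈ G, ∃ v ∈ Q, tot (F γ) v = true)).card : ℝ) * 2 ^ h ≤ (Fintype.card Γ : ℝ) := by
    calc _ ≤ (Fintype.card Γ : ℝ) * (1 / 2) ^ h * 2 ^ h := by gcongr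
      _ = (Fintype.card Γ : ℝ) := by
          rw [mul_assoc, ← mul_pow]
          norm_num
  exact_mod_cast this

end Pool.Agent.H611R4
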