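import Pool.Agent.H611R4.Props

/-!
# RC, RB: numerical bounds
-/

namespace Pool.Agent.H611R4

open Finset

theorem RC_small (c r : ℕ) (hc : 1 ≤ c) (hr : r ≤ c) : (c + 1) ^ r ≤ 4 * c ^ r := by
  have hc' : (0 : ℝ) < c := by exact_mod_cast hc
  have h1 : (c : ℝ) + 1 ≤ c * Real.exp (1 / c) := by
    have h2 := Real.add_one_le_exp (1 / (c : ℝ))
    have h3 := mul_le_mul_of_nonneg_left h2 hc'.le
    have h4 : (c : ℝ) * (1 / c + 1) = c + 1 := by
      field_simp
      ring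
    linarith
  have h5 : ((c : ℝ) + 1) ^ r ≤ 4 * (c : ℝ) ^ r := by
    calc ((c : ℝ) + 1) ^ r ≤ (c * Real.exp (1 / c)) ^ r :=
          pow_le_pow_left₀ (by positivity) h1 r
      _ = Real.exp (r * (1 / c)) * (c : ℝ) ^ r := by
          rw [mul_pow, Real.exp_nat_mul, mul_comm]
      _ ≤ 4 * (c : ℝ) ^ r := by
          refine mul_le_mul_of_nonneg_right ?_ (by positivity)
          have h6 : (r : ℝ) * (1 / c) ≤ 1 := by
            rw [mul_one_div, div_le_one hc']
            exact_mod_cast hr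
          have h7 : Real.exp (r * (1 / c)) ≤ Real.exp 1 := Real.exp_le_exp.mpr h6
          have h8 := Real.exp_one_lt_d9
          linarith
  exact_mod_cast h5

theorem RC_pow (c n : ℕ) (hc : 1 ≤ c) : (c + 1) ^ n ≤ 4 ^ (n / c + 1) * c ^ n := by
  have h0 : c * (n / c) + n % c = n := Nat.div_add_mod n c
  have hr : n % c ≤ c := (Nat.mod_lt n hc).le
  have h1 : (c + 1) ^ (c * (n / c)) ≤ 4 ^ (n / c) * c ^ (c * (n / c)) := by
    rw [pow_mul, pow_mul c, ← mul_pow]
    exact Nat.pow_le_pow_left (RC_small c c hc (le_refl _)) _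
  calc (c + 1) ^ n = (c + 1) ^ (c * (n / c)) * (c + 1) ^ (n % c) := by
        rw [← pow_add, h0]
    _ ≤ (4 ^ (n / c) * c ^ (c * (n / c))) * (4 * c ^ (n % c)) :=
        Nat.mul_le_mul h1 (RC_small c _ hc hr)
    _ = 4 ^ (n / c + 1) * (c ^ (c * (n / c)) * c ^ (n % c)) := by
        rw [pow_succ]
        ring
    _ = _ := by rw [← pow_add, h0]

theorem RC_bound (c : ℕ) (hc : 1 ≤ c) : ∀ k d, c ^ k * (H589R2.rc k d + 4) ≤
    4 * c ^ d * (c + 1) ^ k := by
  intro k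
  induction k with
  | zero =>
    intro d
    simp only [H589R2.rc, pow_zero, one_mul, mul_one, Nat.zero_add]
    have : 1 ≤ c ^ d := Nat.one_le_pow _ _ hc
    omega
  | succ k ih =>
    intro d
    cases d with
    | zero =>
      simp only [H589R2.rc, pow_zero, Nat.zero_add, mul_one]
      have : c ^ (k + 1) ≤ (c + 1) ^ (k + 1) := Nat.pow_le_pow_left (by omega) _
      omega
    | succ d =>
      have h1 := Nat.mul_le_mul_left c (ih (d + 1))
      have h2 := Nat.mul_le_mul_left c (ih d)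
      simp only [H589R2.rc]
      have e1 : c ^ (k + 1) * (H589R2.rc k (d + 1) + H589R2.rc k d + 4 + 4) =
          c * (c ^ k * (H589R2.rc k (d + 1) + 4)) + c * (c ^ k * (H589R2.rc k d + 4)) := by
        ring
      have e2 : 4 * c ^ (d + 1) * (c + 1) ^ (k + 1) =
          c * (4 * c ^ (d + 1) * (c + 1) ^ k) + c * (4 * c ^ d * (c + 1) ^ k) := by
        ring
      rw [e1, e2]
      exact Nat.add_le_add h1 h2

theorem RB_bound (c : ℕ) (hc : 1 ≤ c) : ∀ k d, c ^ k * (H589R2.rb k d + 2) ≤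
    2 * (2 * c) ^ d * (c + 1) ^ k := by
  intro k
  induction k with
  | zero =>
    intro d
    simp only [H589R2.rb, pow_zero, one_mul, mul_one, Nat.zero_add]
    have : 1 ≤ (2 * c) ^ d := Nat.one_le_pow _ _ (by omega)
    omega
  | succ k ih =>
    intro d
    cases d with
    | zero =>
      simp only [H589R2.rb, pow_zero, Nat.zero_add, mul_one]
      have : c ^ (k + 1) ≤ (c + 1) ^ (k + 1) := Nat.pow_le_pow_left (by omega) _
      omega
    | succ d =>
      have h1 := Nat.mul_le_mul_left c (ih (d + 1))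
      have h2 := Nat.mul_le_mul_left (2 * c) (ih d)
      simp only [H589R2.rb]
      have e1 : c ^ (k + 1) * (H589R2.rb k (d + 1) + 2 * (H589R2.rb k d + 1) + 2) ≤
          c * (c ^ k * (H589R2.rb k (d + 1) + 2)) + 2 * c * (c ^ k * (H589R2.rb k d + 2)) := by
        have : c ^ (k + 1) * (H589R2.rb k (d + 1) + 2 * (H589R2.rb k d + 1) + 2) +
            c ^ (k + 1) * 2 =
          c * (c ^ k * (H589R2.rb k (d + 1) + 2)) + 2 * c * (c ^ k * (H589R2.rb k d + 2)) := by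
            ring
        omega
      have e2 : 2 * (2 * c) ^ (d + 1) * (c + 1) ^ (k + 1) =
          c * (2 * (2 * c) ^ (d + 1) * (c + 1) ^ k) +
            2 * c * (2 * (2 * c) ^ d * (c + 1) ^ k) := by
        ring
      rw [e2]
      exact e1.trans (Nat.add_le_add h1 h2)

theorem t_RC : S_RC := by
  intro p n d
  have hc : 1 ≤ 2 ^ p := Nat.one_le_two_pow
  have h1 := RC_bound (2 ^ p) hc n d
  have h2 := RC_pow (2 ^ p) n hc
  have h3 : (2 ^ p) ^ n * (H589R2.rc n d + 4) ≤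
      (2 ^ p) ^ n * 2 ^ (p * d + 2 * (n / 2 ^ p) + 4) := by
    calc (2 ^ p) ^ n * (H589R2.rc n d + 4) ≤ 4 * (2 ^ p) ^ d * (2 ^ p + 1) ^ n := h1
      _ ≤ 4 * (2 ^ p) ^ d * (4 ^ (n / 2 ^ p + 1) * (2 ^ p) ^ n) := Nat.mul_le_mul_left _ h2
      _ = (2 ^ p) ^ n * 2 ^ (p * d + 2 * (n / 2 ^ p) + 4) := by
          have e1 : (4 : ℕ) ^ (n / 2 ^ p + 1) = 2 ^ (2 * (n / 2 ^ p) + 2) := by
            rw [show (4 : ℕ) = 2 ^ 2 by norm_num, ← pow_mul]
            congr 1
          have e2 : ((2 : ℕ) ^ p) ^ d = 2 ^ (p * d) := (pow_mul 2 p d).symm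
          rw [e1, e2, pow_add, pow_add, pow_add]
          ring
  exact Nat.le_of_mul_le_mul_left h3 (by positivity)

theorem t_RB : S_RB := by
  intro p n d
  have hc : 1 ≤ 2 ^ p := Nat.one_le_two_pow
  have h1 := RB_bound (2 ^ p) hc n d
  have h2 := RC_pow (2 ^ p) n hc
  have h3 : (2 ^ p) ^ n * (H589R2.rb n d + 2) ≤
      (2 ^ p) ^ n * 2 ^ ((p + 1) * d + 2 * (n / 2 ^ p) + 3) := by
    calc (2 ^ p) ^ n * (H589R2.rb n d + 2) ≤ 2 * (2 * 2 ^ p) ^ d * (2 ^ p + 1) ^ n := h1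
      _ ≤ 2 * (2 * 2 ^ p) ^ d * (4 ^ (n / 2 ^ p + 1) * (2 ^ p) ^ n) := Nat.mul_le_mul_left _ h2
      _ = (2 ^ p) ^ n * 2 ^ ((p + 1) * d + 2 * (n / 2 ^ p) + 3) := by
          have e1 : (4 : ℕ) ^ (n / 2 ^ p + 1) = 2 ^ (2 * (n / 2 ^ p) + 2) := by
            rw [show (4 : ℕ) = 2 ^ 2 by norm_num, ← pow_mul]
            congr 1
          have e2 : (2 * (2 : ℕ) ^ p) ^ d = 2 ^ ((p + 1) * d) := by
            rw [show 2 * 2 ^ p = 2 ^ (p + 1) by ring, ← pow_mul]
          rw [e1, e2, pow_add, pow_add, pow_add]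
          ring
  exact Nat.le_of_mul_le_mul_left h3 (by positivity)

end Pool.Agent.H611R4
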