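import Pool.Agent.H611R4.Props

/-! # SPREAD: spread sublemma -/

namespace Pool.Agent.H611R4

open Finset

theorem t_SPREAD : S_SPREAD := by
  intro V _ l R A hA hcard
  classical
  set ZZ : Finset (Finset V) := ((A.biUnion id).powerset).filter
    (fun Z => Z.card ≤ l ∧ R ^ (l - Z.card) < (A.filter (fun Q => Z ⊆ Q)).card) with hZZ
  have hmem : ∀ Z : Finset V, Z ∈ ZZ ↔ Z ⊆ A.biUnion id ∧ Z.card ≤ l ∧
      R ^ (l - Z.card) < (A.filter (fun Q => Z ⊆ Q)).card := by
    intro Z
    rw [hZZ, Finset.mem_filter, Finset.mem_powerset]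
  have hempty : (∅ : Finset V) ∈ ZZ := by
    rw [hmem]
    refine ⟨Finset.empty_subset _, by simp, ?_⟩
    have : A.filter (fun Q => (∅ : Finset V) ⊆ Q) = A :=
      Finset.filter_true_of_mem (fun Q _ => Finset.empty_subset Q)
    rw [this]
    simpa using hcard
  obtain ⟨Z, hZ, hmax⟩ := Finset.exists_max_image ZZ Finset.card ⟨∅, hempty⟩
  obtain ⟨hZ1, hZ2, hZ3⟩ := (hmem Z).mp hZ
  refine ⟨Z, ?_, hZ3, ?_⟩
  · rcases lt_or_eq_of_le hZ2 with h | h
    · exact h
    · exfalso
      have hsub : A.filter (fun Q => Z ⊆ Q) ⊆ {Z} := by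
        intro Q hQ
        obtain ⟨hQ1, hQ2⟩ := Finset.mem_filter.mp hQ
        rw [Finset.mem_singleton]
        exact (Finset.eq_of_subset_of_card_le hQ2 (by rw [hA Q hQ1, h])).symm
      have h1 := Finset.card_le_card hsub
      rw [Finset.card_singleton] at h1
      rw [h, Nat.sub_self, pow_zero] at hZ3
      omega
  · intro Y hY hdisj hle
    by_contra hc
    push Not at hc
    have hcardU : (Z ∪ Y).card = Z.card + Y.card := Finset.card_union_of_disjoint hdisj
    have hYpos : 0 < Y.card := Finset.card_pos.mpr hY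
    have hU : Z ∪ Y ∈ ZZ := by
      rw [hmem]
      refine ⟨?_, by omega, ?_⟩
      · have hpos : 0 < (A.filter (fun Q => Z ∪ Y ⊆ Q)).card := lt_of_le_of_lt (Nat.zero_le _) hc
        obtain ⟨Q, hQ⟩ := Finset.card_pos.mp hpos
        obtain ⟨hQ1, hQ2⟩ := Finset.mem_filter.mp hQ
        intro v hv
        exact Finset.mem_biUnion.mpr ⟨Q, hQ1, hQ2 hv⟩
      · rw [hcardU]
        have : l - (Z.card + Y.card) = l - Z.card - Y.card := by omega
        rw [this]
        exact hc
    have := hmax _ hU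
    omega

end Pool.Agent.H611R4
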