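import Pool.Agent.H611R4.Props

namespace Pool.Agent.H611R4

open Finset

theorem t_SUN (h1 : S_SPREAD) (h2 : S_MOM) : S_SUN := by
  intro X Γ _ _ _ _ F k h w R hK hh hR hk A l hl hlw hA hcard
  obtain ⟨Z, hZl, hZc, hY⟩ := h1 (X × Bool) l R A (fun Q hQ => (hA Q hQ).2) hcard
  have hm : 1 ≤ l - Z.card := by omega
  set A' := A.filter (fun Q => Z ⊆ Q) with hA'
  have hinj : Set.InjOn (fun Q : Finset (X × Bool) => Q \ Z) (A' : Set (Finset (X × Bool))) := by
    intro Q hQ Q' hQ' he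
    have hQ2 : Z ⊆ Q := (Finset.mem_filter.1 hQ).2
    have hQ'2 : Z ⊆ Q' := (Finset.mem_filter.1 hQ').2
    simp only at he
    rw [← Finset.union_sdiff_of_subset hQ2, he, Finset.union_sdiff_of_subset hQ'2]
  set G := A'.image (fun Q => Q \ Z) with hG
  have hGcard : G.card = A'.card := Finset.card_image_of_injOn hinj
  have hA'pos : 0 < A'.card := lt_of_le_of_lt (Nat.zero_le _) hZc
  obtain ⟨Q0, hQ0⟩ := Finset.card_pos.1 hA'pos
  obtain ⟨hQ0A, hQ0Z⟩ := Finset.mem_filter.1 hQ0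
  refine ⟨Z, Q0, hQ0A, ?_, ?_⟩
  · refine Finset.ssubset_iff_subset_ne.2 ⟨hQ0Z, ?_⟩
    rintro rfl
    have := (hA _ hQ0A).2
    omega
  · have hmem : ∀ Q ∈ G, Q.card = l - Z.card ∧ Disjoint Z Q ∧ Cons (Z ∪ Q) := by
      intro Q hQ
      obtain ⟨Q1, hQ1, rfl⟩ := Finset.mem_image.1 hQ
      obtain ⟨hQ1A, hQ1Z⟩ := Finset.mem_filter.1 hQ1
      refine ⟨?_, Finset.disjoint_sdiff, ?_⟩
      · rw [Finset.card_sdiff_of_subset hQ1Z, (hA _ hQ1A).2]
      · rw [Finset.union_sdiff_of_subset hQ1Z]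
        exact (hA _ hQ1A).1
    have key := h2 X Γ F k h (l - Z.card) R Z G hK hh hm
      (by
        refine le_trans ?_ hR
        apply Nat.mul_le_mul_left
        omega)
      (by
        have e1 : 2 * (l - Z.card) * h ≤ 2 * w * h := by
          apply Nat.mul_le_mul_right
          omega
        omega)
      hmem (by rw [hGcard]; exact hZc)
      (by
        intro Y hYne hYm
        by_cases hd : Disjoint Z Y
        · have hsub : G.filter (fun Q => Y ⊆ Q) ⊆
              (A.filter (fun Q => Z ∪ Y ⊆ Q)).image (fun Q => Q \ Z) := by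
            intro Q hQ
            obtain ⟨hQG, hYQ⟩ := Finset.mem_filter.1 hQ
            obtain ⟨Q1, hQ1, rfl⟩ := Finset.mem_image.1 hQG
            obtain ⟨hQ1A, hQ1Z⟩ := Finset.mem_filter.1 hQ1
            refine Finset.mem_image.2 ⟨Q1, Finset.mem_filter.2 ⟨hQ1A, ?_⟩, rfl⟩
            exact Finset.union_subset hQ1Z (hYQ.trans Finset.sdiff_subset)
          refine (Finset.card_le_card hsub).trans (Finset.card_image_le.trans ?_)
          exact hY Y hYne hd (by omega)
        · have hempty : G.filter (fun Q => Y ⊆ Q) = ∅ := by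
            apply Finset.filter_eq_empty_iff.2
            intro Q hQ hYQ
            exact hd ((hmem Q hQ).2.1.mono_right hYQ)
          rw [hempty]
          simp)
    refine le_trans (Nat.mul_le_mul_right _ (Finset.card_le_card ?_)) key
    intro γ hγ
    obtain ⟨_, hγ1, hγ2⟩ := Finset.mem_filter.1 hγ
    refine Finset.mem_filter.2 ⟨Finset.mem_univ _, hγ1, ?_⟩
    intro Q hQ
    obtain ⟨Q1, hQ1, rfl⟩ := Finset.mem_image.1 hQ
    obtain ⟨hQ1A, hQ1Z⟩ := Finset.mem_filter.1 hQ1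
    obtain ⟨v, hv, hvt⟩ := hγ2 Q1 hQ1A
    refine ⟨v, Finset.mem_sdiff.2 ⟨hv, ?_⟩, hvt⟩
    intro hvZ
    have := hγ1 v hvZ
    rw [this] at hvt
    exact Bool.false_ne_true hvt

end Pool.Agent.H611R4
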