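import Pool.Agent.H611R4.RandMain
import Pool.Agent.H611R4.TSUN
import Pool.Agent.H611R4.TSPREAD
import Pool.Agent.H611R4.TMOM
import Pool.Agent.H611R4.TM1
import Pool.Agent.H611R4.TM2
import Pool.Agent.H611R4.TM2a
import Pool.Agent.H611R4.TM2b
import Pool.Agent.H611R4.TCOSTC
import Pool.Agent.H611R4.TCOSTB
import Pool.Agent.H611R4.TRC

/-!
# Partial MCSP and Partial MBPSP
-/

set_option linter.unusedSectionVars false

namespace Pool.Agent.H611R4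

open Finset Pool.Agent.H520R2 Pool.Agent.H520R2.NM Pool.Agent.H611R3

theorem sun : S_SUN := t_SUN t_SPREAD (t_MOM t_M1 (t_M2 t_M2a t_M2b))

open Classical in
/-- Partial MCSP, with parameters. -/
theorem mcsp_param {n a p d e u s₀ s₁ s K : ℕ} (he : 1 ≤ e)
    (hde : (4 * n + 15) * 4 ^ e ≤ 2 ^ d) (hu : u ≤ d) (hue : u + 2 ≤ 2 ^ e)
    (hs₀ : 2 ^ (a + p * d + 2 * (n / 2 ^ p) + 4) ≤ s₀)
    (hs₁ : (s₁ + 1) * 2 ^ (a + 3 * d + 7) ≤ 2 ^ n)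
    {Z : Type} [Fintype Z] [Nonempty Z] (f : Z → ((Fin n → Bool) × Bool → Bool) → Bool)
    (hf : Helped s K f) (hK : K ≤ 2 ^ a) (p₀ p₁ : ℝ) (hp : p₀ + 1 / 2 ^ u ≤ p₁)
    (hT : ∀ T, H589R2.PartialMCSP n s₀ T → p₁ * Fintype.card Z ≤
      ((univ.filter (fun z => f z (H589R2.allowed T) = true)).card : ℝ))
    (hF : ∀ T, ¬ H589R2.PartialMCSP n s₁ T →
      ((univ.filter (fun z => f z (H589R2.allowed T) = true)).card : ℝ) ≤
        p₀ * Fintype.card Z) : 2 ^ 2 ^ e < 2 * s := by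
  by_contra hs
  rw [not_lt] at hs
  have hle : a + 3 * d + 7 ≤ n := by
    refine (Nat.pow_le_pow_iff_right (by norm_num : 1 < 2)).1 (le_trans ?_ hs₁)
    exact Nat.le_mul_of_pos_left _ (by omega)
  have h4e : 4 ≤ 4 ^ e := by
    calc 4 = 4 ^ 1 := by norm_num
      _ ≤ 4 ^ e := Nat.pow_le_pow_right (by norm_num) he
  have h2d : 16 * n + 60 ≤ 2 ^ d := by
    calc 16 * n + 60 = (4 * n + 15) * 4 := by ring
      _ ≤ (4 * n + 15) * 4 ^ e := Nat.mul_le_mul_left _ h4e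
      _ ≤ 2 ^ d := hde
  obtain ⟨β, hβ⟩ : ∃ β, n = a + β := ⟨n - a, by omega⟩
  have hβ1 : (s₁ + 1) * 2 ^ (3 * d + 7) ≤ 2 ^ β := by
    have h1 : (s₁ + 1) * 2 ^ (3 * d + 7) * 2 ^ a ≤ 2 ^ β * 2 ^ a := by
      calc (s₁ + 1) * 2 ^ (3 * d + 7) * 2 ^ a = (s₁ + 1) * 2 ^ (a + 3 * d + 7) := by
            rw [show a + 3 * d + 7 = (3 * d + 7) + a by ring, pow_add 2 (3 * d + 7) a]; ring
        _ ≤ 2 ^ n := hs₁
        _ = 2 ^ β * 2 ^ a := by rw [hβ, ← pow_add, add_comm β a]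
    exact Nat.le_of_mul_le_mul_right h1 (by positivity)
  refine main_rand sun hβ he hde hu hue
    {F | ∃ C : H589R2.Circuit n, C.size ≤ s₀ ∧ C.eval = F} (H589R2.smallF n s₁)
    ((2 * n + 3) * (s₁ + 1)) (H589R2.smallF_card n s₁ n ?_) ?_ ?_ f hf hK hs p₀ p₁ hp ?_ ?_
  · calc n + s₁ + 1 ≤ (s₁ + 1) * 2 ^ (a + 3 * d + 7) := by
          have h1 : 2 ^ d ≤ 2 ^ (a + 3 * d + 7) := Nat.pow_le_pow_right (by norm_num) (by omega)
          have h2 : n + 1 ≤ 2 ^ (a + 3 * d + 7) := by omega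
          calc n + s₁ + 1 ≤ (s₁ + 1) * (n + 1) := by nlinarith
            _ ≤ _ := Nat.mul_le_mul_left _ h2
      _ ≤ 2 ^ n := hs₁
  · calc ((2 * n + 3) * (s₁ + 1) + (d + 2)) * 2 ^ (2 * d + 7)
        ≤ ((s₁ + 1) * 2 ^ d) * 2 ^ (2 * d + 7) := by
          refine Nat.mul_le_mul_right _ ?_
          calc (2 * n + 3) * (s₁ + 1) + (d + 2) ≤ (s₁ + 1) * (16 * n + 60) := by nlinarith
            _ ≤ _ := Nat.mul_le_mul_left _ h2d
      _ = (s₁ + 1) * 2 ^ (3 * d + 7) := by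
          rw [mul_assoc, ← pow_add]; congr 2; ring
      _ ≤ 2 ^ β := hβ1
  · intro g hg hc
    have c1 : H589R2.Cost (∅ : Set (H589R2.Fn n)) {fun _ => false} 1 :=
      H589R2.Cost.false' (by omega)
    have c2 := t_COSTC n d a g (by omega) hg hc
    have c3 := c1.trans (c2.mono Set.subset_union_right (le_refl _) (le_refl _))
    obtain ⟨s', hs', p', -, h2⟩ := c3 0 H589R2.Gates.nil (Set.empty_subset _)
    obtain ⟨l, hl⟩ := h2 (Or.inr rfl)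
    refine ⟨⟨s', p', l⟩, ?_, ?_⟩
    · show s' ≤ s₀
      refine hs'.trans (le_trans ?_ hs₀)
      have h1 := t_RC p n d
      have h3 : 1 ≤ 2 ^ a := Nat.one_le_two_pow
      calc 0 + (1 + 2 ^ a * (H589R2.rc n d + 3)) ≤ 2 ^ a * (H589R2.rc n d + 4) := by
            rw [Nat.mul_add, Nat.mul_add]; omega
        _ ≤ 2 ^ a * 2 ^ (p * d + 2 * (n / 2 ^ p) + 4) := Nat.mul_le_mul_left _ h1
        _ = 2 ^ (a + p * d + 2 * (n / 2 ^ p) + 4) := by rw [← pow_add]; congr 1; ring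
    · funext x
      exact (hl x).symm
  · rintro T ⟨F, ⟨C, hC, rfl⟩, h⟩
    exact hT T ⟨C, hC, h⟩
  · intro T h
    refine hF T ?_
    rintro ⟨C, hC, hC'⟩
    refine h ⟨C.eval, ?_, hC'⟩
    simp only [H589R2.smallF, mem_filter, mem_univ, true_and]
    exact ⟨C, hC, rfl⟩

open Classical in
/-- Partial MBPSP, with parameters. -/
theorem mbpsp_param {n a p d e u s₀ s₁ s K : ℕ} (he : 1 ≤ e)
    (hde : (4 * n + 15) * 4 ^ e ≤ 2 ^ d) (hu : u ≤ d) (hue : u + 2 ≤ 2 ^ e)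
    (hs₀ : 2 ^ (a + (p + 1) * d + 2 * (n / 2 ^ p) + 5) ≤ s₀)
    (hs₁ : (s₁ + 1) * 2 ^ (a + 3 * d + 7) ≤ 2 ^ n)
    {Z : Type} [Fintype Z] [Nonempty Z] (f : Z → ((Fin n → Bool) × Bool → Bool) → Bool)
    (hf : Helped s K f) (hK : K ≤ 2 ^ a) (p₀ p₁ : ℝ) (hp : p₀ + 1 / 2 ^ u ≤ p₁)
    (hT : ∀ T, H589R2.PartialMBPSP n s₀ T → p₁ * Fintype.card Z ≤
      ((univ.filter (fun z => f z (H589R2.allowed T) = true)).card : ℝ))
    (hF : ∀ T, ¬ H589R2.PartialMBPSP n s₁ T →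
      ((univ.filter (fun z => f z (H589R2.allowed T) = true)).card : ℝ) ≤
        p₀ * Fintype.card Z) : 2 ^ 2 ^ e < 2 * s := by
  by_contra hs
  rw [not_lt] at hs
  have hle : a + 3 * d + 7 ≤ n := by
    refine (Nat.pow_le_pow_iff_right (by norm_num : 1 < 2)).1 (le_trans ?_ hs₁)
    exact Nat.le_mul_of_pos_left _ (by omega)
  have h4e : 4 ≤ 4 ^ e := by
    calc 4 = 4 ^ 1 := by norm_num
      _ ≤ 4 ^ e := Nat.pow_le_pow_right (by norm_num) he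
  have h2d : 16 * n + 60 ≤ 2 ^ d := by
    calc 16 * n + 60 = (4 * n + 15) * 4 := by ring
      _ ≤ (4 * n + 15) * 4 ^ e := Nat.mul_le_mul_left _ h4e
      _ ≤ 2 ^ d := hde
  obtain ⟨β, hβ⟩ : ∃ β, n = a + β := ⟨n - a, by omega⟩
  have hβ1 : (s₁ + 1) * 2 ^ (3 * d + 7) ≤ 2 ^ β := by
    have h1 : (s₁ + 1) * 2 ^ (3 * d + 7) * 2 ^ a ≤ 2 ^ β * 2 ^ a := by
      calc (s₁ + 1) * 2 ^ (3 * d + 7) * 2 ^ a = (s₁ + 1) * 2 ^ (a + 3 * d + 7) := by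
            rw [show a + 3 * d + 7 = (3 * d + 7) + a by ring, pow_add 2 (3 * d + 7) a]; ring
        _ ≤ 2 ^ n := hs₁
        _ = 2 ^ β * 2 ^ a := by rw [hβ, ← pow_add, add_comm β a]
    exact Nat.le_of_mul_le_mul_right h1 (by positivity)
  refine main_rand sun hβ he hde hu hue
    {F | ∃ C : H589R2.BP n, C.size ≤ s₀ ∧ C.eval = F} (H589R2.smallB n s₁)
    (3 * n * (s₁ + 1)) (H589R2.smallB_card n s₁ n ?_) ?_ ?_ f hf hK hs p₀ p₁ hp ?_ ?_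
  · calc n + s₁ ≤ (s₁ + 1) * 2 ^ (a + 3 * d + 7) := by
          have h1 : 2 ^ d ≤ 2 ^ (a + 3 * d + 7) := Nat.pow_le_pow_right (by norm_num) (by omega)
          have h2 : n + 1 ≤ 2 ^ (a + 3 * d + 7) := by omega
          calc n + s₁ ≤ (s₁ + 1) * (n + 1) := by nlinarith
            _ ≤ _ := Nat.mul_le_mul_left _ h2
      _ ≤ 2 ^ n := hs₁
  · calc (3 * n * (s₁ + 1) + (d + 2)) * 2 ^ (2 * d + 7)
        ≤ ((s₁ + 1) * 2 ^ d) * 2 ^ (2 * d + 7) := by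
          refine Nat.mul_le_mul_right _ ?_
          calc 3 * n * (s₁ + 1) + (d + 2) ≤ (s₁ + 1) * (16 * n + 60) := by nlinarith
            _ ≤ _ := Nat.mul_le_mul_left _ h2d
      _ = (s₁ + 1) * 2 ^ (3 * d + 7) := by
          rw [mul_assoc, ← pow_add]; congr 2; ring
      _ ≤ 2 ^ β := hβ1
  · intro g hg hc
    obtain ⟨P, hP1, hP2⟩ := H589R2.BCost.exists_BP (by omega) (t_COSTB n d a g (by omega) hg hc)
    refine ⟨P, hP1.trans (le_trans ?_ hs₀), hP2⟩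
    have h1 := t_RB p n d
    have h3 : 1 ≤ 2 ^ a := Nat.one_le_two_pow
    have h5 : H589R2.rb n d + 5 ≤ 4 * 2 ^ ((p + 1) * d + 2 * (n / 2 ^ p) + 3) := by omega
    calc 2 ^ a * (H589R2.rb n d + 1) + 4 ≤ 2 ^ a * (H589R2.rb n d + 5) := by
          rw [Nat.mul_add, Nat.mul_add]; omega
      _ ≤ 2 ^ a * (4 * 2 ^ ((p + 1) * d + 2 * (n / 2 ^ p) + 3)) := Nat.mul_le_mul_left _ h5
      _ = 2 ^ (a + (p + 1) * d + 2 * (n / 2 ^ p) + 5) := by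
          rw [show (4 : ℕ) = 2 ^ 2 by norm_num, ← pow_add, ← pow_add]; congr 1; ring
  · rintro T ⟨F, ⟨C, hC, rfl⟩, h⟩
    exact hT T ⟨by omega, C, hC, h⟩
  · intro T h
    refine hF T ?_
    rintro ⟨-, C, hC, hC'⟩
    refine h ⟨C.eval, ?_, hC'⟩
    simp only [H589R2.smallB, mem_filter, mem_univ, true_and]
    exact ⟨C, hC, rfl⟩

end Pool.Agent.H611R4
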