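import Pool.Agent.H611R4.Blocks

/-!
# The lower bound for gap problems on partial tables
-/

set_option linter.unusedSectionVars false

namespace Pool.Agent.H611R4

open Finset Pool.Agent.H520R2 Pool.Agent.H520R2.NM Pool.Agent.H611R3

/-- From circuits with few non-monotone gates to monotone programs for one block of the table. -/
theorem to_block {n a β d : ℕ} (hn : n = a + β)
    (Easy : Set (H589R2.Fn n)) (𝒞 : Finset (H589R2.Fn n))
    (heasy : ∀ g : (Fin n → Bool) → H589R2.Fn n, (∀ x, g x ∈ H589R2.RM n n d) →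
      (∀ x y, (∀ j < a, H589R2.co n j x = H589R2.co n j y) → g x = g y) →
      (fun x => g x x) ∈ Easy)
    {Z : Type} {s K : ℕ} (f : Z → ((Fin n → Bool) × Bool → Bool) → Bool) (hf : Helped s K f)
    (hK : K ≤ 2 ^ a) (QT QF : (Z → Bool) → Prop)
    (hQF : ∀ p q : Z → Bool, (∀ z, q z = true → p z = true) → QF p → QF q)
    (hT : ∀ T : (Fin n → Bool) → Option Bool, (∃ F ∈ Easy, ∀ x b, T x = some b → F x = b) →
      QT (fun z => f z (H589R2.allowed T)))
    (hF : ∀ T : (Fin n → Bool) → Option Bool, (¬ ∃ F ∈ 𝒞, ∀ x b, T x = some b → F x = b) →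
      QF (fun z => f z (H589R2.allowed T))) :
    ∃ (emb : (Fin β → Bool) → (Fin n → Bool))
      (f' : Z → ((Fin β → Bool) × Bool → Bool) → Bool), Function.Injective emb ∧
      (∀ z, MComp (VB _) (2 * s) (f' z)) ∧
      (∀ G ∈ H589R2.RM n n d, QT (fun z => f' z (tot (fun y => G (emb y))))) ∧
      (∀ T : (Fin β → Bool) → Option Bool,
        (¬ ∃ F ∈ 𝒞, ∀ y b, T y = some b → F (emb y) = b) →
        QF (fun z => f' z (H589R2.allowed T))) := by
  classical
  obtain ⟨e, he⟩ := H589R2.exists_split n a β hn
  let idx : Fin (2 ^ a) ≃ (Fin a → Bool) :=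
    (Fintype.equivFinOfCardEq (by simp)).symm
  let emb : Fin (2 ^ a) → (Fin β → Bool) → (Fin n → Bool) := fun j y => e.symm (idx j, y)
  let g : Fin (2 ^ a) → (Fin β → Bool) × Bool → (Fin n → Bool) × Bool :=
    fun j v => (emb j v.1, v.2)
  have hemb : ∀ j y j' y', emb j y = emb j' y' → j = j' ∧ y = y' := by
    intro j y j' y' h
    have h1 := e.symm.injective h
    simp only [Prod.mk.injEq] at h1
    exact ⟨idx.injective h1.1, h1.2⟩
  have hcover : ∀ z, emb (idx.symm (e z).1) (e z).2 = z := by
    intro z
    simp [emb]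
  let Pos : Fin (2 ^ a) → ((Fin β → Bool) × Bool → Bool) → Prop := fun j u =>
    ∃ G ∈ H589R2.RM n n d, u = tot (fun y => G (emb j y))
  let Neg : Fin (2 ^ a) → ((Fin β → Bool) × Bool → Bool) → Prop := fun j u =>
    ∃ T : (Fin β → Bool) → Option Bool, u = H589R2.allowed T ∧
      ¬ ∃ F ∈ 𝒞, ∀ y b, T y = some b → F (emb j y) = b
  -- every input considered encodes a table
  have htab : ∀ x : (Fin n → Bool) × Bool → Bool,
      (∀ j, Pos j (fun k => x (g j k)) ∨ Neg j (fun k => x (g j k)) ∨ ∀ k, x (g j k) = true) →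
      ∃ T : (Fin n → Bool) → Option Bool, H589R2.allowed T = x := by
    intro x hx
    refine exists_table x (fun z => ?_)
    have hz := hcover z
    rcases hx (idx.symm (e z).1) with ⟨G, -, h⟩ | ⟨T, h, -⟩ | h
    · have h1 := congrFun h ((e z).2, true)
      have h2 := congrFun h ((e z).2, false)
      simp only [g, hz, tot] at h1 h2
      rw [h1, h2]
      cases G z <;> simp
    · have h1 := congrFun h ((e z).2, true)
      have h2 := congrFun h ((e z).2, false)
      simp only [g, hz, H589R2.allowed] at h1 h2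
      rw [h1, h2]
      by_cases hT : T (e z).2 = some false
      · right; simp [hT]
      · left; simpa using hT
    · have h1 := h ((e z).2, true)
      simp only [g, hz] at h1
      exact Or.inl h1
  obtain ⟨j, f', h1, h2, h3⟩ := transfer_promise (M := 2 ^ a) g (by
      intro j k j' k' h
      simp only [g, Prod.mk.injEq] at h
      obtain ⟨h1, h2⟩ := hemb _ _ _ _ h.1
      exact ⟨h1, Prod.ext h2 h.2⟩) Pos Neg QT QF hQF f hf hK (by
    -- acceptance
    intro x _ hx
    obtain ⟨T, hTx⟩ := htab x (fun j => by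
      rcases hx j with h | h
      · exact Or.inl h
      · exact Or.inr (Or.inr h))
    have hG : ∀ j, ∃ G ∈ H589R2.RM n n d, ∀ y b, x (emb j y, !b) = false → G (emb j y) = b := by
      intro j
      rcases hx j with ⟨G, hG, h⟩ | h
      · refine ⟨G, hG, fun y b hy => ?_⟩
        have h1 := congrFun h (y, !b)
        simp only [g, tot] at h1
        rw [hy] at h1
        have h2 : ¬ (G (emb j y) = !b) := fun hh => by simp [hh] at h1
        rcases Bool.eq_false_or_eq_true (G (emb j y)) with hg | hg <;> rw [hg] at h2 ⊢ <;>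
          revert h2 <;> cases b <;> simp
      · refine ⟨fun _ => false, H589R2.RM_const n n d false, fun y b hy => ?_⟩
        have h1 := h (y, !b)
        simp only [g] at h1
        rw [hy] at h1
        exact Bool.noConfusion h1
    choose G hG1 hG2 using hG
    have := hT T ⟨fun x => G (idx.symm (e x).1) x,
      heasy (fun x => G (idx.symm (e x).1)) (fun x => hG1 _) (fun x y hxy => by
        show G (idx.symm (e x).1) = G (idx.symm (e y).1)
        rw [he x y hxy]), fun z b hz => ?_⟩
    · rw [hTx] at this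
      exact this
    · have h1 : x (z, !b) = false := by
        rw [← hTx]
        simp [H589R2.allowed, hz]
      have h2 := hG2 (idx.symm (e z).1) (e z).2 b (by rw [hcover z]; exact h1)
      rw [hcover z] at h2
      exact h2) (by
    -- rejection
    intro x _ hx hneg
    obtain ⟨T, hTx⟩ := htab x hx
    obtain ⟨j, T', hT', hno⟩ := hneg
    have := hF T (by
      rintro ⟨F, hF1, hF2⟩
      refine hno ⟨F, hF1, fun y b hy => ?_⟩
      refine hF2 (emb j y) b ?_
      have h1 := congrFun hT' (y, !b)
      simp only [g, H589R2.allowed, hy, Bool.not_not] at h1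
      rw [← hTx] at h1
      simpa [H589R2.allowed] using h1)
    rw [hTx] at this
    exact this)
  refine ⟨emb j, f', fun y y' h => (hemb _ _ _ _ h).2, h1, ?_, ?_⟩
  · intro G hG
    exact h2 _ ⟨G, hG, rfl⟩
  · intro T hT'
    exact h3 _ ⟨T, rfl, hT'⟩

end Pool.Agent.H611R4
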