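import Pool.Agent.H611R4.Props

/-!
# NEG1: probability that given bits are false in a random sparse table
-/

namespace Pool.Agent.H611R4

open Finset

/-- the allowed values at `x` -/
def NEG1_S {X : Type} [DecidableEq X] (B : ℕ) (Q : Finset (X × Bool)) (x : X) : Finset (Fin B) :=
  univ.filter (fun y => ∀ b : Bool, (x, b) ∈ Q → y.val = if b then 1 else 0)

theorem NEG1_allowed {X : Type} (B : ℕ) (ζ : X → Fin B) (x : X) (b : Bool) :
    H589R2.allowed (negT B ζ) (x, b) = false ↔ (ζ x).val = if b then 1 else 0 := by
  unfold H589R2.allowed negT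
  cases b
  · by_cases h0 : (ζ x).val = 0
    · simp [h0]
    · by_cases h1 : (ζ x).val = 1 <;> simp [h0, h1]
  · by_cases h0 : (ζ x).val = 0
    · simp [h0]
    · by_cases h1 : (ζ x).val = 1 <;> simp [h0, h1]

theorem NEG1_point {X : Type} [DecidableEq X] (B : ℕ) (Q : Finset (X × Bool)) (x : X) :
    (NEG1_S B Q x).card * B ^ (Q.filter (fun v => v.1 = x)).card ≤ B := by
  have hS1 : (NEG1_S B Q x).card ≤ B := by
    have := Finset.card_le_univ (NEG1_S B Q x)
    simpa using this
  rcases Nat.eq_zero_or_pos B with hB | hB
  · have : (NEG1_S B Q x).card = 0 := by omega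
    rw [this, zero_mul]; exact Nat.zero_le _
  by_cases ht : (x, true) ∈ Q
  · by_cases hf : (x, false) ∈ Q
    · have : NEG1_S B Q x = ∅ := by
        unfold NEG1_S
        rw [Finset.filter_eq_empty_iff]
        intro y _ h
        have h1 := h true ht
        have h2 := h false hf
        simp at h1 h2
        omega
      rw [this]; simp
    · have h1 : (NEG1_S B Q x).card ≤ 1 := by
        rw [Finset.card_le_one]
        intro a ha b hb
        unfold NEG1_S at ha hb
        rw [Finset.mem_filter] at ha hb
        have h1 := ha.2 true ht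
        have h2 := hb.2 true ht
        exact Fin.ext (h1.trans h2.symm)
      have h2 : (Q.filter (fun v => v.1 = x)).card ≤ 1 := by
        rw [Finset.card_le_one]
        rintro ⟨a1, a2⟩ ha ⟨b1, b2⟩ hb
        rw [Finset.mem_filter] at ha hb
        obtain ⟨ha1, rfl⟩ := ha
        obtain ⟨hb1, hb2⟩ := hb
        simp only at hb2
        subst hb2
        cases a2
        · exact absurd ha1 hf
        · cases b2
          · exact absurd hb1 hf
          · rfl
      calc (NEG1_S B Q x).card * B ^ (Q.filter (fun v => v.1 = x)).card ≤ 1 * B ^ 1 :=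
            Nat.mul_le_mul h1 (Nat.pow_le_pow_right hB h2)
        _ = B := by ring
  · by_cases hf : (x, false) ∈ Q
    · have h1 : (NEG1_S B Q x).card ≤ 1 := by
        rw [Finset.card_le_one]
        intro a ha b hb
        unfold NEG1_S at ha hb
        rw [Finset.mem_filter] at ha hb
        have h1 := ha.2 false hf
        have h2 := hb.2 false hf
        exact Fin.ext (h1.trans h2.symm)
      have h2 : (Q.filter (fun v => v.1 = x)).card ≤ 1 := by
        rw [Finset.card_le_one]
        rintro ⟨a1, a2⟩ ha ⟨b1, b2⟩ hb
        rw [Finset.mem_filter] at ha hb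
        obtain ⟨ha1, rfl⟩ := ha
        obtain ⟨hb1, hb2⟩ := hb
        simp only at hb2
        subst hb2
        cases a2
        · cases b2
          · rfl
          · exact absurd hb1 ht
        · exact absurd ha1 ht
      calc (NEG1_S B Q x).card * B ^ (Q.filter (fun v => v.1 = x)).card ≤ 1 * B ^ 1 :=
            Nat.mul_le_mul h1 (Nat.pow_le_pow_right hB h2)
        _ = B := by ring
    · have h2 : Q.filter (fun v => v.1 = x) = ∅ := by
        rw [Finset.filter_eq_empty_iff]
        rintro ⟨a1, a2⟩ ha hax
        simp only at hax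
        subst hax
        cases a2
        · exact hf ha
        · exact ht ha
      rw [h2]
      simpa using hS1

theorem t_NEG1 : S_NEG1 := by
  intro X _ _ B Q
  have h1 : (univ.filter (fun ζ : X → Fin B => ∀ v ∈ Q,
      H589R2.allowed (negT B ζ) v = false)) = Fintype.piFinset (NEG1_S B Q) := by
    ext ζ
    rw [Finset.mem_filter, Fintype.mem_piFinset]
    constructor
    · rintro ⟨_, h⟩ x
      unfold NEG1_S
      rw [Finset.mem_filter]
      exact ⟨mem_univ _, fun b hb => (NEG1_allowed B ζ x b).mp (h _ hb)⟩
    · intro h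
      refine ⟨mem_univ _, ?_⟩
      rintro ⟨x, b⟩ hv
      have h2 := h x
      unfold NEG1_S at h2
      rw [Finset.mem_filter] at h2
      exact (NEG1_allowed B ζ x b).mpr (h2.2 b hv)
  have h2 : Q.card = ∑ x : X, (Q.filter (fun v => v.1 = x)).card :=
    Finset.card_eq_sum_card_fiberwise (f := Prod.fst) (t := univ) (fun _ _ => by simp)
  rw [h1, Fintype.card_piFinset, h2, ← Finset.prod_pow_eq_pow_sum, ← Finset.prod_mul_distrib]
  calc ∏ x : X, ((NEG1_S B Q x).card * B ^ (Q.filter (fun v => v.1 = x)).card) ≤ ∏ _x : X, B :=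
        Finset.prod_le_prod' fun x _ => NEG1_point B Q x
    _ = B ^ Fintype.card X := by rw [Finset.prod_const, Finset.card_univ]

end Pool.Agent.H611R4
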