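import Pool.Agent.H611R4.Approx
import Pool.Agent.H611R4.TNEG1

/-!
# The monotone lower bound for one block
-/

set_option linter.unusedSectionVars false

namespace Pool.Agent.H611R4

open Finset Pool.Agent.H520R2 Pool.Agent.H520R2.NM

open Classical in
theorem allC_card {V : Type} [Fintype V] [DecidableEq V] (Cn : Finset V → Prop) (w : ℕ) :
    (allC Cn w).card ≤ (Fintype.card V + 1) ^ w := by
  have hsub : allC Cn w ⊆ (univ : Finset (Fin w → Option V)).image
      (fun f => univ.filter (fun v => ∃ i, f i = some v)) := by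
    intro Q hQ
    rw [mem_allC] at hQ
    rw [mem_image]
    refine ⟨fun i => Q.toList[i.val]?, mem_univ _, ?_⟩
    ext v
    simp only [mem_filter, mem_univ, true_and]
    rw [← Finset.mem_toList, List.mem_iff_getElem?]
    constructor
    · rintro ⟨i, hi⟩
      exact ⟨i.val, hi⟩
    · rintro ⟨i, hi⟩
      have h1 : i < Q.toList.length := by
        by_contra h
        rw [List.getElem?_eq_none (by omega)] at hi
        exact absurd hi (by simp)
      rw [Finset.length_toList] at h1
      exact ⟨⟨i, by omega⟩, hi⟩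
  calc (allC Cn w).card ≤ _ := card_le_card hsub
    _ ≤ (univ : Finset (Fin w → Option V)).card := card_image_le
    _ = _ := by simp

theorem cons_sub {X : Type} (Q Q' : Finset (X × Bool)) (h : Cons Q) (hs : Q' ⊆ Q) : Cons Q' :=
  fun x hx => h x ⟨hs hx.1, hs hx.2⟩

theorem cons_sing {X : Type} (v : X × Bool) : Cons ({v} : Finset (X × Bool)) := by
  intro x hx
  rw [mem_singleton, mem_singleton] at hx
  rw [← hx.2] at hx
  simpa using congrArg Prod.snd hx.1

theorem cons_empty {X : Type} : Cons (∅ : Finset (X × Bool)) := fun x hx => by simp at hx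

section One

variable {X Γ : Type} [Fintype X] [DecidableEq X] [Fintype Γ] [Nonempty Γ]

/-- The numerical conditions. -/
structure Params (X : Type) [Fintype X] (k w h R B t : ℕ) : Prop where
  hw : 2 ≤ w
  hh : 1 ≤ h
  hR : 8 * h * w ≤ R
  hk : w + 2 * w * h ≤ k
  hB : 8 * R ^ 2 ≤ B
  hE : 2 ^ w * ((t + Fintype.card (X × Bool) + 2) * (Fintype.card (X × Bool) + 1) ^ w) < 2 ^ h

open Classical in
theorem get_good (hS : S_SUN) {F : Γ → X → Bool} {k w h R B t : ℕ} (hk : KWise k F)
    (P : Params X k w h R B t) {D : (X × Bool → Bool) → Bool} (hD : MComp (VB (X × Bool)) t D) :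
    ∃ (A : Finset (Finset (X × Bool))) (BP : Finset Γ) (BN : Finset (X → Fin B)),
      A ⊆ allC Cons w ∧ ClosedF Cons w (2 ^ h) (fun γ => tot (F γ)) A ∧
      Appr (fun γ => tot (F γ)) (fun ζ => H589R2.allowed (negT B ζ)) A BP BN D ∧
      BP.card * 2 ^ w < Fintype.card Γ ∧
      BN.card * 8 ^ w ≤ t * Fintype.card (X → Fin B) := by
  obtain ⟨hw, hh, hR, hkk, hB, hE⟩ := P
  have hR2 : 2 ≤ R := by
    have : 8 * 1 * 2 ≤ 8 * h * w := Nat.mul_le_mul (Nat.mul_le_mul_left _ hh) hw
    omega
  have hB1 : 8 ≤ B := by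
    have : 1 ≤ R ^ 2 := Nat.one_le_pow _ _ (by omega)
    omega
  obtain ⟨L, hL, hlen, hav⟩ := hD
  have hsun : Sun Cons w R (2 ^ h) (fun γ => tot (F γ)) := by
    intro A l h1 h2 h3 h4
    exact hS X Γ F k h w R hk hh hR hkk A l h1 h2 h3 h4
  obtain ⟨BP, BN, h1, h2, h3⟩ := approx (Cn := Cons) (w := w) (R := R) (B := B) (E := 2 ^ h)
    (φ := fun γ => tot (F γ)) (ψ := fun ζ : X → Fin B => H589R2.allowed (negT B ζ)) hR2
    (by omega) (by omega) cons_sub cons_sing hsun (by
      intro Q hQ ζ
      unfold Cons at hQ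
      push Not at hQ
      obtain ⟨x, hx1, hx2⟩ := hQ
      by_cases hT : negT B ζ x = some false
      · refine ⟨(x, false), hx2, ?_⟩
        simp [H589R2.allowed, hT]
      · refine ⟨(x, true), hx1, ?_⟩
        simp [H589R2.allowed, hT]) (by
      intro Q
      have := t_NEG1 X B Q
      simpa using this) hL cons_empty
  obtain ⟨A, a1, a2, a3⟩ := h3 D hav
  refine ⟨A, BP, BN, a1, a2, a3, ?_, ?_⟩
  · have e1 : BP.card * 2 ^ h ≤ ((t + Fintype.card (X × Bool) + 2) *
        (Fintype.card (X × Bool) + 1) ^ w) * Fintype.card Γ := by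
      refine h1.trans ?_
      rw [mul_assoc]
      refine Nat.mul_le_mul (by omega) ?_
      exact Nat.mul_le_mul_right _ (allC_card _ _)
    have hΓ : 0 < Fintype.card Γ := Fintype.card_pos
    have e2 : BP.card * 2 ^ w * 2 ^ h < Fintype.card Γ * 2 ^ h := by
      calc BP.card * 2 ^ w * 2 ^ h = 2 ^ w * (BP.card * 2 ^ h) := by ring
        _ ≤ 2 ^ w * (((t + Fintype.card (X × Bool) + 2) *
            (Fintype.card (X × Bool) + 1) ^ w) * Fintype.card Γ) := Nat.mul_le_mul_left _ e1
        _ = Fintype.card Γ * (2 ^ w * ((t + Fintype.card (X × Bool) + 2) *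
            (Fintype.card (X × Bool) + 1) ^ w)) := by ring
        _ < Fintype.card Γ * 2 ^ h := Nat.mul_lt_mul_of_pos_left hE hΓ
    exact Nat.lt_of_mul_lt_mul_right e2
  · have e1 : BN.card * B ^ (w + 1) ≤ t * ((2 * R ^ w) ^ 2 * Fintype.card (X → Fin B)) :=
      h2.trans (Nat.mul_le_mul_right _ hlen)
    have e2 : 8 ^ w * (2 * R ^ w) ^ 2 ≤ B ^ (w + 1) := by
      calc 8 ^ w * (2 * R ^ w) ^ 2 = (8 * R ^ 2) ^ w * 4 := by
            rw [mul_pow, mul_pow]; ring
        _ ≤ B ^ w * B := Nat.mul_le_mul (Nat.pow_le_pow_left hB _) (by omega)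
        _ = B ^ (w + 1) := (pow_succ _ _).symm
    have e3 : (BN.card * 8 ^ w) * (2 * R ^ w) ^ 2 ≤
        (t * Fintype.card (X → Fin B)) * (2 * R ^ w) ^ 2 := by
      calc (BN.card * 8 ^ w) * (2 * R ^ w) ^ 2 = BN.card * (8 ^ w * (2 * R ^ w) ^ 2) := by ring
        _ ≤ BN.card * B ^ (w + 1) := Nat.mul_le_mul_left _ e2
        _ ≤ t * ((2 * R ^ w) ^ 2 * Fintype.card (X → Fin B)) := e1
        _ = _ := by ring
    exact Nat.le_of_mul_le_mul_right e3 (by positivity)

open Classical in
/-- A small monotone program that accepts all members of the family rejects few sparse tables. -/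
theorem univ_case (hS : S_SUN) {F : Γ → X → Bool} {k w h R B t : ℕ} (hk : KWise k F)
    (P : Params X k w h R B t) {D : (X × Bool → Bool) → Bool} (hD : MComp (VB (X × Bool)) t D)
    (hacc : ∀ γ, D (tot (F γ)) = true) :
    (univ.filter (fun ζ : X → Fin B => D (H589R2.allowed (negT B ζ)) = false)).card * 8 ^ w ≤
      t * Fintype.card (X → Fin B) := by
  obtain ⟨A, BP, BN, a1, a2, a3, a4, a5⟩ := get_good hS hk P hD
  have hA : A = ∅ := by
    rw [eq_empty_iff_forall_notMem]
    intro Q hQ
    obtain ⟨hQ1, hQ2⟩ := mem_allC.1 (a1 hQ)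
    have h1 := hk Q hQ1 (by have := P.hk; have := P.hw; nlinarith [P.hk, hQ2])
    have h2 : (univ.filter (fun γ => ∀ v ∈ Q, tot (F γ) v = false)) ⊆ BP := by
      intro γ hγ
      simp only [mem_filter, mem_univ, true_and] at hγ
      by_contra hno
      exact a3.1 γ hno (hacc γ) ⟨Q, hQ, hγ⟩
    have h3 := card_le_card h2
    have h4 : Fintype.card Γ ≤ BP.card * 2 ^ w := by
      calc Fintype.card Γ = _ := h1.symm
        _ ≤ BP.card * 2 ^ w := Nat.mul_le_mul (by convert h3)
          (Nat.pow_le_pow_right (by norm_num) hQ2)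
    omega
  refine le_trans (Nat.mul_le_mul_right _ (card_le_card ?_)) a5
  intro ζ hζ
  simp only [mem_filter, mem_univ, true_and] at hζ
  by_contra hno
  have := a3.2 ζ hno (by rw [hA]; rintro ⟨Q, hQ, -⟩; simp at hQ)
  rw [hζ] at this
  exact Bool.noConfusion this

theorem geom_small (w : ℕ) : ∑ l ∈ range (w + 1), (if l = 0 then (0 : ℝ) else (1 / 16) ^ l) ≤
    (1 - (1 / 16) ^ w) / 15 := by
  induction w with
  | zero => simp
  | succ w ih =>
    rw [sum_range_succ, if_neg (by omega)]
    have : ((1 : ℝ) / 16) ^ (w + 1) = (1 / 16) ^ w * (1 / 16) := pow_succ _ _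
    rw [this]
    linarith

open Classical in
/-- A small monotone program that accepts a noticeable part of the family rejects at most a
quarter of the sparse tables. -/
theorem exist_case (hS : S_SUN) {F : Γ → X → Bool} {k w h R B t : ℕ} (hk : KWise k F)
    (P : Params X k w h R B t) (ht : t ≤ 2 ^ w)
    {D : (X × Bool → Bool) → Bool} (hD : MComp (VB (X × Bool)) t D)
    (hacc : Fintype.card Γ ≤ (univ.filter (fun γ => D (tot (F γ)) = true)).card * 2 ^ w) :
    4 * (univ.filter (fun ζ : X → Fin B => D (H589R2.allowed (negT B ζ)) = false)).card ≤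
      Fintype.card (X → Fin B) := by
  obtain ⟨A, BP, BN, a1, a2, a3, a4, a5⟩ := get_good hS hk P hD
  have hR16 : 16 ≤ R := by
    have h1 : 8 * 1 * 2 ≤ 8 * h * w := Nat.mul_le_mul (Nat.mul_le_mul_left _ P.hh) P.hw
    have := P.hR
    omega
  have hsun : Sun Cons w R (2 ^ h) (fun γ => tot (F γ)) := by
    intro A l h1 h2 h3 h4
    exact hS X Γ F k h w R hk P.hh P.hR P.hk A l h1 h2 h3 h4
  have h0 : ∅ ∉ A := by
    intro h0
    have h1 : (univ.filter (fun γ => D (tot (F γ)) = true)) ⊆ BP := by
      intro γ hγ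
      simp only [mem_filter, mem_univ, true_and] at hγ
      by_contra hno
      exact a3.1 γ hno hγ ⟨∅, h0, by simp⟩
    have := Nat.mul_le_mul_right (2 ^ w) (card_le_card h1)
    omega
  set N : ℝ := (Fintype.card (X → Fin B) : ℝ) with hN
  -- the sparse tables hit by `A`
  have hhit : ((univ.filter (fun ζ : X → Fin B =>
      Hit A (H589R2.allowed (negT B ζ)))).card : ℝ) ≤ N / 15 := by
    have hBpos : (0 : ℝ) < (B : ℝ) := by
      have : 0 < B := by
        have := P.hB
        have h2 : 1 ≤ R ^ 2 := Nat.one_le_pow _ _ (by omega)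
        omega
      exact_mod_cast this
    have e1 : (univ.filter (fun ζ : X → Fin B => Hit A (H589R2.allowed (negT B ζ)))) ⊆
        (mins A).biUnion (fun Q => univ.filter (fun ζ : X → Fin B =>
          ∀ v ∈ Q, H589R2.allowed (negT B ζ) v = false)) := by
      intro ζ hζ
      simp only [mem_filter, mem_univ, true_and, mem_biUnion] at hζ ⊢
      obtain ⟨Q, hQ, hv⟩ := hζ
      obtain ⟨Q', hQ', hs⟩ := exists_min hQ
      exact ⟨Q', hQ', fun v hv' => hv v (hs hv')⟩
    have e2 : ∀ Q : Finset (X × Bool), ((univ.filter (fun ζ : X → Fin B =>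
        ∀ v ∈ Q, H589R2.allowed (negT B ζ) v = false)).card : ℝ) ≤ N / (B : ℝ) ^ Q.card := by
      intro Q
      rw [le_div_iff₀ (by positivity)]
      have := t_NEG1 X B Q
      have h3 : (univ.filter (fun ζ : X → Fin B => ∀ v ∈ Q,
          H589R2.allowed (negT B ζ) v = false)).card * B ^ Q.card ≤
          Fintype.card (X → Fin B) := by simpa using this
      rw [hN]
      exact_mod_cast h3
    calc ((univ.filter (fun ζ : X → Fin B => Hit A (H589R2.allowed (negT B ζ)))).card : ℝ)
        ≤ (((mins A).biUnion (fun Q => univ.filter (fun ζ : X → Fin B =>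
          ∀ v ∈ Q, H589R2.allowed (negT B ζ) v = false))).card : ℝ) := by
            exact_mod_cast card_le_card e1
      _ ≤ ∑ Q ∈ mins A, ((univ.filter (fun ζ : X → Fin B =>
          ∀ v ∈ Q, H589R2.allowed (negT B ζ) v = false)).card : ℝ) := by
            exact_mod_cast card_biUnion_le
      _ ≤ ∑ Q ∈ mins A, N / (B : ℝ) ^ Q.card := sum_le_sum (fun Q _ => e2 Q)
      _ = ∑ l ∈ range (w + 1), ∑ Q ∈ (mins A).filter (fun Q => Q.card = l),
            N / (B : ℝ) ^ Q.card := by
          rw [sum_fiberwise_of_maps_to]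
          intro Q hQ
          have := (mem_allC.1 (a1 (mem_filter.1 hQ).1)).2
          rw [mem_range]; omega
      _ ≤ ∑ l ∈ range (w + 1), N * (if l = 0 then (0 : ℝ) else (1 / 16) ^ l) := by
          refine sum_le_sum (fun l _ => ?_)
          by_cases hl : l = 0
          · subst hl
            have : (mins A).filter (fun Q => Q.card = 0) = ∅ := by
              rw [filter_eq_empty_iff]
              intro Q hQ hc
              rw [card_eq_zero] at hc
              subst hc
              exact h0 (mem_filter.1 hQ).1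
            rw [this]; simp
          · rw [if_neg hl]
            have h5 : ∑ Q ∈ (mins A).filter (fun Q => Q.card = l), N / (B : ℝ) ^ Q.card =
                (((mins A).filter (fun Q => Q.card = l)).card : ℝ) * (N / (B : ℝ) ^ l) := by
              rw [← nsmul_eq_mul, ← sum_const]
              refine sum_congr rfl (fun Q hQ => ?_)
              rw [(mem_filter.1 hQ).2]
            rw [h5]
            have h6 : (((mins A).filter (fun Q => Q.card = l)).card : ℝ) ≤ (R : ℝ) ^ l := by
              exact_mod_cast level_card cons_sub hsun a1 a2 h0 l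
            have h7 : (R : ℝ) / B ≤ 1 / 16 := by
              rw [div_le_div_iff₀ hBpos (by norm_num)]
              have h8 : 8 * R ^ 2 ≤ B := P.hB
              have h9 : R * 16 ≤ B := by nlinarith
              have : ((R * 16 : ℕ) : ℝ) ≤ (B : ℝ) := by exact_mod_cast h9
              push_cast at this
              linarith
            calc (((mins A).filter (fun Q => Q.card = l)).card : ℝ) * (N / (B : ℝ) ^ l)
                ≤ (R : ℝ) ^ l * (N / (B : ℝ) ^ l) := by gcongr
              _ = N * ((R : ℝ) / B) ^ l := by rw [div_pow]; ring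
              _ ≤ N * (1 / 16) ^ l := by gcongr
      _ = N * ∑ l ∈ range (w + 1), (if l = 0 then (0 : ℝ) else (1 / 16) ^ l) := by
          rw [mul_sum]
      _ ≤ N * ((1 - (1 / 16) ^ w) / 15) := by
          refine mul_le_mul_of_nonneg_left (geom_small w) (by positivity)
      _ ≤ N / 15 := by
          have : (0 : ℝ) ≤ (1 / 16) ^ w := by positivity
          have hN0 : (0 : ℝ) ≤ N := by positivity
          have := mul_nonneg hN0 this
          linarith
  have hsub : (univ.filter (fun ζ : X → Fin B => D (H589R2.allowed (negT B ζ)) = false)) ⊆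
      BN ∪ (univ.filter (fun ζ : X → Fin B => Hit A (H589R2.allowed (negT B ζ)))) := by
    intro ζ hζ
    simp only [mem_filter, mem_univ, true_and, mem_union] at hζ ⊢
    by_contra hno
    push Not at hno
    have := a3.2 ζ hno.1 hno.2
    rw [hζ] at this
    exact Bool.noConfusion this
  have hBN : BN.card * 16 ≤ Fintype.card (X → Fin B) := by
    have h1 : BN.card * 8 ^ w ≤ 2 ^ w * Fintype.card (X → Fin B) :=
      a5.trans (Nat.mul_le_mul_right _ ht)
    have h2 : (BN.card * 4 ^ w) * 2 ^ w ≤ Fintype.card (X → Fin B) * 2 ^ w := by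
      calc (BN.card * 4 ^ w) * 2 ^ w = BN.card * 8 ^ w := by
            rw [mul_assoc, ← mul_pow]; norm_num
        _ ≤ 2 ^ w * Fintype.card (X → Fin B) := h1
        _ = _ := by ring
    have h3 : BN.card * 4 ^ w ≤ Fintype.card (X → Fin B) :=
      Nat.le_of_mul_le_mul_right h2 (by positivity)
    have h4 : 16 ≤ 4 ^ w := by
      calc 16 = 4 ^ 2 := by norm_num
        _ ≤ 4 ^ w := Nat.pow_le_pow_right (by norm_num) P.hw
    exact (Nat.mul_le_mul_left _ h4).trans h3
  have h1 := (card_le_card hsub).trans (card_union_le _ _)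
  have h1' : ((univ.filter (fun ζ : X → Fin B =>
      D (H589R2.allowed (negT B ζ)) = false)).card : ℝ) ≤ BN.card +
      (univ.filter (fun ζ : X → Fin B => Hit A (H589R2.allowed (negT B ζ)))).card := by
    exact_mod_cast h1
  have h2' : (BN.card : ℝ) * 16 ≤ N := by rw [hN]; exact_mod_cast hBN
  have h3' : 4 * ((univ.filter (fun ζ : X → Fin B =>
      D (H589R2.allowed (negT B ζ)) = false)).card : ℝ) ≤ N := by
    have hN0 : (0 : ℝ) ≤ N := by positivity
    linarith
  rw [hN] at h3'
  exact_mod_cast h3'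

open Classical in
/-- The lower bound for one block, universal guesses. -/
theorem oneblock_univ (hS : S_SUN) {F : Γ → X → Bool} {k w h R B t : ℕ} (hk : KWise k F)
    (P : Params X k w h R B t) (ht : t ≤ 2 ^ w) {Z : Type} [Fintype Z]
    (hZ : Fintype.card Z ≤ 2 ^ w) (f : Z → (X × Bool → Bool) → Bool)
    (hf : ∀ z, MComp (VB (X × Bool)) t (f z)) (𝒞 : Set (X → Bool))
    (hhard : 4 * (univ.filter (fun ζ : X → Fin B => ∃ F ∈ 𝒞, ∀ x b, negT B ζ x = some b →
      F x = b)).card ≤ Fintype.card (X → Fin B))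
    (hT : ∀ γ z, f z (tot (F γ)) = true)
    (hF : ∀ T : X → Option Bool, (¬ ∃ F ∈ 𝒞, ∀ x b, T x = some b → F x = b) →
      ∃ z, f z (H589R2.allowed T) = false) : False := by
  set Ω := Fintype.card (X → Fin B) with hΩ
  have hcov : (univ : Finset (X → Fin B)) ⊆
      (univ.filter (fun ζ : X → Fin B => ∃ F ∈ 𝒞, ∀ x b, negT B ζ x = some b → F x = b)) ∪
      univ.biUnion (fun z => univ.filter (fun ζ : X → Fin B =>
        f z (H589R2.allowed (negT B ζ)) = false)) := by
    intro ζ _
    by_cases h : ∃ F ∈ 𝒞, ∀ x b, negT B ζ x = some b → F x = b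
    · rw [mem_union]; left; simpa using h
    · rw [mem_union]; right
      obtain ⟨z, hz⟩ := hF _ h
      simp only [mem_biUnion, mem_univ, true_and, mem_filter]
      exact ⟨z, hz⟩
  have h1 := (card_le_card hcov).trans (card_union_le _ _)
  rw [card_univ, ← hΩ] at h1
  have h2 : (univ.biUnion (fun z => univ.filter (fun ζ : X → Fin B =>
        f z (H589R2.allowed (negT B ζ)) = false))).card * 8 ^ w ≤ 4 ^ w * Ω := by
    calc _ ≤ (∑ z, (univ.filter (fun ζ : X → Fin B =>
          f z (H589R2.allowed (negT B ζ)) = false)).card) * 8 ^ w :=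
            Nat.mul_le_mul_right _ card_biUnion_le
      _ = ∑ z, (univ.filter (fun ζ : X → Fin B =>
          f z (H589R2.allowed (negT B ζ)) = false)).card * 8 ^ w := by rw [sum_mul]
      _ ≤ ∑ _z : Z, t * Ω := sum_le_sum (fun z _ => univ_case hS hk P (hf z) (fun γ => hT γ z))
      _ = Fintype.card Z * (t * Ω) := by simp
      _ ≤ 2 ^ w * (2 ^ w * Ω) := Nat.mul_le_mul hZ (Nat.mul_le_mul_right _ ht)
      _ = 4 ^ w * Ω := by rw [← mul_assoc, ← mul_pow]; norm_num
  have h3 : (univ.biUnion (fun z => univ.filter (fun ζ : X → Fin B =>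
        f z (H589R2.allowed (negT B ζ)) = false))).card * 2 ^ w ≤ Ω := by
    refine Nat.le_of_mul_le_mul_right (c := 4 ^ w) ?_ (by positivity)
    calc _ = (univ.biUnion (fun z => univ.filter (fun ζ : X → Fin B =>
        f z (H589R2.allowed (negT B ζ)) = false))).card * 8 ^ w := by
          rw [mul_assoc, ← mul_pow]; norm_num
      _ ≤ 4 ^ w * Ω := h2
      _ = _ := by ring
  have h4 : 4 ≤ 2 ^ w := by
    calc 4 = 2 ^ 2 := by norm_num
      _ ≤ 2 ^ w := Nat.pow_le_pow_right (by norm_num) P.hw
  have h5 := (Nat.mul_le_mul_left (univ.biUnion (fun z => univ.filter (fun ζ : X → Fin B =>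
        f z (H589R2.allowed (negT B ζ)) = false))).card h4).trans h3
  have hB0 : 0 < B := by
    have := P.hB
    have h6 : 8 * 1 * 2 ≤ 8 * h * w := Nat.mul_le_mul (Nat.mul_le_mul_left _ P.hh) P.hw
    have h7 := P.hR
    have h8 : 1 ≤ R ^ 2 := Nat.one_le_pow _ _ (by omega)
    omega
  have hpos : 0 < Ω := by
    rw [hΩ]
    haveI : Nonempty (Fin B) := ⟨⟨0, hB0⟩⟩
    exact Fintype.card_pos
  omega

open Classical in
/-- The lower bound for one block, existential guesses. -/
theorem oneblock_exist (hS : S_SUN) {F : Γ → X → Bool} {k w h R B t : ℕ} (hk : KWise k F)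
    (P : Params X k w h R B t) (ht : t ≤ 2 ^ w) {Z : Type} [Fintype Z]
    (hZ : Fintype.card Z ≤ 2 ^ w) (f : Z → (X × Bool → Bool) → Bool)
    (hf : ∀ z, MComp (VB (X × Bool)) t (f z)) (𝒞 : Set (X → Bool))
    (hhard : 4 * (univ.filter (fun ζ : X → Fin B => ∃ F ∈ 𝒞, ∀ x b, negT B ζ x = some b →
      F x = b)).card ≤ Fintype.card (X → Fin B))
    (hT : ∀ γ, ∃ z, f z (tot (F γ)) = true)
    (hF : ∀ T : X → Option Bool, (¬ ∃ F ∈ 𝒞, ∀ x b, T x = some b → F x = b) →
      ∀ z, f z (H589R2.allowed T) = false) : False := by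
  -- some `z` accepts a noticeable part of the family
  obtain ⟨z, hz⟩ : ∃ z, Fintype.card Γ ≤
      (univ.filter (fun γ => f z (tot (F γ)) = true)).card * 2 ^ w := by
    by_contra hno
    push Not at hno
    have hcov : (univ : Finset Γ) ⊆ univ.biUnion (fun z : Z =>
        univ.filter (fun γ => f z (tot (F γ)) = true)) := by
      intro γ _
      obtain ⟨z, hz⟩ := hT γ
      simp only [mem_biUnion, mem_univ, true_and, mem_filter]
      exact ⟨z, hz⟩
    have h1 : Fintype.card Γ ≤ ∑ z : Z, (univ.filter (fun γ => f z (tot (F γ)) = true)).card := by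
      rw [← card_univ]
      exact (card_le_card hcov).trans card_biUnion_le
    have hΓ : 0 < Fintype.card Γ := Fintype.card_pos
    have hZne : (univ : Finset Z).Nonempty := by
      obtain ⟨γ⟩ := (inferInstance : Nonempty Γ)
      obtain ⟨z, -⟩ := hT γ
      exact ⟨z, mem_univ _⟩
    have h2 : (∑ z : Z, (univ.filter (fun γ => f z (tot (F γ)) = true)).card) * 2 ^ w <
        2 ^ w * Fintype.card Γ := by
      calc _ = ∑ z : Z, (univ.filter (fun γ => f z (tot (F γ)) = true)).card * 2 ^ w := by
            rw [sum_mul]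
        _ < ∑ _z : Z, Fintype.card Γ := sum_lt_sum_of_nonempty hZne (fun z _ => hno z)
        _ = Fintype.card Z * Fintype.card Γ := by simp
        _ ≤ _ := Nat.mul_le_mul_right _ hZ
    have h3 := Nat.mul_le_mul_right (2 ^ w) h1
    rw [mul_comm (2 ^ w) (Fintype.card Γ)] at h2
    omega
  have h1 := exist_case hS hk P ht (hf z) hz
  have hcov : (univ : Finset (X → Fin B)) ⊆
      (univ.filter (fun ζ : X → Fin B => ∃ F ∈ 𝒞, ∀ x b, negT B ζ x = some b → F x = b)) ∪
      (univ.filter (fun ζ : X → Fin B => f z (H589R2.allowed (negT B ζ)) = false)) := by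
    intro ζ _
    by_cases h : ∃ F ∈ 𝒞, ∀ x b, negT B ζ x = some b → F x = b
    · rw [mem_union]; left; simpa using h
    · rw [mem_union]; right
      simpa using hF _ h z
  have h2 := (card_le_card hcov).trans (card_union_le _ _)
  rw [card_univ] at h2
  have hB0 : 0 < B := by
    have := P.hB
    have h6 : 8 * 1 * 2 ≤ 8 * h * w := Nat.mul_le_mul (Nat.mul_le_mul_left _ P.hh) P.hw
    have h7 := P.hR
    have h8 : 1 ≤ R ^ 2 := Nat.one_le_pow _ _ (by omega)
    omega
  have hpos : 0 < Fintype.card (X → Fin B) := by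
    haveI : Nonempty (Fin B) := ⟨⟨0, hB0⟩⟩
    exact Fintype.card_pos
  omega

end One

end Pool.Agent.H611R4
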