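import Pool.Agent.H589R2.Circ
import Pool.Agent.H589R2.BPs
import Pool.Agent.H611R3.Transfer

/-!
# Statements (project GAP): monotone lower bounds for gap versions of Partial MCSP / MBPSP
-/

namespace Pool.Agent.H611R4

open Finset

/-- A set of pairs (point, value) is consistent if no point gets both values. -/
def Cons {X : Type} (Q : Finset (X × Bool)) : Prop := ∀ x, ¬ ((x, true) ∈ Q ∧ (x, false) ∈ Q)

/-- The encoding (bit `(x, b)`: value `b` is allowed at `x`) of a total function. -/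
def tot {X : Type} (F : X → Bool) : X × Bool → Bool := fun v => decide (F v.1 = v.2)

/-- `k`-wise independence of a family of total functions (stated for the bits of the encoding). -/
def KWise {X Γ : Type} [Fintype Γ] (k : ℕ) (F : Γ → X → Bool) : Prop :=
  ∀ Q : Finset (X × Bool), Cons Q → Q.card ≤ k →
    (univ.filter (fun γ => ∀ v ∈ Q, tot (F γ) v = false)).card * 2 ^ Q.card = Fintype.card Γ

/-- The number (as a real) of members of `G` which lie in colour class `i` of `χ` and all of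
whose bits are false at `F γ`. -/
noncomputable def Xc {X Γ : Type} {h : ℕ} [DecidableEq X] (G : Finset (Finset (X × Bool)))
    (F : Γ → X → Bool) (χ : X → Fin h) (i : Fin h) (γ : Γ) : ℝ :=
  ((G.filter (fun Q => (∀ v ∈ Q, χ v.1 = i) ∧ ∀ v ∈ Q, tot (F γ) v = false)).card : ℝ)

/-- mean of `(1 - Xc / μ) ^ 2` -/
noncomputable def zz {X Γ : Type} {h : ℕ} [DecidableEq X] [Fintype Γ]
    (G : Finset (Finset (X × Bool))) (F : Γ → X → Bool) (μ : ℝ) (χ : X → Fin h) (i : Fin h) : ℝ :=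
  (∑ γ, (1 - Xc G F χ i γ / μ) ^ 2) / (Fintype.card Γ : ℝ)

/-- Random sparse partial tables: value `0` of `ζ x` means `true`, value `1` means `false`, all
other values mean `*`. -/
def negT {X : Type} (B : ℕ) (ζ : X → Fin B) : X → Option Bool :=
  fun x => if (ζ x).val = 0 then some true else if (ζ x).val = 1 then some false else none

/-- spread sublemma -/
def S_SPREAD : Prop := ∀ (V : Type) [DecidableEq V] (l R : ℕ) (A : Finset (Finset V)),
  (∀ Q ∈ A, Q.card = l) → R ^ l < A.card →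
  ∃ Z : Finset V, Z.card < l ∧ R ^ (l - Z.card) < (A.filter (fun Q => Z ⊆ Q)).card ∧
    ∀ Y : Finset V, Y.Nonempty → Disjoint Z Y → Z.card + Y.card ≤ l →
      (A.filter (fun Q => Z ∪ Y ⊆ Q)).card ≤ R ^ (l - Z.card - Y.card)

/-- product formula -/
def S_M1 : Prop := ∀ (X Γ : Type) [Fintype X] [DecidableEq X] [Fintype Γ] [Nonempty Γ]
  (F : Γ → X → Bool) (k h m : ℕ) (Z : Finset (X × Bool)) (G : Finset (Finset (X × Bool)))
  (μ : ℝ) (χ : X → Fin h),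
  KWise k F → Cons Z → Z.card + 2 * m * h ≤ k →
  (∀ Q ∈ G, Q.card = m ∧ Disjoint Z Q ∧ Cons (Z ∪ Q)) →
  (∑ γ : Γ, (if ∀ v ∈ Z, tot (F γ) v = false then (1 : ℝ) else 0) *
      ∏ i : Fin h, (1 - Xc G F χ i γ / μ) ^ 2) =
    (Fintype.card Γ : ℝ) * (1 / 2) ^ Z.card * ∏ i : Fin h, zz G F μ χ i

open Classical in
/-- the double sum -/
def S_M2a : Prop := ∀ (X : Type) [DecidableEq X] (h m R : ℕ) (G : Finset (Finset (X × Bool))),
  1 ≤ h → 1 ≤ R → (∀ Q ∈ G, Q.card = m) → R ^ m < G.card →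
  (∀ Y : Finset (X × Bool), Y.Nonempty → Y.card ≤ m →
    (G.filter (fun Q => Y ⊆ Q)).card ≤ R ^ (m - Y.card)) →
  (∑ Q ∈ G, ∑ Q' ∈ G, if Cons (Q ∪ Q') then (1 / (2 * h) : ℝ) ^ (Q ∪ Q').card else 0) ≤
    (1 / (2 * h) : ℝ) ^ (2 * m) * (G.card : ℝ) ^ 2 * (1 + 2 * h / R) ^ m

open Classical in
/-- exact average over the colourings -/
def S_M2b : Prop := ∀ (X Γ : Type) [Fintype X] [DecidableEq X] [Fintype Γ] [Nonempty Γ]
  (F : Γ → X → Bool) (k h m : ℕ) (G : Finset (Finset (X × Bool))) (μ : ℝ),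
  KWise k F → 1 ≤ h → 2 * m ≤ k → (∀ Q ∈ G, Q.card = m ∧ Cons Q) →
  ∀ i : Fin h, (∑ χ : X → Fin h, zz G F μ χ i) =
    (Fintype.card (X → Fin h) : ℝ) * (1 - 2 * ((G.card : ℝ) * (1 / (2 * h)) ^ m) / μ +
      (∑ Q ∈ G, ∑ Q' ∈ G, if Cons (Q ∪ Q') then (1 / (2 * h) : ℝ) ^ (Q ∪ Q').card else 0) /
        μ ^ 2)

/-- average over the colourings -/
def S_M2 : Prop := ∀ (X Γ : Type) [Fintype X] [DecidableEq X] [Fintype Γ] [Nonempty Γ]
  (F : Γ → X → Bool) (k h m R : ℕ) (G : Finset (Finset (X × Bool))),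
  KWise k F → 1 ≤ h → 1 ≤ m → 8 * h * m ≤ R → 2 * m ≤ k →
  (∀ Q ∈ G, Q.card = m ∧ Cons Q) → R ^ m < G.card →
  (∀ Y : Finset (X × Bool), Y.Nonempty → Y.card ≤ m →
    (G.filter (fun Q => Y ⊆ Q)).card ≤ R ^ (m - Y.card)) →
  ∀ i : Fin h, (∑ χ : X → Fin h, zz G F ((G.card : ℝ) / (2 * h) ^ m) χ i) ≤
    (1 / 2) * (Fintype.card (X → Fin h) : ℝ)

/-- few `γ` falsify `Z` but no member of `G` -/
def S_MOM : Prop := ∀ (X Γ : Type) [Fintype X] [DecidableEq X] [Fintype Γ] [Nonempty Γ]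
  (F : Γ → X → Bool) (k h m R : ℕ) (Z : Finset (X × Bool)) (G : Finset (Finset (X × Bool))),
  KWise k F → 1 ≤ h → 1 ≤ m → 8 * h * m ≤ R → Z.card + 2 * m * h ≤ k →
  (∀ Q ∈ G, Q.card = m ∧ Disjoint Z Q ∧ Cons (Z ∪ Q)) → R ^ m < G.card →
  (∀ Y : Finset (X × Bool), Y.Nonempty → Y.card ≤ m →
    (G.filter (fun Q => Y ⊆ Q)).card ≤ R ^ (m - Y.card)) →
  (univ.filter (fun γ => (∀ v ∈ Z, tot (F γ) v = false) ∧
    ∀ Q ∈ G, ∃ v ∈ Q, tot (F γ) v = true)).card * 2 ^ h ≤ Fintype.card Γ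

/-- sunflower property for `k`-wise independent families -/
def S_SUN : Prop := ∀ (X Γ : Type) [Fintype X] [DecidableEq X] [Fintype Γ] [Nonempty Γ]
  (F : Γ → X → Bool) (k h w R : ℕ),
  KWise k F → 1 ≤ h → 8 * h * w ≤ R → w + 2 * w * h ≤ k →
  ∀ (A : Finset (Finset (X × Bool))) (l : ℕ), 1 ≤ l → l ≤ w →
    (∀ Q ∈ A, Cons Q ∧ Q.card = l) → R ^ l < A.card →
    ∃ Z, ∃ Q ∈ A, Z ⊂ Q ∧
      (univ.filter (fun γ => (∀ v ∈ Z, tot (F γ) v = false) ∧
        ∀ Q ∈ A, ∃ v ∈ Q, tot (F γ) v = true)).card * 2 ^ h ≤ Fintype.card Γ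

/-- independence of Reed-Muller polynomials of degree `d`, restricted along an injection -/
def S_RMI : Prop := ∀ (n d : ℕ) (Y : Type) [DecidableEq Y] (e : Y → (Fin n → Bool))
  [Fintype ↥(H589R2.RM n n d)], Function.Injective e →
  KWise (2 ^ d) (fun (g : ↥(H589R2.RM n n d)) (y : Y) => g.1 (e y))

/-- probability that the bits of `Q` are all false in a random sparse table -/
def S_NEG1 : Prop := ∀ (X : Type) [Fintype X] [DecidableEq X] (B : ℕ) (Q : Finset (X × Bool)),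
  (univ.filter (fun ζ : X → Fin B => ∀ v ∈ Q,
    H589R2.allowed (negT B ζ) v = false)).card * B ^ Q.card ≤ B ^ Fintype.card X

/-- random sparse tables are hard -/
def S_NEG2 : Prop := ∀ (X : Type) [Fintype X] [DecidableEq X] (B L : ℕ)
  (𝒞 : Finset (X → Bool)), 2 ≤ B → 𝒞.card ≤ 2 ^ L → (L + 2) * B ≤ Fintype.card X →
  4 * (univ.filter (fun ζ : X → Fin B => ∃ F ∈ 𝒞, ∀ x b, negT B ζ x = some b →
    F x = b)).card ≤ B ^ Fintype.card X

/-- piecewise Reed-Muller functions, circuits -/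
def S_COSTC : Prop := ∀ (n d a : ℕ) (g : (Fin n → Bool) → H589R2.Fn n), a ≤ n →
  (∀ x, g x ∈ H589R2.RM n n d) →
  (∀ x y, (∀ j < a, H589R2.co n j x = H589R2.co n j y) → g x = g y) →
  H589R2.Cost ({fun _ => false} : Set (H589R2.Fn n)) {fun x => g x x}
    (2 ^ a * (H589R2.rc n d + 3))

/-- piecewise Reed-Muller functions, branching programs -/
def S_COSTB : Prop := ∀ (n d a : ℕ) (g : (Fin n → Bool) → H589R2.Fn n), a ≤ n →
  (∀ x, g x ∈ H589R2.RM n n d) →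
  (∀ x y, (∀ j < a, H589R2.co n j x = H589R2.co n j y) → g x = g y) →
  H589R2.BCost (fun x => g x x) (2 ^ a * (H589R2.rb n d + 1))

def S_RC : Prop := ∀ p n d : ℕ, H589R2.rc n d + 4 ≤ 2 ^ (p * d + 2 * (n / 2 ^ p) + 4)

def S_RB : Prop := ∀ p n d : ℕ, H589R2.rb n d + 2 ≤ 2 ^ ((p + 1) * d + 2 * (n / 2 ^ p) + 3)

open Pool.Agent.H520R2 Pool.Agent.H520R2.NM Pool.Agent.H611R3 in
/-- transfer for promise conjunctions -/
def S_TR : Prop := ∀ (κ ι Z : Type) (M s R : ℕ) (g : Fin M → κ → ι),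
  (∀ j k j' k', g j k = g j' k' → j = j' ∧ k = k') →
  ∀ (Pos Neg : (κ → Bool) → Prop) (QT QF : (Z → Bool) → Prop),
  (∀ p q : Z → Bool, (∀ z, q z = true → p z = true) → QF p → QF q) →
  ∀ (f : Z → (ι → Bool) → Bool), Helped s R f → R ≤ M →
  (∀ x, Supp g true x → (∀ j, Pos (fun k => x (g j k)) ∨ ∀ k, x (g j k) = true) →
    QT (fun z => f z x)) →
  (∀ x, Supp g true x →
    (∀ j, Pos (fun k => x (g j k)) ∨ Neg (fun k => x (g j k)) ∨ ∀ k, x (g j k) = true) →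
    (∃ j, Neg (fun k => x (g j k))) → QF (fun z => f z x)) →
  ∃ f' : Z → (κ → Bool) → Bool, (∀ z, MComp (VB κ) (2 * s) (f' z)) ∧
    (∀ y, Pos y → QT (fun z => f' z y)) ∧ (∀ y, Neg y → QF (fun z => f' z y))

end Pool.Agent.H611R4
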