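import Mathlib

/-!
# Statements (project GAP): choice of the parameters
-/

namespace Pool.Agent.H611R4

/-- choice of the parameters -/
def S_NUM : Prop := ∀ α δ : ℝ, 0 ≤ α → 0 < δ → ∃ c : ℝ, 0 < c ∧ ∃ n₀ : ℕ, ∀ n : ℕ, n₀ ≤ n →
  ∃ a p d e u : ℕ, 1 ≤ e ∧ (4 * n + 15) * 4 ^ e ≤ 2 ^ d ∧ u ≤ d ∧ u + 2 ≤ 2 ^ e ∧
    α * n ≤ a ∧ (a : ℝ) + (p + 1) * d + 2 * ((n / 2 ^ p : ℕ) : ℝ) + 5 ≤ (α + δ) * n ∧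
    (1 - α - δ) * n + 1 + a + 3 * d + 7 ≤ n ∧ c * n ≤ u ∧ (2 : ℝ) ^ (c * n) + 1 ≤ 2 ^ e

end Pool.Agent.H611R4
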