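import Pool.Agent.H611R4.Main

/-!
# Randomised circuits with two-sided error
-/

set_option linter.unusedSectionVars false

namespace Pool.Agent.H611R4

open Finset Pool.Agent.H520R2 Pool.Agent.H520R2.NM Pool.Agent.H611R3

theorem neg2_num (B L v N : ℕ) (hB : 2 ≤ B) (hN : (L + v) * B ≤ N) :
    2 ^ v * (2 ^ L * (B - 1) ^ N) ≤ B ^ N := by
  obtain ⟨r, rfl⟩ := Nat.exists_eq_add_of_le hN
  have h1 : (2 * (B - 1) ^ B) ^ (L + v) ≤ (B ^ B) ^ (L + v) :=
    Nat.pow_le_pow_left (NEG2_bern B hB) _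
  have h2 : (B - 1) ^ r ≤ B ^ r := Nat.pow_le_pow_left (by omega) r
  calc 2 ^ v * (2 ^ L * (B - 1) ^ ((L + v) * B + r))
      = (2 * (B - 1) ^ B) ^ (L + v) * (B - 1) ^ r := by
        rw [mul_pow, ← pow_mul, pow_add, pow_add, mul_comm B (L + v)]
        ring
    _ ≤ (B ^ B) ^ (L + v) * B ^ r := Nat.mul_le_mul h1 h2
    _ = B ^ ((L + v) * B + r) := by rw [← pow_mul, pow_add, mul_comm B (L + v)]

open Classical in
theorem neg2 (X : Type) [Fintype X] [DecidableEq X] (B L v : ℕ)
    (𝒞 : Finset (X → Bool)) (hB : 2 ≤ B) (h𝒞 : 𝒞.card ≤ 2 ^ L)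
    (hN : (L + v) * B ≤ Fintype.card X) :
    2 ^ v * (univ.filter (fun ζ : X → Fin B => ∃ F ∈ 𝒞, ∀ x b, negT B ζ x = some b →
      F x = b)).card ≤ B ^ Fintype.card X := by
  have h1 : (univ.filter (fun ζ : X → Fin B => ∃ F ∈ 𝒞, ∀ x b, negT B ζ x = some b →
      F x = b)).card ≤ 2 ^ L * (B - 1) ^ Fintype.card X := by
    calc (univ.filter (fun ζ : X → Fin B => ∃ F ∈ 𝒞, ∀ x b, negT B ζ x = some b →
          F x = b)).card
        ≤ (𝒞.biUnion fun F => univ.filter
          (fun ζ : X → Fin B => ∀ x b, negT B ζ x = some b → F x = b)).card := by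
          apply card_le_card
          intro ζ hζ
          rw [mem_filter] at hζ
          obtain ⟨F, hF, h⟩ := hζ.2
          rw [mem_biUnion]
          exact ⟨F, hF, mem_filter.2 ⟨mem_univ _, h⟩⟩
      _ ≤ ∑ F ∈ 𝒞, (univ.filter
          (fun ζ : X → Fin B => ∀ x b, negT B ζ x = some b → F x = b)).card := card_biUnion_le
      _ ≤ ∑ F ∈ 𝒞, (B - 1) ^ Fintype.card X := sum_le_sum fun F _ => by
          have := NEG2_count B hB F
          convert this
      _ = 𝒞.card * (B - 1) ^ Fintype.card X := by rw [sum_const, smul_eq_mul]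
      _ ≤ 2 ^ L * (B - 1) ^ Fintype.card X := Nat.mul_le_mul_right _ h𝒞
  exact (Nat.mul_le_mul_left _ h1).trans (neg2_num B L v _ hB hN)

open Classical in
theorem hard_block' {n β d v : ℕ} (𝒞 : Finset (H589R2.Fn n)) (L : ℕ) (hcard : 𝒞.card ≤ 2 ^ L)
    (hL : (L + v) * 2 ^ (2 * d + 7) ≤ 2 ^ β) (emb : (Fin β → Bool) → (Fin n → Bool)) :
    ∃ S : Set ((Fin β → Bool) → Bool), (∀ F' ∈ 𝒞, (fun y => F' (emb y)) ∈ S) ∧
    2 ^ v * (univ.filter (fun ζ : (Fin β → Bool) → Fin (2 ^ (2 * d + 7)) =>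
      ∃ F ∈ S, ∀ x b, negT (2 ^ (2 * d + 7)) ζ x = some b → F x = b)).card ≤
      Fintype.card ((Fin β → Bool) → Fin (2 ^ (2 * d + 7))) := by
  have h := neg2 (Fin β → Bool) (2 ^ (2 * d + 7)) L v
    (𝒞.image (fun F' => fun y => F' (emb y))) (by
      calc 2 = 2 ^ 1 := by norm_num
        _ ≤ _ := Nat.pow_le_pow_right (by norm_num) (by omega))
    (card_image_le.trans hcard) (by simpa using hL)
  have e1 : Fintype.card ((Fin β → Bool) → Fin (2 ^ (2 * d + 7))) =
      (2 ^ (2 * d + 7)) ^ Fintype.card (Fin β → Bool) := by simp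
  refine ⟨fun F => ∃ F' ∈ 𝒞, F = fun y => F' (emb y), fun F' hF' => ⟨F', hF', rfl⟩, ?_⟩
  rw [e1]
  refine le_trans (Nat.mul_le_mul_left _ (card_le_card ?_)) h
  intro ζ hζ
  rw [mem_filter] at hζ ⊢
  refine ⟨mem_univ _, ?_⟩
  obtain ⟨-, F, ⟨F', hF', rfl⟩, hF⟩ := hζ
  exact ⟨_, mem_image_of_mem _ hF', hF⟩

theorem geom_q (q : ℝ) (h0 : 0 ≤ q) (hq : q ≤ 1 / 2) (w : ℕ) :
    ∑ l ∈ range (w + 1), (if l = 0 then (0 : ℝ) else q ^ l) ≤ 2 * q - 2 * q ^ (w + 1) := by
  induction w with
  | zero => simp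
  | succ w ih =>
    rw [sum_range_succ, if_neg (by omega)]
    have h1 : q ^ (w + 2) = q ^ (w + 1) * q := pow_succ _ _
    have h2 : 0 ≤ q ^ (w + 1) := pow_nonneg h0 _
    rw [show w + 1 + 1 = w + 2 by rfl, h1]
    nlinarith

section One

variable {X Γ : Type} [Fintype X] [DecidableEq X] [Fintype Γ] [Nonempty Γ]

open Classical in
/-- A small monotone program either accepts a tiny part of the family or rejects few sparse
tables. -/
theorem two_case (hS : S_SUN) {F : Γ → X → Bool} {k w h R B t : ℕ} (hk : KWise k F)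
    (P : Params X k w h R B t) (ht : t ≤ 2 ^ w)
    {D : (X × Bool → Bool) → Bool} (hD : MComp (VB (X × Bool)) t D) :
    (univ.filter (fun γ => D (tot (F γ)) = true)).card * 2 ^ w < Fintype.card Γ ∨
    ((univ.filter (fun ζ : X → Fin B => D (H589R2.allowed (negT B ζ)) = false)).card : ℝ) ≤
      (Fintype.card (X → Fin B) : ℝ) * (1 / 4 ^ w + 2 * ((R : ℝ) / B)) := by
  obtain ⟨A, BP, BN, a1, a2, a3, a4, a5⟩ := get_good hS hk P hD
  have hR16 : 16 ≤ R := by
    have h1 : 8 * 1 * 2 ≤ 8 * h * w := Nat.mul_le_mul (Nat.mul_le_mul_left _ P.hh) P.hw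
    have := P.hR
    omega
  have hsun : Sun Cons w R (2 ^ h) (fun γ => tot (F γ)) := by
    intro A l h1 h2 h3 h4
    exact hS X Γ F k h w R hk P.hh P.hR P.hk A l h1 h2 h3 h4
  by_cases h0 : ∅ ∈ A
  · left
    have h1 : (univ.filter (fun γ => D (tot (F γ)) = true)) ⊆ BP := by
      intro γ hγ
      simp only [mem_filter, mem_univ, true_and] at hγ
      by_contra hno
      exact a3.1 γ hno hγ ⟨∅, h0, by simp⟩
    exact (Nat.mul_le_mul_right (2 ^ w) (card_le_card h1)).trans_lt a4
  right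
  set N : ℝ := (Fintype.card (X → Fin B) : ℝ) with hN
  have hN0 : (0 : ℝ) ≤ N := by positivity
  have hBpos : (0 : ℝ) < (B : ℝ) := by
    have : 0 < B := by
      have := P.hB
      have h2 : 1 ≤ R ^ 2 := Nat.one_le_pow _ _ (by omega)
      omega
    exact_mod_cast this
  have h7 : (R : ℝ) / B ≤ 1 / 2 := by
    rw [div_le_div_iff₀ hBpos (by norm_num)]
    have h8 : 8 * R ^ 2 ≤ B := P.hB
    have h9 : R * 2 ≤ B := by nlinarith
    have : ((R * 2 : ℕ) : ℝ) ≤ (B : ℝ) := by exact_mod_cast h9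
    push_cast at this
    linarith
  have hq0 : (0 : ℝ) ≤ (R : ℝ) / B := by positivity
  -- the sparse tables hit by `A`
  have hhit : ((univ.filter (fun ζ : X → Fin B =>
      Hit A (H589R2.allowed (negT B ζ)))).card : ℝ) ≤ N * (2 * ((R : ℝ) / B)) := by
    have e1 : (univ.filter (fun ζ : X → Fin B => Hit A (H589R2.allowed (negT B ζ)))) ⊆
        (mins A).biUnion (fun Q => univ.filter (fun ζ : X → Fin B =>
          ∀ v ∈ Q, H589R2.allowed (negT B ζ) v = false)) := by
      intro ζ hζ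
      simp only [mem_filter, mem_univ, true_and, mem_biUnion] at hζ ⊢
      obtain ⟨Q, hQ, hv⟩ := hζ
      obtain ⟨Q', hQ', hs⟩ := exists_min hQ
      exact ⟨Q', hQ', fun v hv' => hv v (hs hv')⟩
    have e2 : ∀ Q : Finset (X × Bool), ((univ.filter (fun ζ : X → Fin B =>
        ∀ v ∈ Q, H589R2.allowed (negT B ζ) v = false)).card : ℝ) ≤ N / (B : ℝ) ^ Q.card := by
      intro Q
      rw [le_div_iff₀ (by positivity)]
      have := t_NEG1 X B Q
      have h3 : (univ.filter (fun ζ : X → Fin B => ∀ v ∈ Q,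
          H589R2.allowed (negT B ζ) v = false)).card * B ^ Q.card ≤
          Fintype.card (X → Fin B) := by simpa using this
      rw [hN]
      exact_mod_cast h3
    calc ((univ.filter (fun ζ : X → Fin B => Hit A (H589R2.allowed (negT B ζ)))).card : ℝ)
        ≤ (((mins A).biUnion (fun Q => univ.filter (fun ζ : X → Fin B =>
          ∀ v ∈ Q, H589R2.allowed (negT B ζ) v = false))).card : ℝ) := by
            exact_mod_cast card_le_card e1
      _ ≤ ∑ Q ∈ mins A, ((univ.filter (fun ζ : X → Fin B =>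
          ∀ v ∈ Q, H589R2.allowed (negT B ζ) v = false)).card : ℝ) := by
            exact_mod_cast card_biUnion_le
      _ ≤ ∑ Q ∈ mins A, N / (B : ℝ) ^ Q.card := sum_le_sum (fun Q _ => e2 Q)
      _ = ∑ l ∈ range (w + 1), ∑ Q ∈ (mins A).filter (fun Q => Q.card = l),
            N / (B : ℝ) ^ Q.card := by
          rw [sum_fiberwise_of_maps_to]
          intro Q hQ
          have := (mem_allC.1 (a1 (mem_filter.1 hQ).1)).2
          rw [mem_range]; omega
      _ ≤ ∑ l ∈ range (w + 1), N * (if l = 0 then (0 : ℝ) else ((R : ℝ) / B) ^ l) := by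
          refine sum_le_sum (fun l _ => ?_)
          by_cases hl : l = 0
          · subst hl
            have : (mins A).filter (fun Q => Q.card = 0) = ∅ := by
              rw [filter_eq_empty_iff]
              intro Q hQ hc
              rw [card_eq_zero] at hc
              subst hc
              exact h0 (mem_filter.1 hQ).1
            rw [this]; simp
          · rw [if_neg hl]
            have h5 : ∑ Q ∈ (mins A).filter (fun Q => Q.card = l), N / (B : ℝ) ^ Q.card =
                (((mins A).filter (fun Q => Q.card = l)).card : ℝ) * (N / (B : ℝ) ^ l) := by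
              rw [← nsmul_eq_mul, ← sum_const]
              refine sum_congr rfl (fun Q hQ => ?_)
              rw [(mem_filter.1 hQ).2]
            rw [h5]
            have h6 : (((mins A).filter (fun Q => Q.card = l)).card : ℝ) ≤ (R : ℝ) ^ l := by
              exact_mod_cast level_card cons_sub hsun a1 a2 h0 l
            calc (((mins A).filter (fun Q => Q.card = l)).card : ℝ) * (N / (B : ℝ) ^ l)
                ≤ (R : ℝ) ^ l * (N / (B : ℝ) ^ l) := by gcongr
              _ = N * ((R : ℝ) / B) ^ l := by rw [div_pow]; ring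
      _ = N * ∑ l ∈ range (w + 1), (if l = 0 then (0 : ℝ) else ((R : ℝ) / B) ^ l) := by
          rw [mul_sum]
      _ ≤ N * (2 * ((R : ℝ) / B) - 2 * ((R : ℝ) / B) ^ (w + 1)) :=
          mul_le_mul_of_nonneg_left (geom_q _ hq0 h7 w) hN0
      _ ≤ N * (2 * ((R : ℝ) / B)) := by
          refine mul_le_mul_of_nonneg_left ?_ hN0
          have : (0 : ℝ) ≤ ((R : ℝ) / B) ^ (w + 1) := pow_nonneg hq0 _
          linarith
  have hsub : (univ.filter (fun ζ : X → Fin B => D (H589R2.allowed (negT B ζ)) = false)) ⊆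
      BN ∪ (univ.filter (fun ζ : X → Fin B => Hit A (H589R2.allowed (negT B ζ)))) := by
    intro ζ hζ
    simp only [mem_filter, mem_univ, true_and, mem_union] at hζ ⊢
    by_contra hno
    push Not at hno
    have := a3.2 ζ hno.1 hno.2
    rw [hζ] at this
    exact Bool.noConfusion this
  have hBN : BN.card * 4 ^ w ≤ Fintype.card (X → Fin B) := by
    have h1 : BN.card * 8 ^ w ≤ 2 ^ w * Fintype.card (X → Fin B) :=
      a5.trans (Nat.mul_le_mul_right _ ht)
    have h2 : (BN.card * 4 ^ w) * 2 ^ w ≤ Fintype.card (X → Fin B) * 2 ^ w := by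
      calc (BN.card * 4 ^ w) * 2 ^ w = BN.card * 8 ^ w := by
            rw [mul_assoc, ← mul_pow]; norm_num
        _ ≤ 2 ^ w * Fintype.card (X → Fin B) := h1
        _ = _ := by ring
    exact Nat.le_of_mul_le_mul_right h2 (by positivity)
  have h1 := (card_le_card hsub).trans (card_union_le _ _)
  have h1' : ((univ.filter (fun ζ : X → Fin B =>
      D (H589R2.allowed (negT B ζ)) = false)).card : ℝ) ≤ BN.card +
      (univ.filter (fun ζ : X → Fin B => Hit A (H589R2.allowed (negT B ζ)))).card := by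
    exact_mod_cast h1
  have h2' : (BN.card : ℝ) ≤ N * (1 / 4 ^ w) := by
    rw [mul_one_div, le_div_iff₀ (by positivity), hN]
    exact_mod_cast hBN
  calc _ ≤ _ := h1'
    _ ≤ N * (1 / 4 ^ w) + N * (2 * ((R : ℝ) / B)) := add_le_add h2' hhit
    _ = _ := by ring

open Classical in
/-- The lower bound for one block, randomised programs with two-sided error. -/
theorem oneblock_rand (hS : S_SUN) {F : Γ → X → Bool} {k w h R B t : ℕ} (hk : KWise k F)
    (P : Params X k w h R B t) (ht : t ≤ 2 ^ w) {Z : Type} [Fintype Z]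
    (f : Z → (X × Bool → Bool) → Bool)
    (hf : ∀ z, MComp (VB (X × Bool)) t (f z)) (𝒞 : Set (X → Bool)) (v : ℕ)
    (hhard : 2 ^ v * (univ.filter (fun ζ : X → Fin B => ∃ F ∈ 𝒞, ∀ x b, negT B ζ x = some b →
      F x = b)).card ≤ Fintype.card (X → Fin B)) (c₀ c₁ : ℝ)
    (hT : ∀ γ, c₁ ≤ ((univ.filter (fun z => f z (tot (F γ)) = true)).card : ℝ))
    (hF : ∀ T : X → Option Bool, (¬ ∃ F ∈ 𝒞, ∀ x b, T x = some b → F x = b) →
      ((univ.filter (fun z => f z (H589R2.allowed T) = true)).card : ℝ) ≤ c₀) (hc₀ : 0 ≤ c₀) :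
    c₁ ≤ c₀ + (Fintype.card Z : ℝ) * (1 / 2 ^ v + 1 / 2 ^ w + 1 / 4 ^ w + 2 * ((R : ℝ) / B)) := by
  set N : ℝ := (Fintype.card (X → Fin B) : ℝ) with hN
  set G : ℝ := (Fintype.card Γ : ℝ) with hG
  set η : ℝ := 1 / 4 ^ w + 2 * ((R : ℝ) / B) with hη
  have hη0 : 0 ≤ η := by positivity
  have hGpos : 0 < G := by
    rw [hG]; exact_mod_cast Fintype.card_pos
  have hB0 : 0 < B := by
    have := P.hB
    have h6 : 8 * 1 * 2 ≤ 8 * h * w := Nat.mul_le_mul (Nat.mul_le_mul_left _ P.hh) P.hw
    have h7 := P.hR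
    have h8 : 1 ≤ R ^ 2 := Nat.one_le_pow _ _ (by omega)
    omega
  have hNpos : 0 < N := by
    rw [hN]
    haveI : Nonempty (Fin B) := ⟨⟨0, hB0⟩⟩
    exact_mod_cast Fintype.card_pos
  let α : Z → ℝ := fun z => ((univ.filter (fun γ => f z (tot (F γ)) = true)).card : ℝ)
  let ρ : Z → ℝ := fun z => ((univ.filter (fun ζ : X → Fin B =>
    f z (H589R2.allowed (negT B ζ)) = false)).card : ℝ)
  -- every member
  have hz : ∀ z, α z * N + ρ z * G ≤ G * N * (1 + 1 / 2 ^ w + η) := by
    intro z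
    have a1 : α z ≤ G := by
      show ((univ.filter (fun γ => f z (tot (F γ)) = true)).card : ℝ) ≤ G
      rw [hG]; exact_mod_cast card_le_univ _
    have a2 : ρ z ≤ N := by
      show ((univ.filter (fun ζ : X → Fin B =>
        f z (H589R2.allowed (negT B ζ)) = false)).card : ℝ) ≤ N
      rw [hN]; exact_mod_cast card_le_univ _
    have a3 : (0 : ℝ) ≤ 1 / 2 ^ w := by positivity
    rcases two_case hS hk P ht (hf z) with h1 | h1
    · have h2 : α z ≤ G * (1 / 2 ^ w) := by
        rw [mul_one_div, le_div_iff₀ (by positivity)]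
        show ((univ.filter (fun γ => f z (tot (F γ)) = true)).card : ℝ) * 2 ^ w ≤ G
        rw [hG]
        exact_mod_cast h1.le
      calc α z * N + ρ z * G ≤ (G * (1 / 2 ^ w)) * N + N * G := by gcongr
        _ = G * N * (1 + 1 / 2 ^ w) := by ring
        _ ≤ _ := by
          refine mul_le_mul_of_nonneg_left ?_ (by positivity)
          linarith
    · have h2 : ρ z ≤ N * η := h1
      calc α z * N + ρ z * G ≤ G * N + (N * η) * G := by gcongr
        _ = G * N * (1 + η) := by ring
        _ ≤ _ := by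
          refine mul_le_mul_of_nonneg_left ?_ (by positivity)
          linarith
  -- double counting
  have hα : G * c₁ ≤ ∑ z, α z := by
    have e1 : ∑ z, α z = ∑ γ : Γ, ((univ.filter (fun z => f z (tot (F γ)) = true)).card : ℝ) := by
      simp only [α, card_filter]
      push_cast
      exact sum_comm
    rw [e1]
    calc G * c₁ = ∑ _γ : Γ, c₁ := by rw [sum_const, card_univ, nsmul_eq_mul]
      _ ≤ _ := sum_le_sum (fun γ _ => hT γ)
  have hρ : N * ((Fintype.card Z : ℝ) - c₀ - (Fintype.card Z : ℝ) * (1 / 2 ^ v)) ≤ ∑ z, ρ z := by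
    have e1 : ∑ z, ρ z = ∑ ζ : X → Fin B, ((univ.filter (fun z =>
        f z (H589R2.allowed (negT B ζ)) = false)).card : ℝ) := by
      simp only [ρ, card_filter]
      push_cast
      exact sum_comm
    rw [e1]
    have e2 : ∀ ζ : X → Fin B, (Fintype.card Z : ℝ) - c₀ - (Fintype.card Z : ℝ) *
        (if ∃ F ∈ 𝒞, ∀ x b, negT B ζ x = some b → F x = b then 1 else 0) ≤
        ((univ.filter (fun z => f z (H589R2.allowed (negT B ζ)) = false)).card : ℝ) := by
      intro ζ
      by_cases hno : ∃ F ∈ 𝒞, ∀ x b, negT B ζ x = some b → F x = b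
      · rw [if_pos hno]
        have : (0 : ℝ) ≤ ((univ.filter (fun z =>
          f z (H589R2.allowed (negT B ζ)) = false)).card : ℝ) := by positivity
        linarith
      · rw [if_neg hno]
        have h1 := hF _ hno
        have h2 : (univ.filter (fun z => f z (H589R2.allowed (negT B ζ)) = true)).card +
            (univ.filter (fun z => f z (H589R2.allowed (negT B ζ)) = false)).card =
            Fintype.card Z := by
          rw [← card_univ, ← card_filter_add_card_filter_not (s := (univ : Finset Z))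
            (fun z => f z (H589R2.allowed (negT B ζ)) = true)]
          congr 2
          ext z
          simp
        have h3 : ((univ.filter (fun z => f z (H589R2.allowed (negT B ζ)) = true)).card : ℝ) +
            ((univ.filter (fun z => f z (H589R2.allowed (negT B ζ)) = false)).card : ℝ) =
            (Fintype.card Z : ℝ) := by exact_mod_cast h2
        linarith
    have e3 : ((univ.filter (fun ζ : X → Fin B => ∃ F ∈ 𝒞, ∀ x b, negT B ζ x = some b →
        F x = b)).card : ℝ) ≤ N * (1 / 2 ^ v) := by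
      rw [mul_one_div, le_div_iff₀ (by positivity), mul_comm, hN]
      exact_mod_cast hhard
    calc N * ((Fintype.card Z : ℝ) - c₀ - (Fintype.card Z : ℝ) * (1 / 2 ^ v))
        = N * ((Fintype.card Z : ℝ) - c₀) - (Fintype.card Z : ℝ) * (N * (1 / 2 ^ v)) := by ring
      _ ≤ N * ((Fintype.card Z : ℝ) - c₀) - (Fintype.card Z : ℝ) *
          ((univ.filter (fun ζ : X → Fin B => ∃ F ∈ 𝒞, ∀ x b, negT B ζ x = some b →
            F x = b)).card : ℝ) := by
          refine sub_le_sub_left (mul_le_mul_of_nonneg_left e3 (by positivity)) _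
      _ = ∑ ζ : X → Fin B, ((Fintype.card Z : ℝ) - c₀ - (Fintype.card Z : ℝ) *
          (if ∃ F ∈ 𝒞, ∀ x b, negT B ζ x = some b → F x = b then 1 else 0)) := by
          rw [sum_sub_distrib, sum_const, card_univ, nsmul_eq_mul, ← mul_sum, card_filter]
          push_cast
          rfl
      _ ≤ _ := sum_le_sum (fun ζ _ => e2 ζ)
  -- conclusion
  have hsum : (∑ z, α z) * N + (∑ z, ρ z) * G ≤
      (Fintype.card Z : ℝ) * (G * N * (1 + 1 / 2 ^ w + η)) := by
    rw [sum_mul, sum_mul, ← sum_add_distrib]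
    calc _ ≤ ∑ _z : Z, G * N * (1 + 1 / 2 ^ w + η) := sum_le_sum (fun z _ => hz z)
      _ = _ := by rw [sum_const, card_univ, nsmul_eq_mul]
  have h1 : (G * c₁) * N + (N * ((Fintype.card Z : ℝ) - c₀ - (Fintype.card Z : ℝ) *
      (1 / 2 ^ v))) * G ≤ (Fintype.card Z : ℝ) * (G * N * (1 + 1 / 2 ^ w + η)) := by
    refine le_trans (add_le_add ?_ ?_) hsum
    · exact mul_le_mul_of_nonneg_right hα hNpos.le
    · exact mul_le_mul_of_nonneg_right hρ hGpos.le
  have h2 : (G * N) * (c₁ + ((Fintype.card Z : ℝ) - c₀ - (Fintype.card Z : ℝ) *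
      (1 / 2 ^ v))) ≤ (G * N) * ((Fintype.card Z : ℝ) * (1 + 1 / 2 ^ w + η)) := by
    calc _ = (G * c₁) * N + (N * ((Fintype.card Z : ℝ) - c₀ - (Fintype.card Z : ℝ) *
          (1 / 2 ^ v))) * G := by ring
      _ ≤ _ := h1
      _ = _ := by ring
  have h3 := le_of_mul_le_mul_left h2 (mul_pos hGpos hNpos)
  rw [hη] at h3
  linarith

end One

end Pool.Agent.H611R4
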