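import Pool.Agent.H611R4.Rand

/-!
# The lower bound for gap problems on partial tables, randomised circuits
-/

set_option linter.unusedSectionVars false

namespace Pool.Agent.H611R4

open Finset Pool.Agent.H520R2 Pool.Agent.H520R2.NM Pool.Agent.H611R3

open Classical in
theorem aux_rand (hS : S_SUN) {n β d : ℕ} (𝒞 : Finset (H589R2.Fn n))
    (emb : (Fin β → Bool) → (Fin n → Bool)) (hemb : Function.Injective emb)
    {k w h R B t : ℕ} (hkd : k = 2 ^ d) (P : Params (Fin β → Bool) k w h R B t)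
    (ht : t ≤ 2 ^ w) {Z : Type} [Fintype Z]
    (f : Z → ((Fin β → Bool) × Bool → Bool) → Bool)
    (hf : ∀ z, MComp (VB ((Fin β → Bool) × Bool)) t (f z))
    (S : Set ((Fin β → Bool) → Bool)) (hS1 : ∀ F' ∈ 𝒞, (fun y => F' (emb y)) ∈ S) (v : ℕ)
    (hhard : 2 ^ v * (univ.filter (fun ζ : (Fin β → Bool) → Fin B =>
      ∃ F ∈ S, ∀ x b, negT B ζ x = some b → F x = b)).card ≤
        Fintype.card ((Fin β → Bool) → Fin B)) (c₀ c₁ : ℝ) (hc₀ : 0 ≤ c₀)
    (hT : ∀ G ∈ H589R2.RM n n d,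
      c₁ ≤ ((univ.filter (fun z => f z (tot (fun y => G (emb y))) = true)).card : ℝ))
    (hF : ∀ T : (Fin β → Bool) → Option Bool,
        (¬ ∃ F ∈ 𝒞, ∀ y b, T y = some b → F (emb y) = b) →
        ((univ.filter (fun z => f z (H589R2.allowed T) = true)).card : ℝ) ≤ c₀) :
    c₁ ≤ c₀ + (Fintype.card Z : ℝ) * (1 / 2 ^ v + 1 / 2 ^ w + 1 / 4 ^ w + 2 * ((R : ℝ) / B)) := by
  have : Fintype ↥(H589R2.RM n n d) := Fintype.ofFinite _
  have : Nonempty ↥(H589R2.RM n n d) := ⟨⟨_, H589R2.RM_const n n d false⟩⟩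
  have hk : KWise k (fun (g : ↥(H589R2.RM n n d)) (y : Fin β → Bool) => g.1 (emb y)) := by
    rw [hkd]
    exact t_RMI n d (Fin β → Bool) emb hemb
  refine oneblock_rand hS hk P ht f hf S v hhard c₀ c₁ (fun γ => hT γ.1 γ.2) (fun T hT' => ?_) hc₀
  refine hF T ?_
  rintro ⟨F, hF1, hF2⟩
  exact hT' ⟨_, hS1 F hF1, hF2⟩

open Classical in
/-- **Gap problems on partial tables, randomised circuits with two-sided error.** -/
theorem main_rand (hS : S_SUN) {n a β d e u : ℕ} (hn : n = a + β) (he : 1 ≤ e)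
    (hde : (4 * n + 15) * 4 ^ e ≤ 2 ^ d) (hu : u ≤ d) (hue : u + 2 ≤ 2 ^ e)
    (Easy : Set (H589R2.Fn n)) (𝒞 : Finset (H589R2.Fn n)) (L : ℕ) (hcard : 𝒞.card ≤ 2 ^ L)
    (hL : (L + (d + 2)) * 2 ^ (2 * d + 7) ≤ 2 ^ β)
    (heasy : ∀ g : (Fin n → Bool) → H589R2.Fn n, (∀ x, g x ∈ H589R2.RM n n d) →
      (∀ x y, (∀ j < a, H589R2.co n j x = H589R2.co n j y) → g x = g y) →
      (fun x => g x x) ∈ Easy)
    {Z : Type} [Fintype Z] [Nonempty Z] {s K : ℕ}
    (f : Z → ((Fin n → Bool) × Bool → Bool) → Bool) (hf : Helped s K f)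
    (hK : K ≤ 2 ^ a) (hs : 2 * s ≤ 2 ^ 2 ^ e) (p₀ p₁ : ℝ) (hp : p₀ + 1 / 2 ^ u ≤ p₁)
    (hT : ∀ T : (Fin n → Bool) → Option Bool, (∃ F ∈ Easy, ∀ x b, T x = some b → F x = b) →
      p₁ * Fintype.card Z ≤
        ((univ.filter (fun z => f z (H589R2.allowed T) = true)).card : ℝ))
    (hF : ∀ T : (Fin n → Bool) → Option Bool, (¬ ∃ F ∈ 𝒞, ∀ x b, T x = some b → F x = b) →
      ((univ.filter (fun z => f z (H589R2.allowed T) = true)).card : ℝ) ≤
        p₀ * Fintype.card Z) : False := by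
  obtain ⟨emb, f', h1, h2, h3, h4⟩ := to_block hn Easy 𝒞 heasy f hf hK
    (fun p => p₁ * Fintype.card Z ≤ ((univ.filter (fun z => p z = true)).card : ℝ))
    (fun p => ((univ.filter (fun z => p z = true)).card : ℝ) ≤ p₀ * Fintype.card Z) (by
      intro p q hpq hp
      refine le_trans ?_ hp
      have : (univ.filter (fun z => q z = true)) ⊆ (univ.filter (fun z => p z = true)) := by
        intro z hz
        rw [mem_filter] at hz ⊢
        exact ⟨mem_univ _, hpq z hz.2⟩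
      exact_mod_cast card_le_card this) hT hF
  have P := num_params (n := n) he hde (show β ≤ n by omega)
  obtain ⟨S, hS1, hS2⟩ := hard_block' (v := d + 2) 𝒞 L hcard hL emb
  have hZ : (0 : ℝ) < Fintype.card Z := by exact_mod_cast Fintype.card_pos
  -- `p₀` is nonnegative, for there is a hard table
  have hp₀ : 0 ≤ p₀ * Fintype.card Z := by
    have hlt : (univ.filter (fun ζ : (Fin β → Bool) → Fin (2 ^ (2 * d + 7)) =>
        ∃ F ∈ S, ∀ x b, negT (2 ^ (2 * d + 7)) ζ x = some b → F x = b)).card <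
        Fintype.card ((Fin β → Bool) → Fin (2 ^ (2 * d + 7))) := by
      have hpos : 0 < Fintype.card ((Fin β → Bool) → Fin (2 ^ (2 * d + 7))) := by
        haveI : Nonempty (Fin (2 ^ (2 * d + 7))) := ⟨⟨0, by positivity⟩⟩
        exact Fintype.card_pos
      have h4 : 4 ≤ 2 ^ (d + 2) := by
        calc 4 = 2 ^ 2 := by norm_num
          _ ≤ 2 ^ (d + 2) := Nat.pow_le_pow_right (by norm_num) (by omega)
      have h5 := (Nat.mul_le_mul_right _ h4).trans hS2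
      omega
    obtain ⟨ζ, hζ⟩ : ∃ ζ : (Fin β → Bool) → Fin (2 ^ (2 * d + 7)),
        ¬ ∃ F ∈ S, ∀ x b, negT (2 ^ (2 * d + 7)) ζ x = some b → F x = b := by
      by_contra hno
      push Not at hno
      rw [filter_true_of_mem (fun ζ _ => hno ζ), card_univ] at hlt
      omega
    refine le_trans (by positivity) (h4 (negT (2 ^ (2 * d + 7)) ζ) ?_)
    rintro ⟨F, hF1, hF2⟩
    exact hζ ⟨_, hS1 F hF1, hF2⟩
  have hB : (2 : ℝ) * (((2 ^ (d + 2) : ℕ) : ℝ) / ((2 ^ (2 * d + 7) : ℕ) : ℝ)) =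
      1 / 2 ^ (d + 4) := by
    push_cast
    rw [eq_div_iff (by positivity), ← mul_div_assoc, div_mul_eq_mul_div,
      div_eq_iff (by positivity)]
    ring
  have key := aux_rand hS 𝒞 emb h1 rfl P (le_refl _) f' (fun z => by
    obtain ⟨L', a1, a2, a3⟩ := h2 z
    exact ⟨L', a1, a2.trans hs, a3⟩) S hS1 (d + 2) hS2 (p₀ * Fintype.card Z)
    (p₁ * Fintype.card Z) hp₀ h3 h4
  rw [hB] at key
  have e0 : (0 : ℝ) < 1 / 2 ^ u := by positivity
  have e1 : (1 : ℝ) / 2 ^ (d + 2) ≤ 1 / 4 * (1 / 2 ^ u) := by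
    have : (1 : ℝ) / 2 ^ (d + 2) ≤ 1 / 2 ^ (u + 2) :=
      one_div_le_one_div_of_le (by positivity) (pow_le_pow_right₀ (by norm_num) (by omega))
    calc _ ≤ _ := this
      _ = _ := by rw [pow_add]; ring
  have e2 : (1 : ℝ) / 2 ^ (2 ^ e) ≤ 1 / 4 * (1 / 2 ^ u) := by
    have : (1 : ℝ) / 2 ^ (2 ^ e) ≤ 1 / 2 ^ (u + 2) :=
      one_div_le_one_div_of_le (by positivity) (pow_le_pow_right₀ (by norm_num) hue)
    calc _ ≤ _ := this
      _ = _ := by rw [pow_add]; ring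
  have e3 : (1 : ℝ) / 4 ^ (2 ^ e) ≤ 1 / 4 * (1 / 2 ^ u) := by
    refine le_trans (one_div_le_one_div_of_le (by positivity) ?_) e2
    exact pow_le_pow_left₀ (by norm_num) (by norm_num) _
  have e4 : (1 : ℝ) / 2 ^ (d + 4) ≤ 1 / 16 * (1 / 2 ^ u) := by
    have : (1 : ℝ) / 2 ^ (d + 4) ≤ 1 / 2 ^ (u + 4) :=
      one_div_le_one_div_of_le (by positivity) (pow_le_pow_right₀ (by norm_num) (by omega))
    calc _ ≤ _ := this
      _ = _ := by rw [pow_add]; ring
  have k1 : p₁ * Fintype.card Z ≤ p₀ * Fintype.card Z +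
      (Fintype.card Z : ℝ) * (13 / 16 * (1 / 2 ^ u)) := by
    refine key.trans ?_
    gcongr
    linarith
  have k2 : (Fintype.card Z : ℝ) * p₁ ≤ (Fintype.card Z : ℝ) * (p₀ + 13 / 16 * (1 / 2 ^ u)) := by
    linarith
  have k3 := le_of_mul_le_mul_left k2 hZ
  linarith

end Pool.Agent.H611R4
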