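import Pool.Agent.H611R4.Props
import Pool.Agent.H611R3.Transfer

/-!
# Task TR: transfer for promise conjunctions
-/

namespace Pool.Agent.H611R4

open Pool.Agent.H520R2 Pool.Agent.H520R2.NM Pool.Agent.H611R3

theorem t_TR : S_TR := by
  intro κ ι Z M s R g hg Pos Neg QT QF hQF f hf hR hT hF
  by_contra hno
  obtain ⟨p, w, n, C, hC1, hC2, hC3⟩ := hf
  -- one step of the chain
  have step : ∀ (x0 : ι → Bool) (j : Fin M), Supp g true x0 → (∀ k, x0 (g j k) = true) →
      (∀ j', Pos (fun k => x0 (g j' k)) ∨ ∀ k, x0 (g j' k) = true) → ∃ y : κ → Bool, Pos y ∧
        ∃ l, (C l).probes x0 ≠ (C l).probes (put g x0 j y) := by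
    intro x0 j hs hz hpos
    by_contra hall
    push Not at hall
    choose f1 h1 h2 h3 using fun z =>
      freeze_down (C (w z)) x0 (fun _ : Unit => f z) (fun _ => hC3 z)
    apply hno
    have hle : ∀ y, put g x0 j y ≤ x0 := by
      intro y i
      by_cases h : ∃ k, g j k = i
      · obtain ⟨k, rfl⟩ := h
        rw [hz k]
        exact Bool.le_true _
      · rw [put, dif_neg h]
    refine ⟨fun z y => f1 z () (put g x0 j y), fun z => ?_, fun y hy => ?_, fun y hy => ?_⟩
    · obtain ⟨L, hL, hlen, hav⟩ := h1 z ()
      have := hC1 (w z)
      exact MComp.comp _ (put_vb g x0 j) ⟨L, hL, by omega, hav⟩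
    · have e : (fun z => f1 z () (put g x0 j y)) = fun z => f z (put g x0 j y) := by
        funext z
        exact h2 z _ (hle y) (hall y hy (w z)).symm ()
      rw [e]
      refine hT _ (put_supp hs j y) (fun j' => ?_)
      by_cases hj : j' = j
      · subst hj
        have : (fun k => put g x0 j' y (g j' k)) = y := by
          funext k
          exact put_same hg x0 j' y k
        rw [this]
        exact Or.inl hy
      · have : (fun k => put g x0 j y (g j' k)) = fun k => x0 (g j' k) := by
          funext k
          exact put_other hg x0 hj y k
        rw [this]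
        rcases hpos j' with h | h
        · exact Or.inl h
        · exact Or.inr fun k => (put_other hg x0 hj y k).trans (h k)
    · refine hQF (fun z => f z (put g x0 j y)) _ (fun z hz' => ?_) ?_
      · by_cases hp : (C (w z)).probes (put g x0 j y) = (C (w z)).probes x0
        · exact (h2 z _ (hle y) hp ()).symm.trans hz'
        · exact Bool.noConfusion ((h3 z _ (hle y) hp ()).symm.trans hz')
      · have e : (fun k => put g x0 j y (g j k)) = y := by
          funext k
          exact put_same hg x0 j y k
        refine hF _ (put_supp hs j y) (fun j' => ?_) ⟨j, by rw [e]; exact hy⟩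
        by_cases hj : j' = j
        · subst hj
          rw [e]
          exact Or.inr (Or.inl hy)
        · have : (fun k => put g x0 j y (g j' k)) = fun k => x0 (g j' k) := by
            funext k
            exact put_other hg x0 hj y k
          rw [this]
          rcases hpos j' with h | h
          · exact Or.inl h
          · exact Or.inr (Or.inr fun k => (put_other hg x0 hj y k).trans (h k))
  -- the chain
  have chain : ∀ m ≤ M, ∃ x : ℕ → (ι → Bool), (∀ i < m, x i ≤ x (i + 1)) ∧
      (∀ i < m, ∃ l, (C l).probes (x i) ≠ (C l).probes (x (i + 1))) ∧ Supp g true (x 0) ∧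
      (∀ j : Fin M, m ≤ j.val → ∀ k, x 0 (g j k) = true) ∧
      ∀ j, Pos (fun k => x 0 (g j k)) ∨ ∀ k, x 0 (g j k) = true := by
    intro m
    induction m with
    | zero =>
      intro _
      exact ⟨fun _ _ => true, fun i hi => absurd hi (Nat.not_lt_zero i),
        fun i hi => absurd hi (Nat.not_lt_zero i), fun _ _ => rfl, fun _ _ _ => rfl,
        fun _ => Or.inr fun _ => rfl⟩
    | succ m ih =>
      intro hm
      obtain ⟨x, h1, h2, h3, h4, h5⟩ := ih (by omega)
      obtain ⟨y, hy, hpr⟩ := step (x 0) ⟨m, hm⟩ h3 (h4 _ le_rfl) h5
      refine ⟨fun i => if i = 0 then put g (x 0) ⟨m, hm⟩ y else x (i - 1), ?_, ?_, ?_, ?_, ?_⟩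
      · intro i hi
        by_cases him : i = 0
        · subst him
          beta_reduce
          rw [if_pos rfl, if_neg (by omega)]
          intro i'
          by_cases h : ∃ k, g ⟨m, hm⟩ k = i'
          · obtain ⟨k, rfl⟩ := h
            rw [show (0 + 1 - 1 : ℕ) = 0 from rfl, h4 _ le_rfl k]
            exact Bool.le_true _
          · rw [put, dif_neg h]
        · beta_reduce
          rw [if_neg him, if_neg (by omega)]
          have := h1 (i - 1) (by omega)
          rwa [show i - 1 + 1 = i + 1 - 1 by omega] at this
      · intro i hi
        by_cases him : i = 0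
        · subst him
          beta_reduce
          rw [if_pos rfl, if_neg (by omega)]
          obtain ⟨l, hl⟩ := hpr
          exact ⟨l, hl.symm⟩
        · beta_reduce
          rw [if_neg him, if_neg (by omega)]
          have := h2 (i - 1) (by omega)
          rwa [show i - 1 + 1 = i + 1 - 1 by omega] at this
      · beta_reduce
        rw [if_pos rfl]
        exact put_supp h3 _ _
      · intro j hj k
        beta_reduce
        rw [if_pos rfl]
        have hne : j ≠ ⟨m, hm⟩ := by
          rintro rfl
          simp at hj
        rw [put_other hg _ hne]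
        exact h4 j (by omega) k
      · intro j
        beta_reduce
        rw [if_pos rfl]
        by_cases hj : j = ⟨m, hm⟩
        · subst hj
          have : (fun k => put g (x 0) ⟨m, hm⟩ y (g ⟨m, hm⟩ k)) = y := by
            funext k
            exact put_same hg _ _ y k
          left
          rw [this]
          exact hy
        · have : (fun k => put g (x 0) ⟨m, hm⟩ y (g j k)) = fun k => x 0 (g j k) := by
            funext k
            exact put_other hg _ hj y k
          rcases h5 j with h | h
          · left
            rw [this]
            exact h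
          · right
            intro k
            rw [put_other hg _ hj]
            exact h k
  obtain ⟨x, h1, h2, -⟩ := chain M le_rfl
  have := multi_chain C M x h1 h2
  omega

end Pool.Agent.H611R4
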